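import Pool.Agent.SNS.Defs

set_option autoImplicit false

/-!
# SPG-CHO: choice of a good velocity spectrum (job for helper88, by helper20)
-/

open MeasureTheory Filter Topology Set
open scoped FourierTransform SchwartzMap ContDiff ComplexConjugate RealInnerProductSpace

namespace SNS

namespace CHO

/-- the weight -/
noncomputable def w (y : ℝ) : ℝ := if y < 1 then y⁻¹ else (y ^ 2)⁻¹

lemma w_meas : Measurable w :=
  Measurable.ite measurableSet_Iio measurable_inv ((measurable_id.pow_const 2).inv)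

lemma w_memLp : MemLp (fun ξ : E => w ‖ξ‖) 2 (volume : Measure E) := by
  have hm : AEStronglyMeasurable (fun ξ : E => w ‖ξ‖) (volume : Measure E) :=
    (w_meas.comp measurable_norm).aestronglyMeasurable
  rw [memLp_two_iff_integrable_sq hm]
  refine (integrable_fun_norm_addHaar (volume : Measure E) (f := fun y => w y ^ 2)).2 ?_
  have hd : Module.finrank ℝ E - 1 = 2 := by simp [E]
  rw [hd]
  have hU : Ioi (0 : ℝ) = Ioo 0 1 ∪ Ici 1 := (Set.Ioo_union_Ici_eq_Ioi one_pos).symm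
  rw [hU, integrableOn_union]
  constructor
  · have h1 : IntegrableOn (fun _ : ℝ => (1 : ℝ)) (Ioo 0 1) := by
      simp
    refine h1.congr_fun (fun y hy => ?_) measurableSet_Ioo
    simp only [w, if_pos hy.2, smul_eq_mul]
    field_simp [hy.1.ne']
  · rw [integrableOn_Ici_iff_integrableOn_Ioi]
    have h1 : IntegrableOn (fun y : ℝ => y ^ (-2 : ℝ)) (Ioi 1) :=
      integrableOn_Ioi_rpow_of_lt (by norm_num) one_pos
    refine h1.congr_fun (fun y hy => ?_) measurableSet_Ioi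
    have hy' : (1 : ℝ) < y := hy
    have hy0 : (0 : ℝ) < y := one_pos.trans hy'
    simp only [w, if_neg (not_lt.2 hy'.le), smul_eq_mul]
    rw [Real.rpow_neg hy0.le]
    have : y ^ (2 : ℝ) = y ^ (2 : ℕ) := by exact_mod_cast Real.rpow_natCast y 2
    rw [this]
    field_simp

lemma w_ge {y v : ℝ} (hy : 0 < y) (hv : 0 ≤ v) : v ≤ w y * (y * v + y ^ 2 * v) := by
  unfold w
  split_ifs with h
  · have : y⁻¹ * (y * v + y ^ 2 * v) = v + y * v := by field_simp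
    rw [this]
    nlinarith [mul_nonneg hy.le hv]
  · have : (y ^ 2)⁻¹ * (y * v + y ^ 2 * v) = v + y⁻¹ * v := by field_simp; ring
    rw [this]
    nlinarith [mul_nonneg (inv_nonneg.2 hy.le) hv]

/-- the square of the norm as a complex number -/
lemma nsq (ξ : E) : ∑ l, (ξ l : ℂ) * (ξ l : ℂ) = ((‖ξ‖ ^ 2 : ℝ) : ℂ) := by
  rw [EuclideanSpace.real_norm_sq_eq]
  push_cast
  exact Finset.sum_congr rfl fun l _ => (sq _).symm

/-- the candidate at a point -/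
noncomputable def u (G : Fin 3 → Fin 3 → ℂ) (ξ : E) (j : Fin 3) : ℂ :=
  (2 * Real.pi * Complex.I)⁻¹ * (((‖ξ‖ ^ 2 : ℝ) : ℂ)⁻¹ * ∑ l, (ξ l : ℂ) * G l j)

lemma c_ne : (2 * Real.pi * Complex.I : ℂ) ≠ 0 := by
  simp [Real.pi_ne_zero]

lemma n_ne {ξ : E} (h0 : ξ ≠ 0) : (((‖ξ‖ ^ 2 : ℝ) : ℂ)) ≠ 0 := by
  have : ‖ξ‖ ^ 2 ≠ 0 := pow_ne_zero 2 (norm_ne_zero_iff.2 h0)
  exact_mod_cast this

lemma alg1 {G : Fin 3 → Fin 3 → ℂ} {ξ : E} (h0 : ξ ≠ 0)
    (h1 : ∀ i j k, (ξ k : ℂ) * G i j = (ξ i : ℂ) * G k j) (i j : Fin 3) :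
    2 * Real.pi * Complex.I * (ξ i : ℂ) * u G ξ j = G i j := by
  have h2 : (ξ i : ℂ) * ∑ l, (ξ l : ℂ) * G l j = ((‖ξ‖ ^ 2 : ℝ) : ℂ) * G i j := by
    rw [← nsq, Finset.mul_sum, Finset.sum_mul]
    refine Finset.sum_congr rfl fun l _ => ?_
    have := h1 l j i
    linear_combination (ξ l : ℂ) * this
  unfold u
  have h3 := n_ne h0
  calc 2 * Real.pi * Complex.I * (ξ i : ℂ) * ((2 * Real.pi * Complex.I)⁻¹ *
        (((‖ξ‖ ^ 2 : ℝ) : ℂ)⁻¹ * ∑ l, (ξ l : ℂ) * G l j)) =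
        (2 * Real.pi * Complex.I * (2 * Real.pi * Complex.I)⁻¹) *
          (((‖ξ‖ ^ 2 : ℝ) : ℂ)⁻¹ * ((ξ i : ℂ) * ∑ l, (ξ l : ℂ) * G l j)) := by ring
    _ = G i j := by
        rw [h2, mul_inv_cancel₀ c_ne, one_mul, ← mul_assoc, inv_mul_cancel₀ h3, one_mul]

lemma alg2 {G : Fin 3 → Fin 3 → ℂ} {ξ : E} (h0 : ξ ≠ 0)
    (h1 : ∀ i j k, (ξ k : ℂ) * G i j = (ξ i : ℂ) * G k j) (h2 : ∑ i, G i i = 0) :
    ∑ i, (ξ i : ℂ) * u G ξ i = 0 := by
  have h3 : 2 * Real.pi * Complex.I * ∑ i, (ξ i : ℂ) * u G ξ i = 0 := by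
    rw [Finset.mul_sum, ← h2]
    refine Finset.sum_congr rfl fun i _ => ?_
    rw [← alg1 h0 h1 i i]
    ring
  exact (mul_eq_zero.1 h3).resolve_left c_ne

lemma alg3 {G G' : Fin 3 → Fin 3 → ℂ} {ξ : E} (h : ∀ i j, G' i j = conj (G i j)) (j : Fin 3) :
    u G' (-ξ) j = conj (u G ξ j) := by
  unfold u
  have h1 : ∑ l, (((-ξ) l : ℝ) : ℂ) * G' l j = - conj (∑ l, (ξ l : ℂ) * G l j) := by
    rw [map_sum, ← Finset.sum_neg_distrib]
    refine Finset.sum_congr rfl fun l _ => ?_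
    rw [h, map_mul, Complex.conj_ofReal]
    simp
  rw [h1, norm_neg, map_mul, map_mul, map_inv₀, map_inv₀, Complex.conj_ofReal, map_mul,
    Complex.conj_I, map_mul, Complex.conj_ofReal]
  have : conj (2 : ℂ) = 2 := Complex.conj_ofNat 2
  have e : (2 * (Real.pi : ℂ) * -Complex.I)⁻¹ = -(2 * Real.pi * Complex.I)⁻¹ := by
    rw [mul_neg, inv_neg]
  rw [this, e]
  ring

/-- the energy identity -/
lemma alg4 {ν : ℝ} {F V : Fin 3 → ℂ} {ξ : E} (h0 : ξ ≠ 0) (h1 : ∑ i, (ξ i : ℂ) * V i = 0)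
    (h2 : ∀ j k, (ξ k : ℂ) * (F j + 4 * Real.pi ^ 2 * ν * ((‖ξ‖ ^ 2 : ℝ) : ℂ) * V j) =
      (ξ j : ℂ) * (F k + 4 * Real.pi ^ 2 * ν * ((‖ξ‖ ^ 2 : ℝ) : ℂ) * V k)) :
    ∑ j, F j * conj (V j) =
      ((-(4 * Real.pi ^ 2 * ν * ‖ξ‖ ^ 2 * ∑ j, ‖V j‖ ^ 2) : ℝ) : ℂ) := by
  set a : Fin 3 → ℂ := fun j => F j + 4 * Real.pi ^ 2 * ν * ((‖ξ‖ ^ 2 : ℝ) : ℂ) * V j with ha
  have h3 : ∑ i, (ξ i : ℂ) * conj (V i) = 0 := by
    have := congrArg (starRingEnd ℂ) h1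
    rw [map_sum, map_zero] at this
    rw [← this]
    refine Finset.sum_congr rfl fun i _ => ?_
    rw [map_mul, Complex.conj_ofReal]
  have h4 : ((‖ξ‖ ^ 2 : ℝ) : ℂ) * ∑ j, a j * conj (V j) = 0 := by
    have h5 : ((‖ξ‖ ^ 2 : ℝ) : ℂ) * ∑ j, a j * conj (V j) =
        ∑ k, ((ξ k : ℂ) * a k) * ∑ j, (ξ j : ℂ) * conj (V j) := by
      rw [← nsq, Finset.sum_mul]
      refine Finset.sum_congr rfl fun k _ => ?_
      rw [Finset.mul_sum, Finset.mul_sum]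
      refine Finset.sum_congr rfl fun j _ => ?_
      have := h2 j k
      linear_combination (ξ k : ℂ) * conj (V j) * this
    rw [h5, h3]
    simp
  have h6 : ∑ j, a j * conj (V j) = 0 := (mul_eq_zero.1 h4).resolve_left (n_ne h0)
  have h7 : ∑ j, a j * conj (V j) = ∑ j, F j * conj (V j) +
      4 * Real.pi ^ 2 * ν * ((‖ξ‖ ^ 2 : ℝ) : ℂ) * ∑ j, ((‖V j‖ ^ 2 : ℝ) : ℂ) := by
    rw [Finset.mul_sum, ← Finset.sum_add_distrib]
    refine Finset.sum_congr rfl fun j _ => ?_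
    have h8 : V j * conj (V j) = ((‖V j‖ ^ 2 : ℝ) : ℂ) := by
      rw [Complex.mul_conj, Complex.normSq_eq_norm_sq]
    rw [← h8, ha]
    ring
  rw [h6] at h7
  push_cast at h7 ⊢
  linear_combination -h7

lemma norm_le_sum (v : C3) : ‖v‖ ≤ ∑ j, ‖v j‖ := by
  have h1 : ‖v‖ ^ 2 ≤ (∑ j, ‖v j‖) ^ 2 := by
    rw [EuclideanSpace.norm_sq_eq]
    exact Finset.sum_sq_le_sq_sum_of_nonneg fun i _ => norm_nonneg _
  exact (sq_le_sq₀ (norm_nonneg _) (Finset.sum_nonneg fun _ _ => norm_nonneg _)).1 h1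

lemma normE_le_sum (v : E) : ‖v‖ ≤ ∑ j, ‖v j‖ := by
  have h1 : ‖v‖ ^ 2 ≤ (∑ j, ‖v j‖) ^ 2 := by
    rw [EuclideanSpace.norm_sq_eq]
    exact Finset.sum_sq_le_sq_sum_of_nonneg fun i _ => norm_nonneg _
  exact (sq_le_sq₀ (norm_nonneg _) (Finset.sum_nonneg fun _ _ => norm_nonneg _)).1 h1

end CHO

open CHO in
theorem choice {ν : ℝ} (hν : 0 < ν) (Gh : Fin 3 → Fin 3 → E → ℂ) (F : Fin 3 → E → ℂ)
    (hG : ∀ i j, MemLp (Gh i j) 2 (volume : Measure E))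
    (hF : ∀ j, MemLp (F j) 2 (volume : Measure E))
    (hcurl : ∀ i j k, ∀ᵐ ξ : E, (ξ k : ℂ) * Gh i j ξ = (ξ i : ℂ) * Gh k j ξ)
    (hdiv : ∀ᵐ ξ : E, ∑ i, Gh i i ξ = 0)
    (hreal : ∀ i j, ∀ᵐ ξ : E, Gh i j (-ξ) = conj (Gh i j ξ))
    (hpress : ∀ j k, ∀ᵐ ξ : E,
      (ξ k : ℂ) * (F j ξ - 2 * Real.pi * Complex.I * ν * ∑ l, (ξ l : ℂ) * Gh l j ξ) =
      (ξ j : ℂ) * (F k ξ - 2 * Real.pi * Complex.I * ν * ∑ l, (ξ l : ℂ) * Gh l k ξ)) :
    ∃ V : E → C3, Good V ∧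
      (∀ i j, Gh i j =ᵐ[volume] fun ξ => 2 * Real.pi * Complex.I * (ξ i : ℂ) * V ξ j) ∧
      (∀ᵐ ξ : E, ∑ j, F j ξ * conj (V ξ j) =
        ((-(4 * Real.pi ^ 2 * ν * ‖ξ‖ ^ 2 * ‖V ξ‖ ^ 2) : ℝ) : ℂ)) := by
  -- representatives
  set G : Fin 3 → Fin 3 → E → ℂ := fun i j => (hG i j).1.mk (Gh i j) with hGdef
  have hGm : ∀ i j, Measurable (G i j) := fun i j => (hG i j).1.stronglyMeasurable_mk.measurable
  have hGe : ∀ i j, Gh i j =ᵐ[volume] G i j := fun i j => (hG i j).1.ae_eq_mk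
  have hall : ∀ᵐ ξ : E, ∀ i j, Gh i j ξ = G i j ξ := by
    rw [ae_all_iff]; intro i; rw [ae_all_iff]; intro j; exact hGe i j
  have hneg : Measure.QuasiMeasurePreserving (fun ξ : E => -ξ) volume volume :=
    (Measure.measurePreserving_neg (volume : Measure E)).quasiMeasurePreserving
  have hall' : ∀ᵐ ξ : E, ∀ i j, Gh i j (-ξ) = G i j (-ξ) := hneg.ae hall
  -- the good points
  set P : E → Prop := fun ξ => (∀ i j k, (ξ k : ℂ) * G i j ξ = (ξ i : ℂ) * G k j ξ) ∧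
    (∑ i, G i i ξ = 0) ∧ (∀ i j, G i j (-ξ) = conj (G i j ξ)) ∧ ξ ≠ 0 with hPdef
  have hP : ∀ᵐ ξ : E, P ξ := by
    have c1 : ∀ᵐ ξ : E, ∀ i j k, (ξ k : ℂ) * Gh i j ξ = (ξ i : ℂ) * Gh k j ξ := by
      simp only [ae_all_iff]; exact hcurl
    have c2 : ∀ᵐ ξ : E, ∀ i j, Gh i j (-ξ) = conj (Gh i j ξ) := by
      simp only [ae_all_iff]; exact hreal
    have c3 : ∀ᵐ ξ : E, ξ ≠ 0 := by
      have : volume ({0} : Set E) = 0 := measure_singleton 0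
      rw [ae_iff]
      simpa using this
    filter_upwards [hall, hall', c1, hdiv, c2, c3] with ξ h1 h2 h3 h4 h5 h6
    refine ⟨fun i j k => ?_, ?_, fun i j => ?_, h6⟩
    · rw [← h1, ← h1]; exact h3 i j k
    · rw [← h4]; exact Finset.sum_congr rfl fun i _ => (h1 i i).symm
    · rw [← h2, ← h1]; exact h5 i j
  set N : Set E := toMeasurable volume {ξ | ¬ P ξ} with hN
  have hN0 : volume N = 0 := by
    rw [hN, measure_toMeasurable]; exact hP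
  have hNm : MeasurableSet N := measurableSet_toMeasurable _ _
  set S : Set E := (N ∪ (fun ξ : E => -ξ) ⁻¹' N)ᶜ with hS
  have hSm : MeasurableSet S := (hNm.union (measurable_neg hNm)).compl
  have hSneg : ∀ ξ, -ξ ∈ S ↔ ξ ∈ S := by
    intro ξ
    simp only [hS, mem_compl_iff, mem_union, mem_preimage, neg_neg]
    tauto
  have hSP : ∀ ξ ∈ S, P ξ := by
    intro ξ hξ
    by_contra h
    exact hξ (Or.inl (subset_toMeasurable _ _ h))
  have hSae : ∀ᵐ ξ : E, ξ ∈ S := by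
    rw [ae_iff]
    have h0 : volume (N ∪ (fun ξ : E => -ξ) ⁻¹' N) = 0 :=
      measure_union_null hN0 (hneg.preimage_null hN0)
    refine measure_mono_null ?_ h0
    intro ξ hξ
    by_contra h
    exact hξ h
  -- the spectrum
  set V : E → C3 := S.indicator fun ξ => WithLp.toLp 2 fun j => u (fun i j => G i j ξ) ξ j
    with hVdef
  have hVS : ∀ ξ ∈ S, ∀ j, V ξ j = u (fun i j => G i j ξ) ξ j := by
    intro ξ hξ j
    rw [hVdef, Set.indicator_of_mem hξ]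
  have hV0 : ∀ ξ, ξ ∉ S → ∀ j, V ξ j = 0 := by
    intro ξ hξ j
    rw [hVdef, Set.indicator_of_notMem hξ]
    rfl
  have hVm : Measurable V := by
    apply Measurable.indicator _ hSm
    apply (WithLp.measurable_toLp 2 _).comp
    rw [measurable_pi_iff]
    intro j
    unfold u
    apply Measurable.const_mul
    apply Measurable.mul
    · exact (Complex.measurable_ofReal.comp (measurable_norm.pow_const 2)).inv
    · apply Finset.measurable_sum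
      intro l _
      exact (Complex.measurable_ofReal.comp (by fun_prop)).mul (hGm l j)
  have hGV : ∀ᵐ ξ : E, ∀ i j, Gh i j ξ = 2 * Real.pi * Complex.I * (ξ i : ℂ) * V ξ j := by
    filter_upwards [hall, hSae] with ξ h1 h2 i j
    rw [h1, hVS ξ h2 j]
    obtain ⟨p1, -, -, p4⟩ := hSP ξ h2
    exact (alg1 (G := fun i j => G i j ξ) p4 p1 i j).symm
  have hdivV : ∀ ξ, ∑ i, (ξ i : ℂ) * V ξ i = 0 := by
    intro ξ
    by_cases hξ : ξ ∈ S
    · obtain ⟨p1, p2, -, p4⟩ := hSP ξ hξ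
      rw [← alg2 (G := fun i j => G i j ξ) p4 p1 p2]
      exact Finset.sum_congr rfl fun i _ => by rw [hVS ξ hξ i]
    · simp [hV0 ξ hξ]
  have henergy : ∀ᵐ ξ : E, ∑ j, F j ξ * conj (V ξ j) =
      ((-(4 * Real.pi ^ 2 * ν * ‖ξ‖ ^ 2 * ‖V ξ‖ ^ 2) : ℝ) : ℂ) := by
    have hpr : ∀ᵐ ξ : E, ∀ j k,
        (ξ k : ℂ) * (F j ξ - 2 * Real.pi * Complex.I * ν * ∑ l, (ξ l : ℂ) * Gh l j ξ) =
        (ξ j : ℂ) * (F k ξ - 2 * Real.pi * Complex.I * ν * ∑ l, (ξ l : ℂ) * Gh l k ξ) := by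
      simp only [ae_all_iff]; exact hpress
    filter_upwards [hpr, hGV, hSae] with ξ h1 h2 h3
    obtain ⟨-, -, -, p4⟩ := hSP ξ h3
    have h4 : ∀ j, 2 * Real.pi * Complex.I * ν * ∑ l, (ξ l : ℂ) * Gh l j ξ =
        -(4 * Real.pi ^ 2 * ν * ((‖ξ‖ ^ 2 : ℝ) : ℂ) * V ξ j) := by
      intro j
      have h5 : ∑ l, (ξ l : ℂ) * Gh l j ξ =
          2 * Real.pi * Complex.I * ((‖ξ‖ ^ 2 : ℝ) : ℂ) * V ξ j := by
        rw [← nsq, Finset.mul_sum, Finset.sum_mul]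
        refine Finset.sum_congr rfl fun l _ => ?_
        rw [h2 l j]
        ring
      rw [h5]
      linear_combination (4 * Real.pi ^ 2 * ν * ((‖ξ‖ ^ 2 : ℝ) : ℂ) * V ξ j) * Complex.I_sq
    have h6 := alg4 (ν := ν) (F := fun j => F j ξ) (V := fun j => V ξ j) p4 (hdivV ξ)
      (by
        intro j k
        have h7 := h1 j k
        rw [h4 j, h4 k, sub_neg_eq_add, sub_neg_eq_add] at h7
        exact h7)
    have h8 := EuclideanSpace.norm_sq_eq (V ξ)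
    rw [h8]
    exact h6
  have hl2 : MemLp (fun ξ => ‖ξ‖ * ‖V ξ‖) 2 (volume : Measure E) := by
    have h1 : MemLp (fun ξ => ∑ i, ∑ j, ‖Gh i j ξ‖) 2 (volume : Measure E) :=
      memLp_finsetSum _ fun i _ => memLp_finsetSum _ fun j _ => (hG i j).norm
    refine h1.mono ((measurable_norm.mul hVm.norm).aestronglyMeasurable) ?_
    filter_upwards [hGV] with ξ h2
    have h3 : ∀ i j, ‖ξ i‖ * ‖V ξ j‖ ≤ ‖Gh i j ξ‖ := by
      intro i j
      rw [h2 i j, norm_mul, norm_mul, norm_mul, norm_mul, Complex.norm_I, Complex.norm_real,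
        Complex.norm_real, mul_one, Real.norm_of_nonneg Real.pi_nonneg]
      have h4 : 0 ≤ ‖ξ i‖ * ‖V ξ j‖ := by positivity
      have h5 : (1 : ℝ) ≤ ‖(2 : ℂ)‖ * Real.pi := by
        have := Real.pi_gt_three
        rw [Complex.norm_ofNat]
        linarith
      nlinarith
    rw [Real.norm_of_nonneg (by positivity), Real.norm_of_nonneg (by positivity)]
    calc ‖ξ‖ * ‖V ξ‖ ≤ (∑ i, ‖ξ i‖) * (∑ j, ‖V ξ j‖) :=
          mul_le_mul (normE_le_sum ξ) (norm_le_sum (V ξ)) (norm_nonneg _) (by positivity)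
      _ = ∑ i, ∑ j, ‖ξ i‖ * ‖V ξ j‖ := by rw [Finset.sum_mul_sum]
      _ ≤ ∑ i, ∑ j, ‖Gh i j ξ‖ :=
          Finset.sum_le_sum fun i _ => Finset.sum_le_sum fun j _ => h3 i j
  have hl22 : MemLp (fun ξ => ‖ξ‖ ^ 2 * ‖V ξ‖) 2 (volume : Measure E) := by
    have h1 : MemLp (fun ξ => (4 * Real.pi ^ 2 * ν)⁻¹ * ∑ j, ‖F j ξ‖) 2 (volume : Measure E) :=
      (memLp_finsetSum _ fun j _ => (hF j).norm).const_mul _
    refine h1.mono (((measurable_norm.pow_const 2).mul hVm.norm).aestronglyMeasurable) ?_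
    filter_upwards [henergy] with ξ h2
    have hc : 0 < 4 * Real.pi ^ 2 * ν := by positivity
    rw [Real.norm_of_nonneg (by positivity), Real.norm_of_nonneg (by positivity)]
    rcases eq_or_ne (V ξ) 0 with h0 | h0
    · rw [h0, norm_zero, mul_zero]; positivity
    · have h3 := congrArg norm h2
      rw [Complex.norm_real, Real.norm_eq_abs, abs_neg, abs_of_nonneg (by positivity)] at h3
      have h4 : ‖∑ j, F j ξ * conj (V ξ j)‖ ≤ (∑ j, ‖F j ξ‖) * ‖V ξ‖ := by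
        refine (norm_sum_le _ _).trans ?_
        rw [Finset.sum_mul]
        refine Finset.sum_le_sum fun j _ => ?_
        rw [norm_mul, RCLike.norm_conj]
        exact mul_le_mul_of_nonneg_left (PiLp.norm_apply_le (V ξ) j) (norm_nonneg _)
      rw [h3] at h4
      have h5 : 0 < ‖V ξ‖ := norm_pos_iff.2 h0
      have h6 : 4 * Real.pi ^ 2 * ν * (‖ξ‖ ^ 2 * ‖V ξ‖) ≤ ∑ j, ‖F j ξ‖ := by
        have : 4 * Real.pi ^ 2 * ν * (‖ξ‖ ^ 2 * ‖V ξ‖) * ‖V ξ‖ ≤ (∑ j, ‖F j ξ‖) * ‖V ξ‖ := by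
          calc _ = 4 * Real.pi ^ 2 * ν * ‖ξ‖ ^ 2 * ‖V ξ‖ ^ 2 := by ring
            _ ≤ _ := h4
        exact le_of_mul_le_mul_right this h5
      rw [← div_eq_inv_mul, le_div_iff₀ hc]
      linarith
  have hint : Integrable V (volume : Measure E) := by
    have h1 := (w_memLp.integrable_mul (hl2.add hl22) : Integrable _ (volume : Measure E))
    refine h1.mono hVm.aestronglyMeasurable ?_
    filter_upwards [hSae] with ξ h2
    obtain ⟨-, -, -, p4⟩ := hSP ξ h2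
    have h3 := w_ge (y := ‖ξ‖) (v := ‖V ξ‖) (norm_pos_iff.2 p4) (norm_nonneg _)
    refine h3.trans ((le_abs_self _).trans (le_of_eq ?_))
    rfl
  refine ⟨V, ⟨hVm, hint, hl2, hdivV, ?_⟩, ?_, henergy⟩
  · intro ξ j
    by_cases hξ : ξ ∈ S
    · obtain ⟨-, -, p3, -⟩ := hSP ξ hξ
      rw [hVS ξ hξ j, hVS (-ξ) ((hSneg ξ).2 hξ) j]
      exact alg3 p3 j
    · rw [hV0 ξ hξ j, hV0 (-ξ) (fun h => hξ ((hSneg ξ).1 h)) j, map_zero]
  · intro i j
    filter_upwards [hGV] with ξ h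
    exact h i j

end SNS
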