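import Pool.Agent.SNS.Defs

/-! SPG-COR: consequences of the spectral inequality (measure theory only). -/

open MeasureTheory Filter Topology Set
open scoped ContDiff

namespace SNS

namespace COR

variable {e : E → ℝ}

theorem ms_low (k : ℝ) : MeasurableSet {ξ : E | ‖ξ‖ < k} :=
  measurableSet_lt measurable_norm measurable_const

theorem ms_high (k : ℝ) : MeasurableSet {ξ : E | k ≤ ‖ξ‖} :=
  measurableSet_le measurable_const measurable_norm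

theorem add_eq (he : Integrable e (volume : Measure E)) (k : ℝ) :
    (∫ ξ in {ξ : E | ‖ξ‖ < k}, e ξ) + ∫ ξ in {ξ : E | k ≤ ‖ξ‖}, e ξ = ∫ ξ : E, e ξ := by
  have h := integral_add_compl (ms_low k) he
  have hc : {ξ : E | ‖ξ‖ < k}ᶜ = {ξ : E | k ≤ ‖ξ‖} := by
    ext ξ; simp
  rw [hc] at h
  exact h

theorem low_tendsto (he : Integrable e (volume : Measure E)) :
    Tendsto (fun k : ℝ => ∫ ξ in {ξ : E | ‖ξ‖ < k}, e ξ) (𝓝[>] 0) (𝓝 0) := by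
  have h : Tendsto (fun k : ℝ => ∫ ξ : E, ({ξ : E | ‖ξ‖ < k}.indicator e) ξ) (𝓝[>] 0)
      (𝓝 (∫ ξ : E, (0 : ℝ))) := by
    refine tendsto_integral_filter_of_dominated_convergence (fun ξ => ‖e ξ‖) ?_ ?_ he.norm ?_
    · exact Eventually.of_forall fun k => (he.1.indicator (ms_low k))
    · exact Eventually.of_forall fun k => Eventually.of_forall fun ξ => norm_indicator_le_norm_self _ _
    · have h0 : ∀ᵐ ξ : E, ξ ≠ 0 := (ae_iff).2 (by simp)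
      filter_upwards [h0] with ξ hξ
      have hpos : 0 < ‖ξ‖ := norm_pos_iff.2 hξ
      refine tendsto_const_nhds.congr' ?_
      have : ∀ᶠ k : ℝ in 𝓝[>] 0, k < ‖ξ‖ :=
        (eventually_lt_nhds hpos).filter_mono nhdsWithin_le_nhds
      filter_upwards [this] with k hk
      rw [indicator_of_notMem]
      simp only [mem_ofPred_eq]; linarith
  simp only [integral_zero] at h
  refine h.congr fun k => ?_
  rw [integral_indicator (ms_low k)]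

theorem high_tendsto (he : Integrable e (volume : Measure E)) :
    Tendsto (fun k : ℝ => ∫ ξ in {ξ : E | k ≤ ‖ξ‖}, e ξ) (𝓝[>] 0) (𝓝 (∫ ξ : E, e ξ)) := by
  have h := (tendsto_const_nhds (x := ∫ ξ : E, e ξ)).sub (low_tendsto he)
  rw [sub_zero] at h
  refine h.congr fun k => ?_
  have := add_eq he k
  linarith

theorem mass_integrable (he : Integrable e (volume : Measure E)) {k : ℝ} (hk : 0 < k) :
    IntegrableOn (fun ξ : E => e ξ / ‖ξ‖ ^ 2) {ξ : E | k ≤ ‖ξ‖} := by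
  have h1 : IntegrableOn (fun ξ : E => (k ^ 2)⁻¹ * ‖e ξ‖) {ξ : E | k ≤ ‖ξ‖} :=
    (he.norm.const_mul _).integrableOn
  refine h1.mono' ?_ ?_
  · exact (he.1.restrict.aemeasurable.div
      (by fun_prop : Measurable fun ξ : E => ‖ξ‖ ^ 2).aemeasurable).aestronglyMeasurable
  · refine (ae_restrict_iff' (ms_high k)).2 (Eventually.of_forall fun ξ hξ => ?_)
    have hξ' : k ≤ ‖ξ‖ := hξ
    rw [norm_div, norm_pow, norm_norm, div_eq_inv_mul]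
    gcongr

theorem mass_nonneg (h0 : ∀ ξ, 0 ≤ e ξ) (k : ℝ) :
    0 ≤ ∫ ξ in {ξ : E | k ≤ ‖ξ‖}, e ξ / ‖ξ‖ ^ 2 :=
  integral_nonneg fun ξ => div_nonneg (h0 ξ) (by positivity)

theorem low_nonneg (h0 : ∀ ξ, 0 ≤ e ξ) (k : ℝ) : 0 ≤ ∫ ξ in {ξ : E | ‖ξ‖ < k}, e ξ :=
  integral_nonneg fun ξ => h0 ξ

/-- `κ² ∫_{|ξ| ≥ κ} e/|ξ|² → 0` -/
theorem sq_mass_tendsto (he : Integrable e (volume : Measure E)) :
    Tendsto (fun k : ℝ => k ^ 2 * ∫ ξ in {ξ : E | k ≤ ‖ξ‖}, e ξ / ‖ξ‖ ^ 2) (𝓝[>] 0) (𝓝 0) := by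
  have h : Tendsto (fun k : ℝ => ∫ ξ : E, ({ξ : E | k ≤ ‖ξ‖}.indicator
      (fun ξ => k ^ 2 * (e ξ / ‖ξ‖ ^ 2))) ξ) (𝓝[>] 0) (𝓝 (∫ ξ : E, (0 : ℝ))) := by
    refine tendsto_integral_filter_of_dominated_convergence (fun ξ => ‖e ξ‖) ?_ ?_ he.norm ?_
    · refine Eventually.of_forall fun k => ?_
      refine AEStronglyMeasurable.indicator ?_ (ms_high k)
      refine AEStronglyMeasurable.const_mul ?_ _
      exact (he.1.aemeasurable.div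
        (by fun_prop : Measurable fun ξ : E => ‖ξ‖ ^ 2).aemeasurable).aestronglyMeasurable
    · filter_upwards [self_mem_nhdsWithin] with k hk
      have hk' : (0 : ℝ) < k := hk
      refine Eventually.of_forall fun ξ => ?_
      by_cases h : k ≤ ‖ξ‖
      · rw [indicator_of_mem (by exact h)]
        have hpos : 0 < ‖ξ‖ := hk'.trans_le h
        rw [norm_mul, norm_div, norm_pow, norm_pow, norm_norm, Real.norm_of_nonneg hk'.le,
          ← mul_div_assoc, div_le_iff₀ (by positivity), mul_comm]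
        gcongr
      · rw [indicator_of_notMem (by exact h), norm_zero]; positivity
    · refine Eventually.of_forall fun ξ => ?_
      have h1 : Tendsto (fun k : ℝ => k ^ 2 * (e ξ / ‖ξ‖ ^ 2)) (𝓝[>] 0) (𝓝 0) := by
        have : Tendsto (fun k : ℝ => k ^ 2 * (e ξ / ‖ξ‖ ^ 2)) (𝓝 0) (𝓝 (0 ^ 2 * (e ξ / ‖ξ‖ ^ 2))) :=
          ((continuous_pow 2).mul continuous_const).tendsto 0
        simp only [ne_eq, OfNat.ofNat_ne_zero, not_false_eq_true, zero_pow, zero_mul] at this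
        exact this.mono_left nhdsWithin_le_nhds
      rw [tendsto_zero_iff_norm_tendsto_zero] at h1 ⊢
      refine squeeze_zero (fun k => norm_nonneg _) (fun k => ?_) h1
      exact norm_indicator_le_norm_self _ _
  simp only [integral_zero] at h
  refine h.congr fun k => ?_
  rw [integral_indicator (ms_high k), integral_const_mul]

/-- the inequality (S) -/
def Ineq (c : ℝ) (e : E → ℝ) : Prop := ∀ k : ℝ, 0 < k →
  c * ∫ ξ in {ξ : E | k ≤ ‖ξ‖}, e ξ ≤ k ^ (3 / 2 : ℝ) *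
    Real.sqrt (∫ ξ in {ξ : E | ‖ξ‖ < k}, e ξ) * ∫ ξ in {ξ : E | k / 2 ≤ ‖ξ‖}, e ξ / ‖ξ‖ ^ 2

/-- If the right hand side gets arbitrarily small, then `∫ e = 0`. -/
theorem zero_of_freq {c : ℝ} (hc : 0 < c) (h0 : ∀ ξ, 0 ≤ e ξ)
    (he : Integrable e (volume : Measure E)) (hI : Ineq c e)
    (hf : ∀ θ : ℝ, 0 < θ → ∃ᶠ k : ℝ in 𝓝[>] 0, k ^ (3 / 2 : ℝ) *
      Real.sqrt (∫ ξ in {ξ : E | ‖ξ‖ < k}, e ξ) *
        ∫ ξ in {ξ : E | k / 2 ≤ ‖ξ‖}, e ξ / ‖ξ‖ ^ 2 ≤ θ) :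
    ∫ ξ : E, e ξ = 0 := by
  by_contra hne
  have hpos : 0 < ∫ ξ : E, e ξ := lt_of_le_of_ne (integral_nonneg fun ξ => h0 ξ) (Ne.symm hne)
  set M := ∫ ξ : E, e ξ with hM
  have h1 : ∀ᶠ k : ℝ in 𝓝[>] 0, M / 2 < ∫ ξ in {ξ : E | k ≤ ‖ξ‖}, e ξ :=
    (high_tendsto he).eventually (lt_mem_nhds (by linarith))
  have h2 := hf (c * M / 4) (by positivity)
  obtain ⟨k, hk1, hk2, hk3⟩ := (h2.and_eventually (h1.and self_mem_nhdsWithin)).exists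
  have hk : (0 : ℝ) < k := hk3
  have h3 := hI k hk
  have h4 : c * (M / 2) < c * ∫ ξ in {ξ : E | k ≤ ‖ξ‖}, e ξ := by gcongr
  nlinarith [mul_pos hc hpos]

theorem two_mul_map : Tendsto (fun k : ℝ => 2 * k) (𝓝[>] 0) (𝓝[>] 0) := by
  rw [tendsto_nhdsWithin_iff]
  refine ⟨?_, ?_⟩
  · have : Tendsto (fun k : ℝ => 2 * k) (𝓝 0) (𝓝 (2 * 0)) := (continuous_const_mul 2).tendsto 0
    rw [mul_zero] at this
    exact this.mono_left nhdsWithin_le_nhds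
  · filter_upwards [self_mem_nhdsWithin] with k hk
    have : (0 : ℝ) < k := hk
    simp only [mem_Ioi]; positivity

theorem half_map : Tendsto (fun k : ℝ => k / 2) (𝓝[>] 0) (𝓝[>] 0) := by
  rw [tendsto_nhdsWithin_iff]
  refine ⟨?_, ?_⟩
  · have : Tendsto (fun k : ℝ => k / 2) (𝓝 0) (𝓝 (0 / 2)) := (continuous_id.div_const 2).tendsto 0
    rw [zero_div] at this
    exact this.mono_left nhdsWithin_le_nhds
  · filter_upwards [self_mem_nhdsWithin] with k hk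
    have : (0 : ℝ) < k := hk
    simp only [mem_Ioi]; positivity

theorem sqrt_low_tendsto (he : Integrable e (volume : Measure E)) :
    Tendsto (fun k : ℝ => Real.sqrt (∫ ξ in {ξ : E | ‖ξ‖ < k}, e ξ)) (𝓝[>] 0) (𝓝 0) := by
  have h := (Real.continuous_sqrt.tendsto 0).comp (low_tendsto he)
  rwa [Real.sqrt_zero] at h

/-- a frequent bound `(2k)^{3/2} mass(k) ≤ C` suffices -/
theorem zero_of_mass {c : ℝ} (hc : 0 < c) (h0 : ∀ ξ, 0 ≤ e ξ)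
    (he : Integrable e (volume : Measure E)) (hI : Ineq c e) {C : ℝ}
    (hf : ∃ᶠ k : ℝ in 𝓝[>] 0, k ^ (3 / 2 : ℝ) * ∫ ξ in {ξ : E | k ≤ ‖ξ‖}, e ξ / ‖ξ‖ ^ 2 ≤ C) :
    ∫ ξ : E, e ξ = 0 := by
  refine zero_of_freq hc h0 he hI fun θ hθ => ?_
  have h1 : Tendsto (fun k : ℝ => (2 : ℝ) ^ (3 / 2 : ℝ) * (|C| + 1) *
      Real.sqrt (∫ ξ in {ξ : E | ‖ξ‖ < 2 * k}, e ξ)) (𝓝[>] 0) (𝓝 0) := by
    have := ((sqrt_low_tendsto he).comp two_mul_map).const_mul ((2 : ℝ) ^ (3 / 2 : ℝ) * (|C| + 1))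
    rwa [mul_zero] at this
  have h2 := h1.eventually (gt_mem_nhds hθ)
  refine two_mul_map.frequently ?_
  refine (hf.and_eventually (h2.and self_mem_nhdsWithin)).mono fun k hk => ?_
  obtain ⟨hk1, hk2, hk3⟩ := hk
  have hk : (0 : ℝ) < k := hk3
  have e1 : 2 * k / 2 = k := by ring
  rw [e1, Real.mul_rpow (by norm_num) hk.le]
  set m := ∫ ξ in {ξ : E | k ≤ ‖ξ‖}, e ξ / ‖ξ‖ ^ 2
  set s := Real.sqrt (∫ ξ in {ξ : E | ‖ξ‖ < 2 * k}, e ξ)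
  have hs : 0 ≤ s := Real.sqrt_nonneg _
  calc (2 : ℝ) ^ (3 / 2 : ℝ) * k ^ (3 / 2 : ℝ) * s * m
      = (2 : ℝ) ^ (3 / 2 : ℝ) * (k ^ (3 / 2 : ℝ) * m) * s := by ring
    _ ≤ (2 : ℝ) ^ (3 / 2 : ℝ) * (|C| + 1) * s := by
        gcongr
        exact hk1.trans ((le_abs_self C).trans (by linarith))
    _ ≤ θ := hk2.le

/-- a frequent bound `low(k) ≤ C k` suffices -/
theorem zero_of_low {c : ℝ} (hc : 0 < c) (h0 : ∀ ξ, 0 ≤ e ξ)
    (he : Integrable e (volume : Measure E)) (hI : Ineq c e) {C : ℝ}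
    (hf : ∃ᶠ k : ℝ in 𝓝[>] 0, ∫ ξ in {ξ : E | ‖ξ‖ < k}, e ξ ≤ C * k) :
    ∫ ξ : E, e ξ = 0 := by
  refine zero_of_freq hc h0 he hI fun θ hθ => ?_
  have h1 : Tendsto (fun k : ℝ => 4 * Real.sqrt (|C|) *
      ((k / 2) ^ 2 * ∫ ξ in {ξ : E | k / 2 ≤ ‖ξ‖}, e ξ / ‖ξ‖ ^ 2)) (𝓝[>] 0) (𝓝 0) := by
    have := ((sq_mass_tendsto he).comp half_map).const_mul (4 * Real.sqrt (|C|))
    rwa [mul_zero] at this
  have h2 := h1.eventually (gt_mem_nhds hθ)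
  refine (hf.and_eventually (h2.and self_mem_nhdsWithin)).mono fun k hk => ?_
  obtain ⟨hk1, hk2, hk3⟩ := hk
  have hk : (0 : ℝ) < k := hk3
  refine le_trans ?_ hk2.le
  have hm := mass_nonneg h0 (k / 2)
  set m := ∫ ξ in {ξ : E | k / 2 ≤ ‖ξ‖}, e ξ / ‖ξ‖ ^ 2
  have h3 : Real.sqrt (∫ ξ in {ξ : E | ‖ξ‖ < k}, e ξ) ≤ Real.sqrt (|C|) * Real.sqrt k := by
    rw [← Real.sqrt_mul (abs_nonneg C)]
    apply Real.sqrt_le_sqrt
    exact hk1.trans (by gcongr; exact le_abs_self C)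
  have h4 : k ^ (3 / 2 : ℝ) * Real.sqrt k = k ^ 2 := by
    rw [Real.sqrt_eq_rpow, ← Real.rpow_add hk, ← Real.rpow_natCast]
    norm_num
  calc k ^ (3 / 2 : ℝ) * Real.sqrt (∫ ξ in {ξ : E | ‖ξ‖ < k}, e ξ) * m
      ≤ k ^ (3 / 2 : ℝ) * (Real.sqrt (|C|) * Real.sqrt k) * m := by gcongr
    _ = Real.sqrt (|C|) * (k ^ (3 / 2 : ℝ) * Real.sqrt k) * m := by ring
    _ = 4 * Real.sqrt (|C|) * ((k / 2) ^ 2 * m) := by rw [h4]; ring

/-- upper bound of the mass beyond a shell where `e` vanishes -/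
theorem mass_le_of_shell (h0 : ∀ ξ, 0 ≤ e ξ) (he : Integrable e (volume : Measure E))
    {ε δ : ℝ} (hε : 0 < ε) (hδ : ε < δ)
    (hs : ∀ᵐ ξ : E, ε < ‖ξ‖ → ‖ξ‖ < δ → e ξ = 0) :
    ∫ ξ in {ξ : E | ε ≤ ‖ξ‖}, e ξ / ‖ξ‖ ^ 2 ≤
      (δ ^ 2)⁻¹ * ∫ ξ in {ξ : E | δ ≤ ‖ξ‖}, e ξ := by
  have hδ0 : 0 < δ := hε.trans hδ
  have hsph : ∀ᵐ ξ : E, ‖ξ‖ ≠ ε := by
    have h1 : (volume : Measure E) (Metric.sphere 0 ε) = 0 :=
      Measure.addHaar_sphere (volume : Measure E) 0 ε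
    rw [ae_iff]
    refine measure_mono_null (fun ξ hξ => ?_) h1
    simp only [ne_eq, not_not, mem_ofPred_eq] at hξ
    simp [hξ]
  rw [← integral_indicator (ms_high ε), ← integral_indicator (ms_high δ), ← integral_const_mul]
  refine integral_mono_ae ((mass_integrable he hε).integrable_indicator (ms_high ε))
    ((he.integrableOn.integrable_indicator (ms_high δ)).const_mul _) ?_
  filter_upwards [hs, hsph] with ξ h1 h2
  by_cases h3 : ε ≤ ‖ξ‖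
  · rw [indicator_of_mem (by exact h3)]
    have h4 : ε < ‖ξ‖ := lt_of_le_of_ne h3 (Ne.symm h2)
    by_cases h5 : δ ≤ ‖ξ‖
    · rw [indicator_of_mem (by exact h5), div_eq_inv_mul]
      have := h0 ξ
      gcongr
    · rw [h1 h4 (not_le.1 h5), indicator_of_notMem (by exact h5)]; simp
  · rw [indicator_of_notMem (by exact h3)]
    exact mul_nonneg (by positivity) (indicator_nonneg (fun ξ _ => h0 ξ) _)

/-- shells `ε < |ξ| < C ε^{3/4}` free of spectrum, `ε` arbitrarily small -/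
theorem zero_of_shells {c : ℝ} (hc : 0 < c) (h0 : ∀ ξ, 0 ≤ e ξ)
    (he : Integrable e (volume : Measure E)) (hI : Ineq c e) {C : ℝ} (hC : 0 < C)
    (hf : ∃ᶠ ε : ℝ in 𝓝[>] 0, ∀ᵐ ξ : E, ε < ‖ξ‖ → ‖ξ‖ < C * ε ^ (3 / 4 : ℝ) → e ξ = 0) :
    ∫ ξ : E, e ξ = 0 := by
  refine zero_of_mass hc h0 he hI (C := (C ^ 2)⁻¹ * ∫ ξ : E, e ξ) ?_
  have h1 : ∀ᶠ ε : ℝ in 𝓝[>] 0, ε < C * ε ^ (3 / 4 : ℝ) := by
    have h2 : Tendsto (fun ε : ℝ => ε ^ (1 / 4 : ℝ)) (𝓝[>] 0) (𝓝 0) := by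
      have h3 : Tendsto (fun ε : ℝ => ε ^ (1 / 4 : ℝ)) (𝓝 0) (𝓝 ((0 : ℝ) ^ (1 / 4 : ℝ))) :=
        (Real.continuousAt_rpow_const _ _ (Or.inr (by norm_num))).tendsto
      rw [Real.zero_rpow (by norm_num)] at h3
      exact h3.mono_left nhdsWithin_le_nhds
    filter_upwards [h2.eventually (gt_mem_nhds hC), self_mem_nhdsWithin] with ε h4 h5
    have hε : (0 : ℝ) < ε := h5
    have h6 : ε ^ (1 / 4 : ℝ) * ε ^ (3 / 4 : ℝ) = ε := by
      rw [← Real.rpow_add hε]; norm_num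
    have h7 : 0 < ε ^ (3 / 4 : ℝ) := Real.rpow_pos_of_pos hε _
    nlinarith
  refine (hf.and_eventually (h1.and self_mem_nhdsWithin)).mono fun ε hε => ?_
  obtain ⟨h2, h3, h4⟩ := hε
  have hε : (0 : ℝ) < ε := h4
  have h5 := mass_le_of_shell h0 he hε h3 h2
  have h6 : ∫ ξ in {ξ : E | C * ε ^ (3 / 4 : ℝ) ≤ ‖ξ‖}, e ξ ≤ ∫ ξ : E, e ξ :=
    setIntegral_le_integral he (Eventually.of_forall h0)
  have h7 : (0 : ℝ) < ε ^ (3 / 2 : ℝ) := Real.rpow_pos_of_pos hε _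
  have h8 : (C * ε ^ (3 / 4 : ℝ)) ^ 2 = C ^ 2 * ε ^ (3 / 2 : ℝ) := by
    rw [mul_pow, ← Real.rpow_natCast (ε ^ (3 / 4 : ℝ)), ← Real.rpow_mul hε.le]
    norm_num
  rw [h8] at h5
  calc ε ^ (3 / 2 : ℝ) * ∫ ξ in {ξ : E | ε ≤ ‖ξ‖}, e ξ / ‖ξ‖ ^ 2
      ≤ ε ^ (3 / 2 : ℝ) * ((C ^ 2 * ε ^ (3 / 2 : ℝ))⁻¹ * ∫ ξ : E, e ξ) := by
        gcongr
        exact h5.trans (by gcongr)
    _ = (C ^ 2)⁻¹ * ∫ ξ : E, e ξ := by
        field_simp

/-- one wide gap -/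
theorem gap {c : ℝ} (hc : 0 < c) (h0 : ∀ ξ, 0 ≤ e ξ)
    (he : Integrable e (volume : Measure E)) (hI : Ineq c e) {ε δ : ℝ} (hε : 0 < ε)
    (hδ : 2 * ε ≤ δ) (hs : ∀ᵐ ξ : E, ε < ‖ξ‖ → ‖ξ‖ < δ → e ξ = 0)
    (hsmall : (2 * ε) ^ (3 / 2 : ℝ) * Real.sqrt (∫ ξ in {ξ : E | ‖ξ‖ < ε}, e ξ) < c * δ ^ 2) :
    ∀ᵐ ξ : E, ε < ‖ξ‖ → e ξ = 0 := by
  have hδ0 : 0 < δ := by linarith
  have hsph : ∀ᵐ ξ : E, ‖ξ‖ ≠ ε := by
    have h1 : (volume : Measure E) (Metric.sphere 0 ε) = 0 :=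
      Measure.addHaar_sphere (volume : Measure E) 0 ε
    rw [ae_iff]
    refine measure_mono_null (fun ξ hξ => ?_) h1
    simp only [ne_eq, not_not, mem_ofPred_eq] at hξ
    simp [hξ]
  have hlow : ∫ ξ in {ξ : E | ‖ξ‖ < 2 * ε}, e ξ = ∫ ξ in {ξ : E | ‖ξ‖ < ε}, e ξ := by
    rw [← integral_indicator (ms_low _), ← integral_indicator (ms_low _)]
    refine integral_congr_ae ?_
    filter_upwards [hs, hsph] with ξ h1 h2
    by_cases h3 : ‖ξ‖ < ε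
    · have h3' : ‖ξ‖ < 2 * ε := by linarith
      rw [indicator_of_mem (by exact h3'), indicator_of_mem (by exact h3)]
    · have e2 : ({ξ : E | ‖ξ‖ < ε}.indicator e) ξ = 0 := indicator_of_notMem (by exact h3) _
      rw [e2]
      by_cases h4 : ‖ξ‖ < 2 * ε
      · rw [indicator_of_mem (by exact h4)]
        exact h1 (lt_of_le_of_ne (not_lt.1 h3) (Ne.symm h2)) (lt_of_lt_of_le h4 hδ)
      · rw [indicator_of_notMem (by exact h4)]
  have h5 := hI (2 * ε) (by positivity)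
  have e1 : 2 * ε / 2 = ε := by ring
  rw [e1, hlow] at h5
  have h6 := mass_le_of_shell h0 he hε (by linarith) hs
  set h := ∫ ξ in {ξ : E | 2 * ε ≤ ‖ξ‖}, e ξ with hh
  have h7 : ∫ ξ in {ξ : E | δ ≤ ‖ξ‖}, e ξ ≤ h := by
    refine setIntegral_mono_set he.integrableOn (Eventually.of_forall h0) ?_
    refine Eventually.of_forall fun ξ hξ => ?_
    exact hδ.trans hξ
  have hh0 : 0 ≤ h := integral_nonneg fun ξ => h0 ξ
  have h8 : c * h ≤ (2 * ε) ^ (3 / 2 : ℝ) * Real.sqrt (∫ ξ in {ξ : E | ‖ξ‖ < ε}, e ξ) *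
      ((δ ^ 2)⁻¹ * h) := by
    refine h5.trans ?_
    gcongr
    exact h6.trans (by gcongr)
  have hh1 : h = 0 := by
    by_contra hne
    have hpos : 0 < h := lt_of_le_of_ne hh0 (Ne.symm hne)
    set A := (2 * ε) ^ (3 / 2 : ℝ) * Real.sqrt (∫ ξ in {ξ : E | ‖ξ‖ < ε}, e ξ)
    have h9 : A * ((δ ^ 2)⁻¹ * h) < c * h := by
      have : A * (δ ^ 2)⁻¹ < c := by
        rw [← div_eq_mul_inv, div_lt_iff₀ (by positivity)]; exact hsmall
      calc A * ((δ ^ 2)⁻¹ * h) = (A * (δ ^ 2)⁻¹) * h := by ring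
        _ < c * h := by gcongr
    linarith
  have h10 : ∀ᵐ ξ ∂((volume : Measure E).restrict {ξ : E | 2 * ε ≤ ‖ξ‖}), e ξ = 0 := by
    have := (setIntegral_eq_zero_iff_of_nonneg_ae (Eventually.of_forall h0) he.integrableOn).1 hh1
    exact this
  rw [ae_restrict_iff' (ms_high _)] at h10
  filter_upwards [h10, hs] with ξ h11 h12 h13
  by_cases h14 : 2 * ε ≤ ‖ξ‖
  · exact h11 h14
  · exact h12 h13 (by linarith [not_le.1 h14])

end COR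

end SNS
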