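import Pool.Agent.SNS.Defs

/-! Cutoffs of a Schwartz function with a uniform square integrable bound. -/

open MeasureTheory Filter Topology Set
open scoped FourierTransform SchwartzMap ContDiff ComplexConjugate RealInnerProductSpace

namespace SNS

namespace CUT

/-- the bump function -/
noncomputable def chi : ContDiffBump (0 : E) := ⟨1, 2, one_pos, one_lt_two⟩

lemma bdd_one (i : ℕ) : ∃ C, ∀ x, ‖iteratedFDeriv ℝ i (chi : E → ℝ) x‖ ≤ C := by
  have h1 : ContDiff ℝ ∞ (chi : E → ℝ) := chi.contDiff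
  have h2 : HasCompactSupport (chi : E → ℝ) := chi.hasCompactSupport
  have h3 : Continuous (iteratedFDeriv ℝ i (chi : E → ℝ)) :=
    h1.continuous_iteratedFDeriv (by exact_mod_cast le_top)
  exact h3.bounded_above_of_compact_support (h2.iteratedFDeriv i)

lemma bdd_all : ∃ M : ℝ, 0 ≤ M ∧
    ∀ i, i ≤ 2 → ∀ x, ‖iteratedFDeriv ℝ i (chi : E → ℝ) x‖ ≤ M := by
  choose C hC using bdd_one
  refine ⟨|C 0| + |C 1| + |C 2|, by positivity, ?_⟩
  intro i hi x
  have h := hC i x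
  interval_cases i
  · have := le_abs_self (C 0)
    have := abs_nonneg (C 1)
    have := abs_nonneg (C 2)
    linarith
  · have := le_abs_self (C 1)
    have := abs_nonneg (C 0)
    have := abs_nonneg (C 2)
    linarith
  · have := le_abs_self (C 2)
    have := abs_nonneg (C 1)
    have := abs_nonneg (C 0)
    linarith

/-- the scaled bump -/
noncomputable def chiS (r : ℝ) : E → ℝ := fun x => chi (r • x)

lemma chiS_contDiff (r : ℝ) : ContDiff ℝ ∞ (chiS r) := by
  have h : ContDiff ℝ ∞ (chi : E → ℝ) := chi.contDiff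
  exact h.comp (contDiff_const_smul r)

lemma chiS_bound {M : ℝ} (hM : 0 ≤ M)
    (h : ∀ i, i ≤ 2 → ∀ x, ‖iteratedFDeriv ℝ i (chi : E → ℝ) x‖ ≤ M)
    {r : ℝ} (hr : |r| ≤ 1) (i : ℕ) (hi : i ≤ 2) (x : E) :
    ‖iteratedFDeriv ℝ i (chiS r) x‖ ≤ M := by
  have hfun : chiS r = (chi : E → ℝ) ∘ (r • ContinuousLinearMap.id ℝ E : E →L[ℝ] E) := by
    ext y
    simp [chiS]
  have hc : ContDiff ℝ ∞ (chi : E → ℝ) := chi.contDiff
  rw [hfun, ContinuousLinearMap.iteratedFDeriv_comp_right _ hc x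
    (i := i) (by exact_mod_cast le_top)]
  refine (ContinuousMultilinearMap.norm_compContinuousLinearMap_le _ _).trans ?_
  have h1 : ‖(r • ContinuousLinearMap.id ℝ E : E →L[ℝ] E)‖ ≤ 1 := by
    rw [norm_smul, Real.norm_eq_abs]
    calc |r| * ‖ContinuousLinearMap.id ℝ E‖ ≤ 1 * 1 :=
          mul_le_mul hr ContinuousLinearMap.norm_id_le (norm_nonneg _) zero_le_one
      _ = 1 := one_mul 1
  have h2 : ∏ _j : Fin i, ‖(r • ContinuousLinearMap.id ℝ E : E →L[ℝ] E)‖ ≤ 1 :=
    Finset.prod_le_one (fun _ _ => norm_nonneg _) (fun _ _ => h1)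
  calc _ ≤ M * 1 := mul_le_mul (h i hi _) h2
        (Finset.prod_nonneg fun _ _ => norm_nonneg _) hM
    _ = M := mul_one M

end CUT

open CUT

theorem exists_cutoff (φ : 𝓢(E, ℂ)) : ∃ φn : ℕ → E → ℂ, ∃ B : E → ℝ,
    (∀ n, ContDiff ℝ ∞ (φn n)) ∧ (∀ n, HasCompactSupport (φn n)) ∧
    MemLp B 2 (volume : Measure E) ∧
    (∀ n x, ‖φn n x‖ ≤ B x) ∧ (∀ n x a, ‖Dc a (φn n) x‖ ≤ ‖a‖ * B x) ∧
    (∀ n x a b, ‖Dc a (Dc b (φn n)) x‖ ≤ ‖a‖ * ‖b‖ * B x) ∧
    (∀ x, ∀ᶠ n in atTop, φn n =ᶠ[𝓝 x] φ) := by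
  obtain ⟨M, hM, hb⟩ := bdd_all
  set r : ℕ → ℝ := fun n => 1 / ((n : ℝ) + 1) with hr
  have hrpos : ∀ n, 0 < r n := fun n => by
    simp only [hr]; positivity
  have hr1 : ∀ n, |r n| ≤ 1 := fun n => by
    rw [abs_of_pos (hrpos n)]
    simp only [hr]
    rw [div_le_one (by positivity)]
    have : (0 : ℝ) ≤ n := Nat.cast_nonneg n
    linarith
  set φn : ℕ → E → ℂ := fun n x => chiS (r n) x • φ x with hφn
  have hφc : ContDiff ℝ ∞ (φ : E → ℂ) := φ.smooth ⊤
  have hcd : ∀ n, ContDiff ℝ ∞ (φn n) := fun n => (chiS_contDiff (r n)).smul hφc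
  set B : E → ℝ := fun x => 4 * M * (‖φ x‖ + ‖fderiv ℝ φ x‖ + ‖fderiv ℝ (fderiv ℝ φ) x‖)
    with hB
  have hφ0 : ∀ x, ‖iteratedFDeriv ℝ 0 (φ : E → ℂ) x‖ = ‖φ x‖ := fun x =>
    norm_iteratedFDeriv_zero
  have hφ1 : ∀ x, ‖iteratedFDeriv ℝ 1 (φ : E → ℂ) x‖ = ‖fderiv ℝ φ x‖ := fun x =>
    norm_iteratedFDeriv_one _
  have hφ2 : ∀ x, ‖iteratedFDeriv ℝ 2 (φ : E → ℂ) x‖ = ‖fderiv ℝ (fderiv ℝ φ) x‖ :=
    fun x => by
      rw [← norm_iteratedFDeriv_fderiv, norm_iteratedFDeriv_one]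
  have key : ∀ n x (k : ℕ), k ≤ 2 → ‖iteratedFDeriv ℝ k (φn n) x‖ ≤ B x := by
    intro n x k hk
    have h1 := norm_iteratedFDeriv_smul_le (chiS_contDiff (r n)) hφc x (n := k)
      (by exact_mod_cast le_top)
    refine h1.trans ?_
    have c0 := chiS_bound hM hb (hr1 n) 0 (by norm_num) x
    have c1 := chiS_bound hM hb (hr1 n) 1 (by norm_num) x
    have c2 := chiS_bound hM hb (hr1 n) 2 (by norm_num) x
    have n0 := norm_nonneg (φ x)
    have n1 := norm_nonneg (fderiv ℝ φ x)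
    have n2 := norm_nonneg (fderiv ℝ (fderiv ℝ φ) x)
    have m0 := mul_nonneg hM n0
    have m1 := mul_nonneg hM n1
    have m2 := mul_nonneg hM n2
    interval_cases k
    · simp only [Finset.sum_range_succ, Finset.sum_range_zero, hB]
      have e0 := mul_le_mul_of_nonneg_right c0 n0
      simp only [Nat.choose_self, Nat.cast_one, one_mul, Nat.sub_zero, hφ0, zero_add]
      nlinarith
    · simp only [Finset.sum_range_succ, Finset.sum_range_zero, hB]
      have e0 := mul_le_mul_of_nonneg_right c0 n1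
      have e1 := mul_le_mul_of_nonneg_right c1 n0
      simp only [Nat.choose_zero_right, Nat.choose_self, Nat.cast_one, one_mul, Nat.sub_zero,
        hφ0, hφ1, zero_add]
      nlinarith
    · simp only [Finset.sum_range_succ, Finset.sum_range_zero, hB]
      have e0 := mul_le_mul_of_nonneg_right c0 n2
      have e1 := mul_le_mul_of_nonneg_right c1 n1
      have e2 := mul_le_mul_of_nonneg_right c2 n0
      simp only [Nat.choose_zero_right, Nat.choose_self, Nat.cast_one, one_mul, Nat.sub_zero,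
        hφ0, hφ1, hφ2, zero_add, Nat.choose_one_right, Nat.cast_ofNat]
      nlinarith
  refine ⟨φn, B, hcd, ?_, ?_, ?_, ?_, ?_, ?_⟩
  · intro n
    have hs : HasCompactSupport (chiS (r n)) := by
      have h : HasCompactSupport (chi : E → ℝ) := chi.hasCompactSupport
      exact h.comp_homeomorph (Homeomorph.smulOfNeZero (r n) (hrpos n).ne')
    exact hs.smul_right
  · have g0 := (φ.memLp 2 (volume : Measure E)).norm
    have g1 := ((SchwartzMap.fderivCLM ℝ E ℂ φ).memLp 2 (volume : Measure E)).norm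
    have g2 := ((SchwartzMap.fderivCLM ℝ E (E →L[ℝ] ℂ)
      (SchwartzMap.fderivCLM ℝ E ℂ φ)).memLp 2 (volume : Measure E)).norm
    have := ((g0.add g1).add g2).const_mul (4 * M)
    exact this
  · intro n x
    have := key n x 0 (by norm_num)
    rwa [norm_iteratedFDeriv_zero] at this
  · intro n x a
    have := key n x 1 (by norm_num)
    rw [norm_iteratedFDeriv_one] at this
    unfold Dc
    calc ‖fderiv ℝ (φn n) x a‖ ≤ ‖fderiv ℝ (φn n) x‖ * ‖a‖ := ContinuousLinearMap.le_opNorm _ _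
      _ ≤ B x * ‖a‖ := by gcongr
      _ = ‖a‖ * B x := mul_comm _ _
  · intro n x a b
    have := key n x 2 (by norm_num)
    rw [← norm_iteratedFDeriv_fderiv, norm_iteratedFDeriv_one] at this
    have hd : DifferentiableAt ℝ (fderiv ℝ (φn n)) x := by
      have h2 : ContDiff ℝ 1 (fderiv ℝ (φn n)) :=
        (contDiff_infty.1 (hcd n) 2).fderiv_right (by norm_num)
      exact (h2.differentiable (by norm_num)) x
    have e : Dc a (Dc b (φn n)) x = fderiv ℝ (fderiv ℝ (φn n)) x a b := by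
      unfold Dc
      rw [fderiv_clm_apply hd (differentiableAt_const b)]
      simp
    rw [e]
    calc ‖fderiv ℝ (fderiv ℝ (φn n)) x a b‖ ≤ ‖fderiv ℝ (fderiv ℝ (φn n)) x a‖ * ‖b‖ :=
          ContinuousLinearMap.le_opNorm _ _
      _ ≤ ‖fderiv ℝ (fderiv ℝ (φn n)) x‖ * ‖a‖ * ‖b‖ := by
          gcongr; exact ContinuousLinearMap.le_opNorm _ _
      _ ≤ B x * ‖a‖ * ‖b‖ := by gcongr
      _ = ‖a‖ * ‖b‖ * B x := by ring
  · intro x
    obtain ⟨N, hN⟩ := exists_nat_gt ‖x‖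
    filter_upwards [eventually_ge_atTop N] with n hn
    have h1 : ‖x‖ < (n : ℝ) + 1 := by
      have : (N : ℝ) ≤ n := by exact_mod_cast hn
      linarith
    have h2 : ∀ᶠ y in 𝓝 x, ‖y‖ < (n : ℝ) + 1 :=
      continuous_norm.continuousAt.eventually_lt continuousAt_const h1
    filter_upwards [h2] with y hy
    have h3 : chi (r n • y) = 1 := by
      apply chi.one_of_mem_closedBall
      rw [mem_closedBall_zero_iff, norm_smul, Real.norm_eq_abs, abs_of_pos (hrpos n)]
      show r n * ‖y‖ ≤ 1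
      simp only [hr]
      rw [one_div, inv_mul_le_one₀ (by positivity)]
      exact hy.le
    simp only [hφn, chiS, h3, one_smul]

end SNS
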