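import Mathlib

/-! Shared definitions for the SPG library (spectral inequality for D-solutions). -/

open MeasureTheory Filter Topology Set
open scoped FourierTransform SchwartzMap ContDiff ComplexConjugate RealInnerProductSpace

namespace SNS

/-- Euclidean three space -/
abbrev E := EuclideanSpace ℝ (Fin 3)

/-- complex three space with its Hermitian norm -/
abbrev C3 := EuclideanSpace ℂ (Fin 3)

/-- coordinate vectors -/
noncomputable def bb (j : Fin 3) : E := EuclideanSpace.single j (1 : ℝ)

/-- derivative of a complex function in the direction `a` -/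
noncomputable def Dc (a : E) (φ : E → ℂ) : E → ℂ := fun x => fderiv ℝ φ x a

/-- `∂_j` of a real function -/
noncomputable def pd (j : Fin 3) (f : E → ℝ) : E → ℝ :=
  fun x => fderiv ℝ f x (EuclideanSpace.single j (1 : ℝ))

/-- steady Navier-Stokes system -/
structure SteadyNS (ν : ℝ) (v : E → E) (p : E → ℝ) : Prop where
  divFree : ∀ x, ∑ j, pd j (fun y => v y j) x = 0
  momentum : ∀ x i, -ν * ∑ j, pd j (pd j (fun y => v y i)) x +
    ∑ j, v x j * pd j (fun y => v y i) x + pd i p x = 0

/-- `h` is the `L²` Fourier transform of `g`, tested against Schwartz functions -/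
structure IsFT (g h : E → ℂ) : Prop where
  memg : MemLp g 2 (volume : Measure E)
  memh : MemLp h 2 (volume : Measure E)
  test : ∀ ψ : 𝓢(E, ℂ), ∫ ξ : E, h ξ * ψ ξ = ∫ x : E, g x * (𝓕 ψ : 𝓢(E, ℂ)) x

/-- `ζ · w` (bilinear) -/
noncomputable def dot (ζ : E) (w : C3) : ℂ := ∑ i, (ζ i : ℂ) * w i

/-- a good velocity spectrum -/
structure Good (V : E → C3) : Prop where
  meas : Measurable V
  int : Integrable V (volume : Measure E)
  l2 : MemLp (fun ξ => ‖ξ‖ * ‖V ξ‖) 2 (volume : Measure E)
  div : ∀ ξ, dot ξ (V ξ) = 0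
  real : ∀ ξ j, V (-ξ) j = conj (V ξ j)

end SNS
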