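import Pool.Agent.SNS.LOW

/-! SPG-EST: the estimate of the trilinear flux. -/

open MeasureTheory Filter Topology Set
open scoped FourierTransform SchwartzMap ContDiff ComplexConjugate RealInnerProductSpace

namespace SNS

namespace EST

theorem auto_le {a : E → ENNReal} (ha : Measurable a) (η : E) :
    ∫⁻ ζ : E, a ζ * a (η + ζ) ≤ ∫⁻ ξ : E, a ξ ^ 2 := by
  have h := LOW.cs (f := a) (g := fun ζ => a (η + ζ)) ha (ha.comp (measurable_const_add η)) univ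
  simp only [Measure.restrict_univ] at h
  have e : ∫⁻ ζ : E, a (η + ζ) ^ 2 = ∫⁻ ξ : E, a ξ ^ 2 :=
    lintegral_add_left_eq_self (fun ξ => a ξ ^ 2) η
  rw [e, ← ENNReal.rpow_add_of_nonneg _ _ (by norm_num) (by norm_num)] at h
  norm_num at h
  exact h

theorem tri {a b : E → ENNReal} (ha : Measurable a) (hb : Measurable b) :
    ∫⁻ η : E, ∫⁻ ζ : E, b η * (a ζ * a (η + ζ)) ≤ (∫⁻ ξ : E, b ξ) * ∫⁻ ξ : E, a ξ ^ 2 := by
  calc ∫⁻ η : E, ∫⁻ ζ : E, b η * (a ζ * a (η + ζ))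
      = ∫⁻ η : E, b η * ∫⁻ ζ : E, a ζ * a (η + ζ) := by
        refine lintegral_congr fun η => ?_
        have hm : Measurable (fun ζ : E => a ζ * a (η + ζ)) :=
          ha.mul (ha.comp (measurable_const_add η))
        rw [lintegral_const_mul _ hm]
    _ ≤ ∫⁻ η : E, b η * ∫⁻ ξ : E, a ξ ^ 2 :=
        lintegral_mono fun η => mul_le_mul_right (auto_le ha η) _
    _ = _ := lintegral_mul_const _ hb

end EST

theorem estimate {V : E → C3} (hV : Measurable V) {k : ℝ} (hk : 0 < k) :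
    ∫⁻ η : E, ∫⁻ ζ : E, (if k ≤ ‖η + ζ‖ ∧ ‖ζ‖ < k then
      ‖ζ‖ₑ * ‖V η‖ₑ * ‖V ζ‖ₑ * ‖V (η + ζ)‖ₑ else 0) ≤
    ENNReal.ofReal (2 * Real.pi * k ^ (3 / 2 : ℝ)) *
      (∫⁻ ξ in {ξ : E | ‖ξ‖ < k}, ‖ξ‖ₑ ^ 2 * ‖V ξ‖ₑ ^ 2) ^ (1 / 2 : ℝ) *
      ∫⁻ ξ in {ξ : E | k / 2 ≤ ‖ξ‖}, ‖V ξ‖ₑ ^ 2 := by
  have hm1 : MeasurableSet {ξ : E | ‖ξ‖ < k} := measurableSet_lt measurable_norm measurable_const
  have hm2 : MeasurableSet {ξ : E | ‖ξ‖ < k / 2} :=
    measurableSet_lt measurable_norm measurable_const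
  have hm3 : MeasurableSet {ξ : E | k / 2 ≤ ‖ξ‖} :=
    measurableSet_le measurable_const measurable_norm
  set a : E → ENNReal := {ξ : E | k / 2 ≤ ‖ξ‖}.indicator (fun ξ => ‖V ξ‖ₑ) with ha
  set b : E → ENNReal := {ξ : E | ‖ξ‖ < k}.indicator (fun ξ => ‖ξ‖ₑ * ‖V ξ‖ₑ) with hb
  set c : E → ENNReal := {ξ : E | ‖ξ‖ < k / 2}.indicator (fun ξ => ‖V ξ‖ₑ) with hc
  have ham : Measurable a := hV.enorm.indicator hm3
  have hbm : Measurable b := (measurable_enorm.mul hV.enorm).indicator hm1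
  have hcm : Measurable c := hV.enorm.indicator hm2
  set L : ENNReal := (∫⁻ ξ in {ξ : E | ‖ξ‖ < k}, ‖ξ‖ₑ ^ 2 * ‖V ξ‖ₑ ^ 2) ^ (1 / 2 : ℝ) with hL
  set H : ENNReal := ∫⁻ ξ in {ξ : E | k / 2 ≤ ‖ξ‖}, ‖V ξ‖ₑ ^ 2 with hH
  have eH : ∫⁻ ξ : E, a ξ ^ 2 = H := by
    rw [hH, ← lintegral_indicator hm3]
    refine lintegral_congr fun ξ => ?_
    rw [ha]
    by_cases h : ξ ∈ {ξ : E | k / 2 ≤ ‖ξ‖}
    · rw [indicator_of_mem h, indicator_of_mem h]
    · rw [indicator_of_notMem h, indicator_of_notMem h]; simp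
  have hB : ∫⁻ ξ : E, b ξ ≤ ENNReal.ofReal (Real.sqrt (4 * Real.pi / 3) * k ^ (3 / 2 : ℝ)) * L := by
    rw [hb, lintegral_indicator hm1]
    exact low_one hV hk
  have hC : ∫⁻ ξ : E, c ξ ≤
      ENNReal.ofReal (Real.sqrt (4 * Real.pi) * (k / 2) ^ (1 / 2 : ℝ)) * L := by
    rw [hc, lintegral_indicator hm2]
    refine (low_two hV (k := k / 2) (by positivity)).trans ?_
    have hmono : ∫⁻ ξ in {ξ : E | ‖ξ‖ < k / 2}, ‖ξ‖ₑ ^ 2 * ‖V ξ‖ₑ ^ 2 ≤
        ∫⁻ ξ in {ξ : E | ‖ξ‖ < k}, ‖ξ‖ₑ ^ 2 * ‖V ξ‖ₑ ^ 2 := by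
      refine lintegral_mono_set fun ξ hξ => ?_
      simp only [mem_ofPred_eq] at hξ ⊢
      linarith
    rw [hL]
    gcongr
  have hpt : ∀ η ζ : E, (if k ≤ ‖η + ζ‖ ∧ ‖ζ‖ < k then
      ‖ζ‖ₑ * ‖V η‖ₑ * ‖V ζ‖ₑ * ‖V (η + ζ)‖ₑ else 0) ≤
      b ζ * (a η * a (ζ + η)) + ENNReal.ofReal k * (c η * (a ζ * a (η + ζ))) := by
    intro η ζ
    split_ifs with h
    · obtain ⟨h1, h2⟩ := h
      have h3 : k ≤ ‖η‖ + ‖ζ‖ := h1.trans (norm_add_le _ _)
      have hτ : a (η + ζ) = ‖V (η + ζ)‖ₑ := by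
        rw [ha, indicator_of_mem]
        simp only [mem_ofPred_eq]; linarith
      by_cases hη : k / 2 ≤ ‖η‖
      · refine le_trans (le_of_eq ?_) le_self_add
        rw [add_comm ζ η, hτ]
        have e1 : a η = ‖V η‖ₑ := by rw [ha, indicator_of_mem (by exact hη)]
        have e2 : b ζ = ‖ζ‖ₑ * ‖V ζ‖ₑ := by rw [hb, indicator_of_mem (by exact h2)]
        rw [e1, e2]
        ring
      · refine le_trans ?_ le_add_self
        have hη' : ‖η‖ < k / 2 := not_le.1 hη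
        have hζ : k / 2 ≤ ‖ζ‖ := by linarith
        have e1 : c η = ‖V η‖ₑ := by rw [hc, indicator_of_mem (by exact hη')]
        have e2 : a ζ = ‖V ζ‖ₑ := by rw [ha, indicator_of_mem (by exact hζ)]
        rw [hτ, e1, e2]
        have e3 : ‖ζ‖ₑ ≤ ENNReal.ofReal k := by
          rw [← ofReal_norm (x := ζ)]
          exact ENNReal.ofReal_le_ofReal h2.le
        calc ‖ζ‖ₑ * ‖V η‖ₑ * ‖V ζ‖ₑ * ‖V (η + ζ)‖ₑ
            = ‖ζ‖ₑ * (‖V η‖ₑ * (‖V ζ‖ₑ * ‖V (η + ζ)‖ₑ)) := by ring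
          _ ≤ _ := by gcongr
    · exact zero_le
  have hswap : ∫⁻ η : E, ∫⁻ ζ : E, b ζ * (a η * a (ζ + η)) =
      ∫⁻ ζ : E, ∫⁻ η : E, b ζ * (a η * a (ζ + η)) := by
    refine lintegral_lintegral_swap ?_
    refine Measurable.aemeasurable ?_
    exact (hbm.comp measurable_snd).mul ((ham.comp measurable_fst).mul
      (ham.comp (measurable_snd.add measurable_fst)))
  calc ∫⁻ η : E, ∫⁻ ζ : E, (if k ≤ ‖η + ζ‖ ∧ ‖ζ‖ < k then
        ‖ζ‖ₑ * ‖V η‖ₑ * ‖V ζ‖ₑ * ‖V (η + ζ)‖ₑ else 0)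
      ≤ ∫⁻ η : E, ∫⁻ ζ : E, (b ζ * (a η * a (ζ + η)) +
          ENNReal.ofReal k * (c η * (a ζ * a (η + ζ)))) := by
        gcongr with η ζ
        exact hpt η ζ
    _ = (∫⁻ η : E, ∫⁻ ζ : E, b ζ * (a η * a (ζ + η))) +
          ENNReal.ofReal k * ∫⁻ η : E, ∫⁻ ζ : E, c η * (a ζ * a (η + ζ)) := by
        have e1 : ∀ η : E, ∫⁻ ζ : E, (b ζ * (a η * a (ζ + η)) +
            ENNReal.ofReal k * (c η * (a ζ * a (η + ζ)))) =
            (∫⁻ ζ : E, b ζ * (a η * a (ζ + η))) +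
              ENNReal.ofReal k * ∫⁻ ζ : E, c η * (a ζ * a (η + ζ)) := by
          intro η
          have hm : Measurable (fun ζ : E => b ζ * (a η * a (ζ + η))) :=
            hbm.mul (measurable_const.mul (ham.comp (measurable_add_const η)))
          rw [lintegral_add_left hm, lintegral_const_mul' _ _ ENNReal.ofReal_ne_top]
        simp_rw [e1]
        rw [lintegral_add_left, lintegral_const_mul' _ _ ENNReal.ofReal_ne_top]
        refine Measurable.lintegral_prod_right ?_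
        exact (hbm.comp measurable_snd).mul ((ham.comp measurable_fst).mul
          (ham.comp (measurable_snd.add measurable_fst)))
    _ ≤ (ENNReal.ofReal (Real.sqrt (4 * Real.pi / 3) * k ^ (3 / 2 : ℝ)) * L) * H +
          ENNReal.ofReal k * ((ENNReal.ofReal (Real.sqrt (4 * Real.pi) *
            (k / 2) ^ (1 / 2 : ℝ)) * L) * H) := by
        rw [hswap]
        gcongr
        · refine (EST.tri ham hbm).trans ?_
          rw [eH]
          gcongr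
        · refine (EST.tri ham hcm).trans ?_
          rw [eH]
          gcongr
    _ = (ENNReal.ofReal (Real.sqrt (4 * Real.pi / 3) * k ^ (3 / 2 : ℝ)) +
          ENNReal.ofReal k * ENNReal.ofReal (Real.sqrt (4 * Real.pi) *
            (k / 2) ^ (1 / 2 : ℝ))) * L * H := by ring
    _ ≤ ENNReal.ofReal (2 * Real.pi * k ^ (3 / 2 : ℝ)) * L * H := by
        gcongr
        rw [← ENNReal.ofReal_mul hk.le, ← ENNReal.ofReal_add (by positivity) (by positivity)]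
        apply ENNReal.ofReal_le_ofReal
        have hpi1 : Real.pi < 3.15 := Real.pi_lt_d2
        have hpi2 : (3 : ℝ) < Real.pi := Real.pi_gt_three
        have h1 : Real.sqrt (4 * Real.pi / 3) ≤ 2.1 := by
          rw [Real.sqrt_le_left (by norm_num)]
          norm_num at hpi1 ⊢
          linarith
        have h2 : Real.sqrt (4 * Real.pi) * (k / 2) ^ (1 / 2 : ℝ) =
            Real.sqrt (2 * Real.pi) * k ^ (1 / 2 : ℝ) := by
          rw [← Real.sqrt_eq_rpow, ← Real.sqrt_eq_rpow, ← Real.sqrt_mul (by positivity),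
            ← Real.sqrt_mul (by positivity)]
          congr 1
          ring
        have h3 : Real.sqrt (2 * Real.pi) ≤ 2.6 := by
          rw [Real.sqrt_le_left (by norm_num)]
          norm_num at hpi1 ⊢
          linarith
        have h4 : k * k ^ (1 / 2 : ℝ) = k ^ (3 / 2 : ℝ) := by
          nth_rewrite 1 [← Real.rpow_one k]
          rw [← Real.rpow_add hk]
          norm_num
        have h5 : 0 < k ^ (3 / 2 : ℝ) := Real.rpow_pos_of_pos hk _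
        rw [h2]
        calc Real.sqrt (4 * Real.pi / 3) * k ^ (3 / 2 : ℝ) +
              k * (Real.sqrt (2 * Real.pi) * k ^ (1 / 2 : ℝ))
            = Real.sqrt (4 * Real.pi / 3) * k ^ (3 / 2 : ℝ) +
              Real.sqrt (2 * Real.pi) * (k * k ^ (1 / 2 : ℝ)) := by ring
          _ = (Real.sqrt (4 * Real.pi / 3) + Real.sqrt (2 * Real.pi)) * k ^ (3 / 2 : ℝ) := by
              rw [h4]; ring
          _ ≤ (2.1 + 2.6) * k ^ (3 / 2 : ℝ) := by gcongr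
          _ ≤ 2 * Real.pi * k ^ (3 / 2 : ℝ) := by
              gcongr
              norm_num
              linarith

end SNS
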