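import Pool.Agent.SNS.PIN

/-! SPG-FLX: the symmetrised flux. -/

open MeasureTheory Filter Topology Set
open scoped FourierTransform SchwartzMap ContDiff ComplexConjugate RealInnerProductSpace

namespace SNS

namespace FLX

theorem norm_dot_le (ζ : E) (w : C3) : ‖dot ζ w‖ ≤ ‖ζ‖ * ‖w‖ := by
  set z : C3 := WithLp.toLp 2 (fun j => (ζ j : ℂ)) with hz
  have h1 : dot ζ w = inner ℂ z w := by
    rw [PiLp.inner_apply]
    refine Finset.sum_congr rfl fun i _ => ?_
    simp [hz, mul_comm]
  have h2 : ‖z‖ = ‖ζ‖ := by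
    rw [EuclideanSpace.norm_eq, EuclideanSpace.norm_eq]
    congr 1
    refine Finset.sum_congr rfl fun i _ => ?_
    simp [hz]
  rw [h1, ← h2]
  exact norm_inner_le_norm z w

theorem dot_measurable : Measurable (fun p : E × C3 => dot p.1 p.2) := by
  unfold dot
  fun_prop

/-- the trilinear integrand -/
noncomputable def T (V : E → C3) (q : E × E) : ℂ :=
  dot q.2 (V q.1) * inner ℂ (V (q.1 + q.2)) (V q.2)

/-- the symmetry -/
def Φ (q : E × E) : E × E := (q.1, -q.1 - q.2)

theorem mpΦ : MeasurePreserving Φ ((volume : Measure E).prod (volume : Measure E))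
    ((volume : Measure E).prod (volume : Measure E)) := by
  have h := MeasurePreserving.skew_product (μa := (volume : Measure E)) (μb := (volume : Measure E))
    (μc := (volume : Measure E)) (μd := (volume : Measure E)) (f := id)
    (MeasurePreserving.id _) (g := fun η ζ : E => -η - ζ) (by fun_prop)
    (Eventually.of_forall fun η =>
      (Measure.measurePreserving_sub_left (volume : Measure E) (-η)).map_eq)
  exact h

theorem T_meas {V : E → C3} (hV : Measurable V) : Measurable (T V) := by
  unfold T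
  refine Measurable.mul ?_ ?_
  · exact dot_measurable.comp (measurable_snd.prodMk (hV.comp measurable_fst))
  · exact Measurable.inner (hV.comp (measurable_fst.add measurable_snd)) (hV.comp measurable_snd)

theorem T_symm {V : E → C3} (hV : Good V) (q : E × E) : T V (Φ q) = - T V q := by
  obtain ⟨η, ζ⟩ := q
  unfold T Φ
  simp only
  have e1 : η + (-η - ζ) = -ζ := by abel
  have e2 : -η - ζ = -(η + ζ) := by abel
  have h1 : dot (-η - ζ) (V η) = - dot ζ (V η) := by
    have h0 := hV.div η
    have : dot (-η - ζ) (V η) = - dot η (V η) - dot ζ (V η) := by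
      unfold dot
      rw [← Finset.sum_neg_distrib, ← Finset.sum_sub_distrib]
      refine Finset.sum_congr rfl fun i _ => ?_
      simp only [PiLp.sub_apply, PiLp.neg_apply]
      push_cast
      ring
    rw [this, h0]
    ring
  have h2 : inner ℂ (V (-ζ)) (V (-(η + ζ))) = inner ℂ (V (η + ζ)) (V ζ) := by
    rw [PiLp.inner_apply, PiLp.inner_apply]
    refine Finset.sum_congr rfl fun i _ => ?_
    rw [hV.real, hV.real]
    simp [mul_comm]
  rw [e1, h1, e2, h2]
  ring

theorem norm_T_le (V : E → C3) (q : E × E) :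
    ‖T V q‖ ≤ ‖V q.1‖ * (‖q.2‖ * ‖V q.2‖) * ‖V (q.1 + q.2)‖ := by
  unfold T
  rw [norm_mul]
  calc ‖dot q.2 (V q.1)‖ * ‖inner ℂ (V (q.1 + q.2)) (V q.2)‖
      ≤ (‖q.2‖ * ‖V q.1‖) * (‖V (q.1 + q.2)‖ * ‖V q.2‖) := by
        gcongr
        · exact norm_dot_le _ _
        · exact norm_inner_le_norm _ _
    _ = _ := by ring

end FLX

open FLX in
theorem flux {V : E → C3} (hV : Good V) {k : ℝ} (hk : 0 < k) :
    ENNReal.ofReal ‖∫ η : E, ∫ ζ : E,
      (if k ≤ ‖η + ζ‖ then dot ζ (V η) * inner ℂ (V (η + ζ)) (V ζ) else 0)‖ ≤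
    ∫⁻ η : E, ∫⁻ ζ : E, (if k ≤ ‖η + ζ‖ ∧ ‖ζ‖ < k then
      ‖ζ‖ₑ * ‖V η‖ₑ * ‖V ζ‖ₑ * ‖V (η + ζ)‖ₑ else 0) := by
  set P : E × E → ℂ := fun q => if k ≤ ‖q.1 + q.2‖ then T V q else 0 with hP
  set Q : E × E → ℂ := fun q => if k ≤ ‖q.2‖ then T V q else 0 with hQ
  set R : E × E → ENNReal := fun q => if k ≤ ‖q.1 + q.2‖ ∧ ‖q.2‖ < k then
      ‖q.2‖ₑ * ‖V q.1‖ₑ * ‖V q.2‖ₑ * ‖V (q.1 + q.2)‖ₑ else 0 with hR
  set S : E × E → ENNReal := fun q => if k ≤ ‖q.2‖ ∧ ‖q.1 + q.2‖ < k then ‖T V q‖ₑ else 0 with hS
  have hVm := hV.meas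
  have hTm := T_meas hVm
  have hs1 : MeasurableSet {q : E × E | k ≤ ‖q.1 + q.2‖} :=
    measurableSet_le measurable_const (measurable_fst.add measurable_snd).norm
  have hs2 : MeasurableSet {q : E × E | k ≤ ‖q.2‖} :=
    measurableSet_le measurable_const measurable_snd.norm
  have hs3 : MeasurableSet {q : E × E | ‖q.2‖ < k} :=
    measurableSet_lt measurable_snd.norm measurable_const
  have hs4 : MeasurableSet {q : E × E | ‖q.1 + q.2‖ < k} :=
    measurableSet_lt (measurable_fst.add measurable_snd).norm measurable_const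
  have hPm : Measurable P := Measurable.ite hs1 hTm measurable_const
  have hRm : Measurable R := by
    refine Measurable.ite (hs1.inter hs3) ?_ measurable_const
    exact ((measurable_snd.enorm.mul (hVm.comp measurable_fst).enorm).mul
      (hVm.comp measurable_snd).enorm).mul (hVm.comp (measurable_fst.add measurable_snd)).enorm
  have hSm : Measurable S := Measurable.ite (hs2.inter hs4) hTm.enorm measurable_const
  -- integrability of P
  have hint : Integrable P ((volume : Measure E).prod (volume : Measure E)) := by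
    have h1 : Integrable (fun η : E => ((‖V η‖ : ℝ) : ℂ)) (volume : Measure E) :=
      hV.int.norm.ofReal
    have h2 : MemLp (fun ζ : E => ((‖ζ‖ * ‖V ζ‖ : ℝ) : ℂ)) 2 (volume : Measure E) := hV.l2.ofReal
    have h3 : MemLp (fun τ : E => ((if k ≤ ‖τ‖ then ‖V τ‖ else 0 : ℝ) : ℂ)) 2
        (volume : Measure E) := by
      have h4 : MemLp (fun τ : E => (if k ≤ ‖τ‖ then ‖V τ‖ else 0 : ℝ)) 2 (volume : Measure E) := by
        refine MemLp.of_le_mul (c := k⁻¹) hV.l2 ?_ (Eventually.of_forall fun τ => ?_)
        · exact (Measurable.ite (measurableSet_le measurable_const measurable_norm)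
            hVm.norm measurable_const).aestronglyMeasurable
        · split_ifs with h
          · rw [norm_norm, norm_mul, norm_norm, norm_norm, ← mul_assoc]
            have : 1 ≤ k⁻¹ * ‖τ‖ := by
              rw [inv_mul_eq_div, le_div_iff₀ hk]; linarith
            nlinarith [norm_nonneg (V τ)]
          · rw [norm_zero]; positivity
      exact h4.ofReal
    refine (product_integrable h1 h2 h3).mono hPm.aestronglyMeasurable
      (Eventually.of_forall fun q => ?_)
    simp only [hP]
    split_ifs with h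
    · refine (norm_T_le V q).trans (le_of_eq ?_)
      simp only [norm_mul, Complex.norm_real, norm_norm]
    · rw [norm_zero]; positivity
  have hPQ : ∀ q, P (Φ q) = - Q q := by
    intro q
    have e1 : (Φ q).1 + (Φ q).2 = -q.2 := by
      unfold Φ; simp only; abel
    simp only [hP, hQ]
    rw [e1, norm_neg, T_symm hV]
    split_ifs <;> simp
  have hQi : Integrable Q ((volume : Measure E).prod (volume : Measure E)) := by
    have h := mpΦ.integrable_comp_of_integrable hint
    have h' : (P ∘ Φ) = fun q => - Q q := funext hPQ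
    rw [h'] at h
    simpa using h.neg
  have hPval : ∫ q, Q q ∂((volume : Measure E).prod (volume : Measure E)) =
      - ∫ q, P q ∂((volume : Measure E).prod (volume : Measure E)) := by
    have h := mpΦ.integral_comp' (f := ⟨⟨Φ, Φ, fun q => by unfold Φ; ext <;> simp,
      fun q => by unfold Φ; ext <;> simp⟩, mpΦ.measurable, mpΦ.measurable⟩) P
    have h2 : ∫ q, P (Φ q) ∂((volume : Measure E).prod (volume : Measure E)) =
      ∫ q, P q ∂((volume : Measure E).prod (volume : Measure E)) := h
    simp_rw [hPQ] at h2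
    rw [integral_neg] at h2
    rw [← h2]; ring
  have hA : ∫ η : E, ∫ ζ : E,
      (if k ≤ ‖η + ζ‖ then dot ζ (V η) * inner ℂ (V (η + ζ)) (V ζ) else 0) =
      ∫ q, P q ∂((volume : Measure E).prod (volume : Measure E)) := by
    rw [integral_prod _ hint]
    rfl
  set A := ∫ q, P q ∂((volume : Measure E).prod (volume : Measure E)) with hAdef
  have h2A : (2 : ℂ) * A = ∫ q, (P q - Q q) ∂((volume : Measure E).prod (volume : Measure E)) := by
    rw [integral_sub hint hQi, hPval]; ring
  have hpt : ∀ q, ‖P q - Q q‖ₑ ≤ R q + S q := by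
    intro q
    simp only [hP, hQ, hR, hS]
    by_cases h1 : k ≤ ‖q.1 + q.2‖ <;> by_cases h2 : k ≤ ‖q.2‖
    · rw [if_pos h1, if_pos h2]; simp
    · rw [if_pos h1, if_neg h2, sub_zero, if_pos ⟨h1, not_le.1 h2⟩]
      refine le_trans ?_ le_self_add
      have h3 := norm_T_le V q
      calc ‖T V q‖ₑ = ENNReal.ofReal ‖T V q‖ := (ofReal_norm _).symm
        _ ≤ ENNReal.ofReal (‖V q.1‖ * (‖q.2‖ * ‖V q.2‖) * ‖V (q.1 + q.2)‖) :=
            ENNReal.ofReal_le_ofReal h3
        _ = _ := by
            rw [ENNReal.ofReal_mul (by positivity), ENNReal.ofReal_mul (by positivity),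
              ENNReal.ofReal_mul (by positivity)]
            simp only [ofReal_norm]
            ring
    · rw [if_neg h1, if_pos h2, zero_sub, enorm_neg]
      refine le_trans ?_ le_add_self
      rw [if_pos ⟨h2, not_le.1 h1⟩]
    · rw [if_neg h1, if_neg h2]; simp
  have hSR : ∀ q, S (Φ q) ≤ R q := by
    intro q
    have e1 : (Φ q).1 + (Φ q).2 = -q.2 := by
      unfold Φ; simp only; abel
    have e2 : ‖(Φ q).2‖ = ‖q.1 + q.2‖ := by
      unfold Φ; simp only
      rw [← norm_neg]
      congr 1
      abel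
    simp only [hS, hR]
    rw [e1, e2, norm_neg, T_symm hV, enorm_neg]
    split_ifs with h
    · have h3 := norm_T_le V q
      calc ‖T V q‖ₑ = ENNReal.ofReal ‖T V q‖ := (ofReal_norm _).symm
        _ ≤ ENNReal.ofReal (‖V q.1‖ * (‖q.2‖ * ‖V q.2‖) * ‖V (q.1 + q.2)‖) :=
            ENNReal.ofReal_le_ofReal h3
        _ = _ := by
            rw [ENNReal.ofReal_mul (by positivity), ENNReal.ofReal_mul (by positivity),
              ENNReal.ofReal_mul (by positivity)]
            simp only [ofReal_norm]
            ring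
    · exact le_rfl
  have hSint : ∫⁻ q, S q ∂((volume : Measure E).prod (volume : Measure E)) ≤
      ∫⁻ q, R q ∂((volume : Measure E).prod (volume : Measure E)) := by
    rw [← mpΦ.lintegral_comp hSm]
    exact lintegral_mono hSR
  have hmain : 2 * ‖A‖ₑ ≤ 2 * ∫⁻ q, R q ∂((volume : Measure E).prod (volume : Measure E)) := by
    calc 2 * ‖A‖ₑ = ‖(2 : ℂ) * A‖ₑ := by
          rw [enorm_mul]
          congr 1
          rw [← ofReal_norm]
          simp
      _ ≤ ∫⁻ q, ‖P q - Q q‖ₑ ∂((volume : Measure E).prod (volume : Measure E)) := by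
          rw [h2A]
          exact enorm_integral_le_lintegral_enorm _
      _ ≤ ∫⁻ q, (R q + S q) ∂((volume : Measure E).prod (volume : Measure E)) :=
          lintegral_mono hpt
      _ = (∫⁻ q, R q ∂((volume : Measure E).prod (volume : Measure E))) +
          ∫⁻ q, S q ∂((volume : Measure E).prod (volume : Measure E)) :=
          lintegral_add_left hRm _
      _ ≤ _ := by
          rw [two_mul]
          gcongr
  rw [hA, ofReal_norm]
  have h5 : ‖A‖ₑ ≤ ∫⁻ q, R q ∂((volume : Measure E).prod (volume : Measure E)) := by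
    exact (ENNReal.mul_le_mul_iff_right (by norm_num) (by norm_num)).1 hmain
  refine h5.trans (le_of_eq ?_)
  rw [lintegral_prod _ hRm.aemeasurable]

end SNS
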