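import Pool.Agent.SNS.Defs

/-! SPG-FTL: the `L²` Fourier transform against Schwartz functions. -/

open MeasureTheory Filter Topology Set
open scoped FourierTransform SchwartzMap ContDiff ComplexConjugate RealInnerProductSpace

namespace SNS

theorem isFT_Lp (f : Lp ℂ 2 (volume : Measure E)) :
    IsFT f (𝓕 f : Lp ℂ 2 (volume : Measure E)) := by
  refine ⟨Lp.memLp f, Lp.memLp _, fun ψ => ?_⟩
  have h := congrArg (fun T : 𝓢'(E, ℂ) => T ψ) (Lp.fourier_toTemperedDistribution_eq f)
  simp only [TemperedDistribution.fourier_apply, Lp.toTemperedDistribution_apply,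
    smul_eq_mul] at h
  calc ∫ ξ : E, (𝓕 f : Lp ℂ 2 (volume : Measure E)) ξ * ψ ξ
      = ∫ ξ : E, ψ ξ * (𝓕 f : Lp ℂ 2 (volume : Measure E)) ξ := by
        congr 1; funext x; ring
    _ = ∫ x : E, (𝓕 ψ : 𝓢(E, ℂ)) x * f x := h.symm
    _ = _ := by congr 1; funext x; ring

theorem IsFT.congr {g g' h h' : E → ℂ} (H : IsFT g h) (hg : g =ᵐ[volume] g')
    (hh : h =ᵐ[volume] h') : IsFT g' h' := by
  refine ⟨(memLp_congr_ae hg).1 H.memg, (memLp_congr_ae hh).1 H.memh, fun ψ => ?_⟩
  have e1 : ∫ ξ : E, h' ξ * ψ ξ = ∫ ξ : E, h ξ * ψ ξ := by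
    refine integral_congr_ae ?_
    filter_upwards [hh] with ξ hξ
    rw [hξ]
  have e2 : ∫ x : E, g' x * (𝓕 ψ : 𝓢(E, ℂ)) x = ∫ x : E, g x * (𝓕 ψ : 𝓢(E, ℂ)) x := by
    refine integral_congr_ae ?_
    filter_upwards [hg] with ξ hξ
    rw [hξ]
  rw [e1, e2]
  exact H.test ψ

namespace FTL

/-- a real test function as a Schwartz function -/
noncomputable def ts (g : E → ℝ) (hg : ContDiff ℝ ∞ g) (hc : HasCompactSupport g) : 𝓢(E, ℂ) :=
  HasCompactSupport.toSchwartzMap (f := fun x => (g x : ℂ)) (hc.comp_left Complex.ofReal_zero)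
    (Complex.ofRealCLM.contDiff.comp hg)

theorem ts_apply (g : E → ℝ) (hg : ContDiff ℝ ∞ g) (hc : HasCompactSupport g) (x : E) :
    ts g hg hc x = (g x : ℂ) := rfl

theorem fourier_ts (g : E → ℝ) (hg : ContDiff ℝ ∞ g) (hc : HasCompactSupport g) (x : E) :
    (𝓕 (ts g hg hc) : 𝓢(E, ℂ)) x = 𝓕 (fun y : E => (g y : ℂ)) x := by
  rw [SchwartzMap.fourier_coe]
  rfl

theorem fourier_neg_conj (g : E → ℝ) (x : E) :
    𝓕 (fun y : E => (g (-y) : ℂ)) x = conj (𝓕 (fun y : E => (g y : ℂ)) x) := by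
  rw [Real.fourier_eq', Real.fourier_eq', ← integral_conj]
  rw [← integral_neg_eq_self]
  refine integral_congr_ae (Eventually.of_forall fun y => ?_)
  simp only [smul_eq_mul, map_mul, Complex.conj_ofReal, neg_neg, inner_neg_left]
  congr 1
  rw [← Complex.exp_conj]
  congr 1
  rw [map_mul, Complex.conj_ofReal, Complex.conj_I]
  push_cast
  ring

end FTL

theorem IsFT.real {g : E → ℝ} {h : E → ℂ} (H : IsFT (fun x => (g x : ℂ)) h) :
    ∀ᵐ ξ : E, h (-ξ) = conj (h ξ) := by
  have hloc : LocallyIntegrable h (volume : Measure E) := H.memh.locallyIntegrable (by norm_num)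
  have hneg : MemLp (fun ξ => h (-ξ)) 2 (volume : Measure E) :=
    H.memh.comp_measurePreserving (Measure.measurePreserving_neg (volume : Measure E))
  have hconj : MemLp (fun ξ => conj (h ξ)) 2 (volume : Measure E) :=
    H.memh.star
  refine ae_eq_of_integral_contDiff_smul_eq (hneg.locallyIntegrable (by norm_num))
    (hconj.locallyIntegrable (by norm_num)) fun θ hθ hc => ?_
  have hθ' : ContDiff ℝ ∞ (fun x => θ (-x)) := hθ.comp contDiff_neg
  have hc' : HasCompactSupport (fun x => θ (-x)) := hc.comp_homeomorph (Homeomorph.neg E)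
  have e1 : ∫ x : E, θ x • h (-x) = ∫ x : E, h x * FTL.ts _ hθ' hc' x := by
    rw [← integral_neg_eq_self]
    refine integral_congr_ae (Eventually.of_forall fun y => ?_)
    simp only [neg_neg, FTL.ts_apply, Complex.real_smul]
    ring
  have e2 : ∫ x : E, θ x • conj (h x) = conj (∫ x : E, h x * FTL.ts _ hθ hc x) := by
    rw [← integral_conj]
    refine integral_congr_ae (Eventually.of_forall fun y => ?_)
    simp only [FTL.ts_apply, Complex.real_smul, map_mul, Complex.conj_ofReal]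
    ring
  rw [e1, e2, H.test, H.test, ← integral_conj]
  refine integral_congr_ae (Eventually.of_forall fun y => ?_)
  simp only [map_mul, Complex.conj_ofReal]
  rw [FTL.fourier_ts, FTL.fourier_ts, FTL.fourier_neg_conj]

end SNS
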