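import Pool.Agent.SNS.Main

/-! SNS: formulation with the Fourier transform `V` of `v` as an integrable function. -/

open MeasureTheory Filter Topology Set
open scoped FourierTransform SchwartzMap ContDiff ComplexConjugate RealInnerProductSpace

namespace SNS

namespace FIN

/-- uniqueness of an integrable function with given inverse Fourier transform -/
theorem unique {W W' : E → ℂ} (hW : Integrable W (volume : Measure E))
    (hW' : Integrable W' (volume : Measure E)) (h : ∀ x, 𝓕⁻ W x = 𝓕⁻ W' x) :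
    W =ᵐ[volume] W' := by
  refine ae_eq_of_integral_contDiff_smul_eq hW.locallyIntegrable hW'.locallyIntegrable
    fun g hg hc => ?_
  set ψ := FTL.ts g hg hc with hψ
  have key : ∀ W : E → ℂ, Integrable W (volume : Measure E) →
      ∫ x : E, g x • W x = ∫ x : E, 𝓕⁻ W x * (𝓕 ψ : 𝓢(E, ℂ)) x := by
    intro W hW
    rw [INV.fourierInv_swap hW (𝓕 ψ : 𝓢(E, ℂ)).integrable]
    have h1 : 𝓕⁻ ((𝓕 ψ : 𝓢(E, ℂ)) : E → ℂ) = (ψ : E → ℂ) := by
      rw [← SchwartzMap.fourierInv_coe, FourierTransform.fourierInv_fourier_eq]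
    rw [h1]
    refine integral_congr_ae (Eventually.of_forall fun x => ?_)
    simp only [hψ, FTL.ts_apply, Complex.real_smul]
    ring
  rw [key W hW, key W' hW']
  refine integral_congr_ae (Eventually.of_forall fun x => ?_)
  simp only [h x]

theorem unique_vec {V V' : E → C3} (hV : Integrable V (volume : Measure E))
    (hV' : Integrable V' (volume : Measure E))
    (h : ∀ j x, 𝓕⁻ (fun ξ => V ξ j) x = 𝓕⁻ (fun ξ => V' ξ j) x) : V =ᵐ[volume] V' := by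
  have h1 : ∀ j, (fun ξ => V ξ j) =ᵐ[volume] fun ξ => V' ξ j := fun j =>
    unique (MAIN.comp_int hV j) (MAIN.comp_int hV' j) (h j)
  have h2 : ∀ᵐ ξ : E, ∀ j, V ξ j = V' ξ j := by
    rw [ae_all_iff]; exact h1
  filter_upwards [h2] with ξ hξ
  ext j
  exact hξ j

/-- the energy density of a spectrum -/
noncomputable def en (V : E → C3) (ξ : E) : ℝ := ‖ξ‖ ^ 2 * ‖V ξ‖ ^ 2

theorem en_nonneg (V : E → C3) (ξ : E) : 0 ≤ en V ξ := by
  unfold en; positivity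

variable {ν : ℝ} {v : E → E} {p : E → ℝ}

theorem exists_spectrum (hν : 0 < ν) (hv : ContDiff ℝ 2 v) (hp : Differentiable ℝ p)
    (hNS : SteadyNS ν v p) (h0 : Tendsto v (cocompact E) (𝓝 0))
    (h2 : ∀ i j, MemLp (G v i j) 2 (volume : Measure E)) :
    ∃ V : E → C3, Good V ∧
      (∀ i j, (Gh v h2 i j : E → ℂ) =ᵐ[volume]
        fun ξ => 2 * Real.pi * Complex.I * (ξ i : ℂ) * V ξ j) ∧
      ∀ j x, (v x j : ℂ) = 𝓕⁻ (fun ξ => V ξ j) x := by
  have hN := MAIN.Nl_mem hv h0 h2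
  obtain ⟨V, hV, hGV, -⟩ := choice hν (fun i j => (Gh v h2 i j : E → ℂ))
    (fun j => (MAIN.F hN j : E → ℂ)) (fun i j => Lp.memLp _) (fun j => Lp.memLp _)
    (MAIN.curl_ae hv h2) (MAIN.div_ae hv hNS h2)
    (fun i j => IsFT.real (g := pd i (fun y => v y j)) (MAIN.isFT_G h2 i j))
    (MAIN.press_ae hv hp hNS h2 hN)
  refine ⟨V, hV, hGV, fun j => ?_⟩
  have hft : ∀ i j, IsFT (G v i j) (fun ξ => 2 * Real.pi * Complex.I * (ξ i : ℂ) * V ξ j) :=
    fun i j => (MAIN.isFT_G h2 i j).congr EventuallyEq.rfl (hGV i j)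
  refine inversion (w := fun y => v y j) ((MAIN.comp_contDiff hv j).of_le (by norm_num)) ?_
    (MAIN.comp_int hV.int j) (fun i => hft i j)
  have h1 := ((EuclideanSpace.proj j : E →L[ℝ] ℝ).continuous.tendsto 0).comp h0
  simpa [Function.comp_def] using h1

/-- for every spectrum the density is `4 π² |ξ|² |V|²` -/
theorem dens_ae (hν : 0 < ν) (hv : ContDiff ℝ 2 v) (hp : Differentiable ℝ p)
    (hNS : SteadyNS ν v p) (h0 : Tendsto v (cocompact E) (𝓝 0))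
    (h2 : ∀ i j, MemLp (G v i j) 2 (volume : Measure E)) {V : E → C3}
    (hV : Integrable V (volume : Measure E))
    (hvV : ∀ j x, (v x j : ℂ) = 𝓕⁻ (fun ξ => V ξ j) x) :
    dens v h2 =ᵐ[volume] fun ξ => 4 * Real.pi ^ 2 * en V ξ := by
  obtain ⟨V0, hV0, hG, hinv⟩ := exists_spectrum hν hv hp hNS h0 h2
  have h3 : V =ᵐ[volume] V0 := unique_vec hV hV0.int fun j x => by rw [← hvV, ← hinv]
  filter_upwards [MAIN.dens_eq h2 hG, h3] with ξ h4 h5
  rw [h4]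
  unfold en
  rw [h5]

theorem en_integrable (h2 : ∀ i j, MemLp (G v i j) 2 (volume : Measure E)) {V : E → C3}
    (hd : dens v h2 =ᵐ[volume] fun ξ => 4 * Real.pi ^ 2 * en V ξ) :
    Integrable (en V) (volume : Measure E) := by
  have h1 := ((MAIN.dens_integrable h2).congr hd).const_mul (4 * Real.pi ^ 2)⁻¹
  refine h1.congr (Eventually.of_forall fun ξ => ?_)
  have : (4 * Real.pi ^ 2 : ℝ) ≠ 0 := by positivity
  field_simp

theorem ineq_en {c : ℝ} (h2 : ∀ i j, MemLp (G v i j) 2 (volume : Measure E)) {V : E → C3}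
    (hd : dens v h2 =ᵐ[volume] fun ξ => 4 * Real.pi ^ 2 * en V ξ)
    (hI : COR.Ineq (2 * Real.pi * c) (dens v h2)) : COR.Ineq c (en V) := by
  intro k hk
  have h := hI k hk
  have hpi := Real.pi_pos
  have e1 : ∀ s : Set E, ∫ ξ in s, dens v h2 ξ = 4 * Real.pi ^ 2 * ∫ ξ in s, en V ξ := by
    intro s
    rw [← integral_const_mul]
    exact integral_congr_ae (ae_restrict_of_ae hd)
  have e2 : ∀ s : Set E, ∫ ξ in s, dens v h2 ξ / ‖ξ‖ ^ 2 =
      4 * Real.pi ^ 2 * ∫ ξ in s, en V ξ / ‖ξ‖ ^ 2 := by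
    intro s
    rw [← integral_const_mul]
    refine integral_congr_ae (ae_restrict_of_ae ?_)
    filter_upwards [hd] with ξ hξ
    rw [hξ]
    ring
  rw [e1, e1, e2] at h
  have hl : 0 ≤ ∫ ξ in {ξ : E | ‖ξ‖ < k}, en V ξ := integral_nonneg fun ξ => en_nonneg V ξ
  rw [Real.sqrt_mul (by positivity), show (4 : ℝ) * Real.pi ^ 2 = (2 * Real.pi) ^ 2 by ring,
    Real.sqrt_sq (by positivity)] at h
  have h3 : (2 * Real.pi) ^ 3 * (c * ∫ ξ in {ξ : E | k ≤ ‖ξ‖}, en V ξ) ≤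
      (2 * Real.pi) ^ 3 * (k ^ (3 / 2 : ℝ) * Real.sqrt (∫ ξ in {ξ : E | ‖ξ‖ < k}, en V ξ) *
        ∫ ξ in {ξ : E | k / 2 ≤ ‖ξ‖}, en V ξ / ‖ξ‖ ^ 2) := by
    calc _ = 2 * Real.pi * c * ((2 * Real.pi) ^ 2 * ∫ ξ in {ξ : E | k ≤ ‖ξ‖}, en V ξ) := by ring
      _ ≤ _ := h
      _ = _ := by ring
  exact le_of_mul_le_mul_left h3 (by positivity)

theorem en_div (V : E → C3) {k : ℝ} (hk : 0 < k) :
    ∫ ξ in {ξ : E | k ≤ ‖ξ‖}, en V ξ / ‖ξ‖ ^ 2 = ∫ ξ in {ξ : E | k ≤ ‖ξ‖}, ‖V ξ‖ ^ 2 := by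
  refine setIntegral_congr_fun (COR.ms_high k) fun ξ hξ => ?_
  have h1 : 0 < ‖ξ‖ := hk.trans_le (hξ : k ≤ ‖ξ‖)
  unfold en
  field_simp

end FIN

end SNS
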