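import Pool.Agent.SNS.Defs

/-! Integration by parts against smooth complex valued test functions (`curl_test`,
`press_test`). -/

set_option autoImplicit false

open MeasureTheory Filter Topology Set
open scoped FourierTransform SchwartzMap ContDiff ComplexConjugate RealInnerProductSpace

namespace SNS

namespace IBP

lemma bb_eq (j : Fin 3) : bb j = EuclideanSpace.single j (1 : ℝ) := rfl

lemma pd_eq (j : Fin 3) (f : E → ℝ) (x : E) : pd j f x = fderiv ℝ f x (bb j) := rfl

lemma dc_contDiff {m n : WithTop ℕ∞} {φ : E → ℂ} (hφ : ContDiff ℝ n φ) (hmn : m + 1 ≤ n)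
    (a : E) : ContDiff ℝ m (Dc a φ) := by
  unfold Dc
  exact (hφ.fderiv_right hmn).clm_apply contDiff_const

lemma dc_smooth {φ : E → ℂ} (hφ : ContDiff ℝ ∞ φ) (a : E) : ContDiff ℝ ∞ (Dc a φ) :=
  dc_contDiff hφ (by norm_cast) a

lemma dc_compact {φ : E → ℂ} (hc : HasCompactSupport φ) (a : E) :
    HasCompactSupport (Dc a φ) := hc.fderiv_apply ℝ a

lemma dc_comm {φ : E → ℂ} (hφ : ContDiff ℝ 2 φ) (a b : E) : Dc a (Dc b φ) = Dc b (Dc a φ) := by
  funext x
  have h1 : ∀ v w : E, Dc v (Dc w φ) x = fderiv ℝ (fderiv ℝ φ) x v w := by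
    intro v w
    unfold Dc
    have hd : DifferentiableAt ℝ (fderiv ℝ φ) x :=
      ((hφ.fderiv_right (m := 1) (by norm_num)).differentiable (by norm_num)) x
    have h2 : HasFDerivAt (fun y => fderiv ℝ φ y w)
        ((ContinuousLinearMap.apply ℝ ℂ w).comp (fderiv ℝ (fderiv ℝ φ) x)) x :=
      (ContinuousLinearMap.apply ℝ ℂ w).hasFDerivAt.comp x hd.hasFDerivAt
    rw [h2.fderiv]
    simp
  rw [h1, h1]
  have h3 : IsSymmSndFDerivAt ℝ φ x :=
    hφ.contDiffAt.isSymmSndFDerivAt (by simp)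
  exact h3 a b

lemma pd_contDiff {m n : WithTop ℕ∞} {w : E → ℝ} (hw : ContDiff ℝ n w) (hmn : m + 1 ≤ n)
    (j : Fin 3) : ContDiff ℝ m (pd j w) := by
  unfold pd
  exact (hw.fderiv_right hmn).clm_apply contDiff_const

/-- products of a continuous function with a compactly supported continuous function -/
lemma integrable_mul {f : E → ℝ} {φ : E → ℂ} (hf : Continuous f) (hφ : Continuous φ)
    (hc : HasCompactSupport φ) : Integrable (fun x => (f x : ℂ) * φ x) (volume : Measure E) :=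
  ((Complex.continuous_ofReal.comp hf).mul hφ).integrable_of_hasCompactSupport hc.mul_left

/-- integration by parts -/
lemma ibp {W : E → ℝ} (hW : Differentiable ℝ W) (j : Fin 3) (hWj : Continuous (pd j W))
    {φ : E → ℂ} (hφ : ContDiff ℝ 1 φ) (hc : HasCompactSupport φ) :
    ∫ x : E, (pd j W x : ℂ) * φ x = - ∫ x : E, (W x : ℂ) * Dc (bb j) φ x := by
  have hd : ∀ x, HasFDerivAt (fun y => (W y : ℂ)) (Complex.ofRealCLM.comp (fderiv ℝ W x)) x :=
    fun x => Complex.ofRealCLM.hasFDerivAt.comp x (hW x).hasFDerivAt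
  have hfd : ∀ x, fderiv ℝ (fun y => (W y : ℂ)) x (bb j) = (pd j W x : ℂ) := by
    intro x
    rw [(hd x).fderiv]
    rfl
  have key := integral_mul_fderiv_eq_neg_fderiv_mul_of_integrable (μ := (volume : Measure E))
    (f := fun y => (W y : ℂ)) (g := φ) (v := bb j) ?_ ?_ ?_
    (fun x _ => (hd x).differentiableAt) (fun x _ => (hφ.differentiable (by norm_num)) x)
  · simp only [hfd] at key
    unfold Dc
    rw [key, neg_neg]
  · simp only [hfd]
    exact integrable_mul hWj hφ.continuous hc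
  · exact integrable_mul hW.continuous (dc_contDiff (m := 0) hφ (by norm_num) _).continuous
      (dc_compact hc _)
  · exact integrable_mul hW.continuous hφ.continuous hc

/-- the curl of a gradient vanishes, tested -/
lemma curl1 {W : E → ℝ} (hW : Differentiable ℝ W) (hWj : ∀ j, Continuous (pd j W))
    (i k : Fin 3) {φ : E → ℂ} (hφ : ContDiff ℝ ∞ φ) (hc : HasCompactSupport φ) :
    ∫ x : E, (pd i W x : ℂ) * Dc (bb k) φ x = ∫ x : E, (pd k W x : ℂ) * Dc (bb i) φ x := by
  have h1 : ContDiff ℝ 1 (Dc (bb k) φ) := (dc_smooth hφ _).of_le (by exact_mod_cast le_top)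
  have h2 : ContDiff ℝ 1 (Dc (bb i) φ) := (dc_smooth hφ _).of_le (by exact_mod_cast le_top)
  rw [ibp hW i (hWj i) h1 (dc_compact hc _), ibp hW k (hWj k) h2 (dc_compact hc _),
    dc_comm (hφ.of_le (by norm_cast)) (bb i) (bb k)]

lemma coord_contDiff {n : WithTop ℕ∞} {v : E → E} (hv : ContDiff ℝ n v) (j : Fin 3) :
    ContDiff ℝ n (fun y => v y j) := by
  have := contDiff_euclidean.1 hv
  exact this j

lemma conv_cont {v : E → E} (hv : ContDiff ℝ 2 v) (j : Fin 3) :
    Continuous (fun x => ∑ i, v x i * pd i (fun y => v y j) x) := by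
  refine continuous_finsetSum _ fun i _ => ?_
  exact ((coord_contDiff hv i).continuous).mul
    ((pd_contDiff (m := 1) (coord_contDiff hv j) (by norm_num) i).continuous)

lemma lap_cont {v : E → E} (hv : ContDiff ℝ 2 v) (j : Fin 3) (l : Fin 3) :
    Continuous (pd l (pd l (fun y => v y j))) :=
  (pd_contDiff (m := 0) (pd_contDiff (m := 1) (coord_contDiff hv j) (by norm_num) l)
    (by norm_num) l).continuous

end IBP

open IBP

theorem curl_test {w : E → ℝ} (hw : ContDiff ℝ 2 w) (i k : Fin 3) (φ : E → ℂ)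
    (hφ : ContDiff ℝ ∞ φ) (hc : HasCompactSupport φ) :
    ∫ x : E, (pd i w x : ℂ) * Dc (bb k) φ x = ∫ x : E, (pd k w x : ℂ) * Dc (bb i) φ x :=
  curl1 (hw.differentiable (by norm_num))
    (fun j => (pd_contDiff (m := 1) hw (by norm_num) j).continuous) i k hφ hc

/-- the momentum equation for `v_j` tested against `∂_k φ` -/
theorem IBP.moment {ν : ℝ} {v : E → E} {p : E → ℝ} (hv : ContDiff ℝ 2 v)
    (hNS : SteadyNS ν v p) (j k : Fin 3) (φ : E → ℂ)
    (hφ : ContDiff ℝ ∞ φ) (hc : HasCompactSupport φ) :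
    (ν : ℂ) * (∑ l, ∫ x : E, (pd l (fun y => v y j) x : ℂ) * Dc (bb l) (Dc (bb k) φ) x) +
      (∫ x : E, ((∑ i, v x i * pd i (fun y => v y j) x : ℝ) : ℂ) * Dc (bb k) φ x) =
    - ∫ x : E, (pd j p x : ℂ) * Dc (bb k) φ x := by
  have hψ : ContDiff ℝ ∞ (Dc (bb k) φ) := dc_smooth hφ _
  have hψc : HasCompactSupport (Dc (bb k) φ) := dc_compact hc _
  have hψ1 : ContDiff ℝ 1 (Dc (bb k) φ) := hψ.of_le (by exact_mod_cast le_top)
  have h1 : ∀ l : Fin 3, ∫ x : E, (pd l (fun y => v y j) x : ℂ) * Dc (bb l) (Dc (bb k) φ) x =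
      - ∫ x : E, (pd l (pd l (fun y => v y j)) x : ℂ) * Dc (bb k) φ x := by
    intro l
    have hC : ContDiff ℝ 1 (pd l (fun y => v y j)) :=
      pd_contDiff (coord_contDiff hv j) (by norm_num) l
    rw [ibp (hC.differentiable (by norm_num)) l (lap_cont hv j l) hψ1 hψc, neg_neg]
  simp_rw [h1]
  have hI : ∀ l : Fin 3, Integrable (fun x : E =>
      (pd l (pd l (fun y => v y j)) x : ℂ) * Dc (bb k) φ x) (volume : Measure E) := fun l =>
    integrable_mul (lap_cont hv j l) hψ.continuous hψc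
  have hJ : Integrable (fun x : E =>
      ((∑ i, v x i * pd i (fun y => v y j) x : ℝ) : ℂ) * Dc (bb k) φ x)
      (volume : Measure E) := integrable_mul (conv_cont hv j) hψ.continuous hψc
  rw [Finset.sum_neg_distrib, ← integral_finsetSum _ (fun l _ => hI l), mul_neg,
    ← integral_const_mul, ← integral_neg, ← integral_add, ← integral_neg]
  · refine integral_congr_ae (Filter.Eventually.of_forall fun x => ?_)
    have h2 := hNS.momentum x j
    have h3 : pd j p x = ν * ∑ l, pd l (pd l (fun y => v y j)) x -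
        ∑ i, v x i * pd i (fun y => v y j) x := by linarith
    simp only
    rw [h3, ← Finset.sum_mul]
    push_cast
    ring
  · exact ((integrable_finsetSum _ fun l _ => hI l).const_mul _).neg
  · exact hJ

theorem press_test {ν : ℝ} {v : E → E} {p : E → ℝ} (hv : ContDiff ℝ 2 v)
    (hp : Differentiable ℝ p) (hNS : SteadyNS ν v p) (j k : Fin 3) (φ : E → ℂ)
    (hφ : ContDiff ℝ ∞ φ) (hc : HasCompactSupport φ) :
    (ν : ℂ) * (∑ l, (∫ x : E, (pd l (fun y => v y j) x : ℂ) * Dc (bb l) (Dc (bb k) φ) x)) +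
      (∫ x : E, ((∑ i, v x i * pd i (fun y => v y j) x : ℝ) : ℂ) * Dc (bb k) φ x) =
    (ν : ℂ) * (∑ l, (∫ x : E, (pd l (fun y => v y k) x : ℂ) * Dc (bb l) (Dc (bb j) φ) x)) +
      (∫ x : E, ((∑ i, v x i * pd i (fun y => v y k) x : ℝ) : ℂ) * Dc (bb j) φ x) := by
  rw [IBP.moment hv hNS j k φ hφ hc, IBP.moment hv hNS k j φ hφ hc]
  have hpc : ∀ i, Continuous (pd i p) := by
    intro i
    have h3 : pd i p = fun x => ν * ∑ l, pd l (pd l (fun y => v y i)) x -
        ∑ l, v x l * pd l (fun y => v y i) x := by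
      funext x
      have h2 := hNS.momentum x i
      linarith
    rw [h3]
    refine (continuous_const.mul (continuous_finsetSum _ fun l _ => lap_cont hv i l)).sub
      (conv_cont hv i)
  rw [curl1 hp hpc j k hφ hc]

end SNS
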