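import Mathlib
import Pool.Agent.SNS.Defs

/-! Inversion: a function with integrable spectrum which tends to zero at infinity. -/

open MeasureTheory Filter Topology Set
open scoped FourierTransform SchwartzMap ContDiff ComplexConjugate RealInnerProductSpace

namespace SNS

namespace INV

theorem continuous_inv {W : E → ℂ} (hW : Integrable W (volume : Measure E)) :
    Continuous (𝓕⁻ W) := by
  have h : Continuous fun p : E × E => (-innerₗ E) p.1 p.2 := by
    simp only [LinearMap.neg_apply, innerₗ_apply_apply]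
    fun_prop
  have := VectorFourier.fourierIntegral_continuous (μ := (volume : Measure E))
    Real.continuous_fourierChar (L := -innerₗ E) h hW
  exact this

theorem tendsto_inv (W : E → ℂ) : Tendsto (𝓕⁻ W) (cocompact E) (𝓝 0) := by
  have h1 := tendsto_integral_exp_inner_smul_cocompact (V := E) W
  have h2 : Tendsto (fun x : E => -x) (cocompact E) (cocompact E) :=
    (Homeomorph.neg E).isClosedEmbedding.tendsto_cocompact
  refine (h1.comp h2).congr fun x => ?_
  simp only [Function.comp, inner_neg_right, neg_neg]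
  rw [Real.fourierInv_eq]

theorem fourierInv_swap {W f : E → ℂ} (hW : Integrable W (volume : Measure E))
    (hf : Integrable f (volume : Measure E)) : ∫ x, 𝓕⁻ W x * f x = ∫ ξ, W ξ * 𝓕⁻ f ξ := by
  have h : Continuous fun p : E × E => (-innerₗ E) p.1 p.2 := by
    simp only [LinearMap.neg_apply, innerₗ_apply_apply]
    fun_prop
  have h1 := VectorFourier.integral_fourierIntegral_smul_eq_flip (μ := (volume : Measure E))
    (ν := (volume : Measure E)) (L := -innerₗ E) Real.continuous_fourierChar h hW hf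
  have h2 : (-innerₗ E).flip = -innerₗ E := by
    ext x y
    simp [real_inner_comm]
  rw [h2] at h1
  exact h1

theorem inv_deriv (Φ : 𝓢(E, ℂ)) (m ξ : E) :
    𝓕⁻ (fun x => fderiv ℝ Φ x m) ξ = -(2 * Real.pi * Complex.I) * (⟪ξ, m⟫ : ℂ) * 𝓕⁻ Φ ξ := by
  have h1 := SchwartzMap.fourierInv_lineDerivOp_eq Φ m
  have h2 := congrArg (fun f : 𝓢(E, ℂ) => f ξ) h1
  have hT : (fun x : E => ⟪x, m⟫).HasTemperateGrowth := by fun_prop
  simp only [smul_apply, SchwartzMap.smulLeftCLM_apply_apply hT] at h2
  rw [SchwartzMap.fourierInv_coe] at h2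
  have h3 : (fun x => fderiv ℝ Φ x m) = ⇑(LineDeriv.lineDerivOp m Φ) := by
    funext x
    rw [SchwartzMap.lineDerivOp_apply_eq_fderiv]
  rw [h3, h2]
  simp only [smul_eq_mul, Complex.real_smul]
  ring

theorem key {w : E → ℝ} (hw : ContDiff ℝ 1 w) {W : E → ℂ}
    (hW : Integrable W (volume : Measure E))
    (H : ∀ i, IsFT (fun x => (pd i w x : ℂ))
      (fun ξ => 2 * Real.pi * Complex.I * (ξ i : ℂ) * W ξ)) (i : Fin 3) (φ : E → ℂ)
    (hφ : ContDiff ℝ ∞ φ) (hc : HasCompactSupport φ) :
    ∫ x, ((w x : ℂ) - 𝓕⁻ W x) * fderiv ℝ φ x (bb i) = 0 := by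
  have hwc : Continuous fun x => (w x : ℂ) := Complex.continuous_ofReal.comp hw.continuous
  have hWc := continuous_inv hW
  have hd1 : Continuous fun x => fderiv ℝ φ x (bb i) :=
    (hφ.continuous_fderiv (by simp)).clm_apply continuous_const
  have hd2 : HasCompactSupport fun x => fderiv ℝ φ x (bb i) :=
    hc.fderiv_apply ℝ (bb i)
  set Φ : 𝓢(E, ℂ) := hc.toSchwartzMap hφ with hΦ
  have hΦφ : (Φ : E → ℂ) = φ := rfl
  have h1 := (H i).test (𝓕⁻ Φ)
  rw [FourierTransform.fourier_fourierInv_eq] at h1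
  have h2 : ∫ x, (w x : ℂ) * fderiv ℝ φ x (bb i) = -∫ x, (pd i w x : ℂ) * φ x := by
    have hfd : ∀ x, fderiv ℝ (fun x => (w x : ℂ)) x (bb i) = (pd i w x : ℂ) := by
      intro x
      have hx : HasFDerivAt (fun x => (w x : ℂ)) (Complex.ofRealCLM.comp (fderiv ℝ w x)) x :=
        Complex.ofRealCLM.hasFDerivAt.comp x
          (hw.differentiable one_ne_zero x).hasFDerivAt
      rw [hx.fderiv]
      rfl
    have h3 := integral_mul_fderiv_eq_neg_fderiv_mul_of_integrable (μ := (volume : Measure E))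
      (f := fun x => (w x : ℂ)) (g := φ) (v := bb i) ?_ ?_ ?_ ?_ ?_
    · rw [h3]
      congr 1
      exact integral_congr_ae (Eventually.of_forall fun x => by simp only [hfd])
    · have h4 : Continuous fun x => fderiv ℝ (fun x => (w x : ℂ)) x (bb i) := by
        simp only [hfd]
        exact Complex.continuous_ofReal.comp
          ((hw.continuous_fderiv one_ne_zero).clm_apply continuous_const)
      exact (h4.mul hφ.continuous).integrable_of_hasCompactSupport hc.mul_left
    · exact (hwc.mul hd1).integrable_of_hasCompactSupport hd2.mul_left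
    · exact (hwc.mul hφ.continuous).integrable_of_hasCompactSupport hc.mul_left
    · intro x _
      exact Complex.ofRealCLM.differentiableAt.comp x (hw.differentiable one_ne_zero x)
    · intro x _
      exact hφ.differentiable (by simp) x
  have h3 : ∫ x, 𝓕⁻ W x * fderiv ℝ φ x (bb i) = -∫ x, (pd i w x : ℂ) * φ x := by
    rw [fourierInv_swap hW (hd1.integrable_of_hasCompactSupport hd2)]
    have h4 : ∀ ξ, W ξ * 𝓕⁻ (fun x => fderiv ℝ φ x (bb i)) ξ =
        -(2 * Real.pi * Complex.I * (ξ i : ℂ) * W ξ * (𝓕⁻ Φ : 𝓢(E, ℂ)) ξ) := by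
      intro ξ
      have h5 := inv_deriv Φ (bb i) ξ
      rw [hΦφ] at h5
      rw [h5, SchwartzMap.fourierInv_coe, hΦφ]
      have h6 : ⟪ξ, bb i⟫ = ξ i := by
        unfold bb
        rw [EuclideanSpace.inner_single_right]
        simp
      rw [h6]
      ring
    simp only [h4]
    rw [integral_neg, h1]
    rfl
  have h4 : ∀ x, ((w x : ℂ) - 𝓕⁻ W x) * fderiv ℝ φ x (bb i) =
      (w x : ℂ) * fderiv ℝ φ x (bb i) - 𝓕⁻ W x * fderiv ℝ φ x (bb i) := fun x => by ring
  simp only [h4]
  have h5 : Integrable (fun x => (w x : ℂ) * fderiv ℝ φ x (bb i)) (volume : Measure E) :=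
    (hwc.mul hd1).integrable_of_hasCompactSupport hd2.mul_left
  have h6 : Integrable (fun x => 𝓕⁻ W x * fderiv ℝ φ x (bb i)) (volume : Measure E) :=
    (hWc.mul hd1).integrable_of_hasCompactSupport hd2.mul_left
  rw [integral_sub h5 h6, h2, h3, sub_self]

theorem key' {d : E → ℂ} (hd : Continuous d)
    (hk : ∀ (i : Fin 3) (φ : E → ℂ), ContDiff ℝ ∞ φ → HasCompactSupport φ →
      ∫ x, d x * fderiv ℝ φ x (bb i) = 0) (a : E) (φ : E → ℂ)
    (hφ : ContDiff ℝ ∞ φ) (hc : HasCompactSupport φ) :
    ∫ x, d x * fderiv ℝ φ x a = 0 := by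
  have ha : a = ∑ i, a i • bb i := by
    ext j
    simp [bb, Pi.single_apply]
  have h1 : ∀ x, d x * fderiv ℝ φ x a = ∑ i, (a i : ℂ) * (d x * fderiv ℝ φ x (bb i)) := by
    intro x
    conv_lhs => rw [ha]
    rw [map_sum, Finset.mul_sum]
    refine Finset.sum_congr rfl fun i _ => ?_
    rw [map_smul, Complex.real_smul]
    ring
  simp only [h1]
  rw [integral_finsetSum]
  · refine Finset.sum_eq_zero fun i _ => ?_
    rw [integral_const_mul, hk i φ hφ hc, mul_zero]
  · intro i _
    refine Integrable.const_mul ?_ _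
    have hd1 : Continuous fun x => fderiv ℝ φ x (bb i) :=
      (hφ.continuous_fderiv (by simp)).clm_apply continuous_const
    exact (hd.mul hd1).integrable_of_hasCompactSupport (hc.fderiv_apply ℝ (bb i)).mul_left

theorem conv_const {d : E → ℂ} (hd : Continuous d)
    (hk : ∀ (i : Fin 3) (φ : E → ℂ), ContDiff ℝ ∞ φ → HasCompactSupport φ →
      ∫ x, d x * fderiv ℝ φ x (bb i) = 0) (φ : E → ℂ)
    (hφ : ContDiff ℝ ∞ φ) (hc : HasCompactSupport φ) (x y : E) :
    ∫ t, d t * φ (x - t) = ∫ t, d t * φ (y - t) := by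
  set G : E → ℂ := fun x => ∫ t, d t * φ (x - t) with hG
  have hder : ∀ x₀ : E, HasFDerivAt G (0 : E →L[ℝ] ℂ) x₀ := by
    intro x₀
    have h1 := hc.hasFDerivAt_convolution_right (μ := (volume : Measure E))
      (ContinuousLinearMap.mul ℝ ℂ) hd.locallyIntegrable (hφ.of_le (by simp)) x₀
    have h2 : (convolution d (fderiv ℝ φ) ((ContinuousLinearMap.mul ℝ ℂ).precompR E)
        (volume : Measure E)) x₀ = 0 := by
      ext a
      rw [convolution_precompR_apply (ContinuousLinearMap.mul ℝ ℂ) hd.locallyIntegrable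
        (hc.fderiv ℝ) (hφ.continuous_fderiv (by simp)) x₀ a]
      have hφ' : ContDiff ℝ ∞ fun t : E => φ (x₀ - t) := hφ.comp (contDiff_const.sub contDiff_id)
      have hc' : HasCompactSupport fun t : E => φ (x₀ - t) :=
        hc.comp_homeomorph (Homeomorph.subLeft x₀)
      have h3 := key' hd hk a _ hφ' hc'
      have h4 : ∀ t, fderiv ℝ (fun t : E => φ (x₀ - t)) t a = -fderiv ℝ φ (x₀ - t) a := by
        intro t
        have h5 : HasFDerivAt (fun t : E => φ (x₀ - t))
            ((fderiv ℝ φ (x₀ - t)).comp (-ContinuousLinearMap.id ℝ E)) t := by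
          have h6 : HasFDerivAt (fun t : E => x₀ - t) (-ContinuousLinearMap.id ℝ E) t := by
            simpa using (hasFDerivAt_id t).const_sub x₀
          exact ((hφ.differentiable (by simp)) (x₀ - t)).hasFDerivAt.comp t h6
        rw [h5.fderiv]
        simp
      simp only [h4, mul_neg] at h3
      rw [integral_neg, neg_eq_zero] at h3
      rw [convolution_def]
      simpa using h3
    rw [h2] at h1
    exact h1
  have hdiff : Differentiable ℝ G := fun x => (hder x).differentiableAt
  exact is_const_of_fderiv_eq_zero hdiff (fun x => (hder x).fderiv) x y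

theorem conv_zero {d : E → ℂ} (hd : Continuous d) (h0 : Tendsto d (cocompact E) (𝓝 0))
    (hk : ∀ (i : Fin 3) (φ : E → ℂ), ContDiff ℝ ∞ φ → HasCompactSupport φ →
      ∫ x, d x * fderiv ℝ φ x (bb i) = 0) (φ : E → ℂ)
    (hφ : ContDiff ℝ ∞ φ) (hc : HasCompactSupport φ) : ∫ t, d t * φ (0 - t) = 0 := by
  obtain ⟨C, hC⟩ := ZeroAtInftyContinuousMap.bounded
    (⟨⟨d, hd⟩, h0⟩ : ZeroAtInftyContinuousMap E ℂ)
  have hB : ∀ x, ‖d x‖ ≤ C + ‖d 0‖ := by
    intro x
    have h1 : dist (d x) (d 0) ≤ C := hC x 0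
    rw [dist_eq_norm] at h1
    have h2 := norm_sub_norm_le (d x) (d 0)
    linarith
  have h1 : ∀ n : ℕ, ∫ t, d t * φ (0 - t) = ∫ t, d ((n : ℝ) • bb 0 - t) * φ t := by
    intro n
    rw [conv_const hd hk φ hφ hc 0 ((n : ℝ) • bb 0)]
    rw [← integral_sub_left_eq_self (fun t => d t * φ ((n : ℝ) • bb 0 - t))
      (volume : Measure E) ((n : ℝ) • bb 0)]
    simp
  have h2 : Tendsto (fun n : ℕ => ∫ t, d ((n : ℝ) • bb 0 - t) * φ t) atTop
      (𝓝 (∫ _ : E, (0 : ℂ))) := by
    refine tendsto_integral_of_dominated_convergence (fun t => (C + ‖d 0‖) * ‖φ t‖) ?_ ?_ ?_ ?_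
    · intro n
      have : Continuous fun t : E => d ((n : ℝ) • bb 0 - t) * φ t :=
        (hd.comp (continuous_const.sub continuous_id)).mul hφ.continuous
      exact this.aestronglyMeasurable
    · exact (hφ.continuous.integrable_of_hasCompactSupport hc).norm.const_mul _
    · intro n
      refine Eventually.of_forall fun t => ?_
      rw [norm_mul]
      exact mul_le_mul_of_nonneg_right (hB _) (norm_nonneg _)
    · refine Eventually.of_forall fun t => ?_
      have h3 : Tendsto (fun n : ℕ => (n : ℝ) • bb 0 - t) atTop (cocompact E) := by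
        rw [← Metric.cobounded_eq_cocompact, ← tendsto_norm_atTop_iff_cobounded]
        have h5 : Tendsto (fun n : ℕ => (n : ℝ) - ‖t‖) atTop atTop :=
          tendsto_atTop_add_const_right _ _ tendsto_natCast_atTop_atTop
        refine tendsto_atTop_mono (fun n => ?_) h5
        have h6 := norm_sub_norm_le ((n : ℝ) • bb 0) t
        have h7 : ‖(n : ℝ) • bb 0‖ = n := by
          rw [norm_smul, Real.norm_natCast]
          simp [bb]
        rw [h7] at h6
        exact h6
      have h4 := (h0.comp h3).mul_const (φ t)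
      rw [zero_mul] at h4
      exact h4
  rw [integral_zero] at h2
  have h3 : Tendsto (fun _ : ℕ => ∫ t, d t * φ (0 - t)) atTop (𝓝 0) :=
    h2.congr fun n => (h1 n).symm
  exact tendsto_nhds_unique tendsto_const_nhds h3

end INV

open INV in
theorem inversion {w : E → ℝ} (hw : ContDiff ℝ 1 w) (h0 : Tendsto w (cocompact E) (𝓝 0))
    {W : E → ℂ} (hW : Integrable W (volume : Measure E))
    (H : ∀ i, IsFT (fun x => (pd i w x : ℂ))
      (fun ξ => 2 * Real.pi * Complex.I * (ξ i : ℂ) * W ξ)) :
    ∀ x, (w x : ℂ) = 𝓕⁻ W x := by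
  set d : E → ℂ := fun x => (w x : ℂ) - 𝓕⁻ W x with hddef
  have hd : Continuous d :=
    (Complex.continuous_ofReal.comp hw.continuous).sub (continuous_inv hW)
  have hd0 : Tendsto d (cocompact E) (𝓝 0) := by
    have h1 : Tendsto (fun x => (w x : ℂ)) (cocompact E) (𝓝 ((0 : ℝ) : ℂ)) :=
      (Complex.continuous_ofReal.tendsto 0).comp h0
    have h2 := h1.sub (tendsto_inv W)
    simpa using h2
  have hz := conv_zero hd hd0 (fun i φ hφ hc => key hw hW H i φ hφ hc)
  have hae : ∀ᵐ x ∂(volume : Measure E), d x = 0 := by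
    refine ae_eq_zero_of_integral_contDiff_smul_eq_zero hd.locallyIntegrable fun g hg hgc => ?_
    have h1 := hz (fun t => ((g (-t) : ℝ) : ℂ))
      (Complex.ofRealCLM.contDiff.comp (hg.comp contDiff_neg)) ?_
    · rw [← h1]
      refine integral_congr_ae (Eventually.of_forall fun x => ?_)
      simp only [zero_sub, neg_neg, Complex.real_smul]
      ring
    · exact (hgc.comp_homeomorph (Homeomorph.neg E)).comp_left Complex.ofReal_zero
  have h2 : d = fun _ => 0 :=
    (Continuous.ae_eq_iff_eq (volume : Measure E) hd continuous_const).1 hae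
  intro x
  have h3 := congrFun h2 x
  exact sub_eq_zero.1 h3

end SNS
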