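import Pool.Agent.SNS.Defs

/-! SPG-LOW: Cauchy-Schwarz bounds for the low frequency integrals. -/

open MeasureTheory Filter Topology Set
open scoped FourierTransform SchwartzMap ContDiff ComplexConjugate RealInnerProductSpace

namespace SNS

namespace LOW

theorem lint_inv_sq {k : ℝ} (hk : 0 < k) :
    ∫⁻ ξ in {ξ : E | ‖ξ‖ < k}, ENNReal.ofReal ((‖ξ‖ ^ 2)⁻¹) = ENNReal.ofReal (4 * Real.pi * k) := by
  have hms : MeasurableSet {ξ : E | ‖ξ‖ < k} := measurableSet_lt measurable_norm measurable_const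
  set f : ℝ → ℝ := fun y => (Iio k).indicator (fun y => (y ^ 2)⁻¹) y with hf
  have hfin : Module.finrank ℝ E = 3 := by simp
  have hIoo : ∀ y : ℝ, 0 < y → y ^ (3 - 1) • f y = (Ioo 0 k).indicator (fun _ => (1 : ℝ)) y := by
    intro y hy
    simp only [hf, smul_eq_mul]
    by_cases h : y < k
    · rw [indicator_of_mem (by exact h), indicator_of_mem (by exact ⟨hy, h⟩)]
      have : y ^ (3 - 1) = y ^ 2 := by norm_num
      rw [this]
      exact mul_inv_cancel₀ (by positivity)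
    · rw [indicator_of_notMem (by exact h), indicator_of_notMem (by
        intro h'; exact h h'.2), mul_zero]
  have hint : Integrable (fun ξ : E => f ‖ξ‖) (volume : Measure E) := by
    rw [integrable_fun_norm_addHaar (volume : Measure E) (f := f), hfin]
    have h1 : IntegrableOn ((Ioo 0 k).indicator (fun _ => (1 : ℝ))) (Ioi 0) := by
      refine (IntegrableOn.integrable_indicator ?_ measurableSet_Ioo).integrableOn
      exact integrableOn_const (by simp) (by simp)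
    refine h1.congr_fun (fun y hy => (hIoo y hy).symm) measurableSet_Ioi
  have hval : ∫ ξ : E, f ‖ξ‖ = 4 * Real.pi * k := by
    rw [integral_fun_norm_addHaar (volume : Measure E) f, hfin]
    have h2 : ∫ y in Ioi (0 : ℝ), y ^ (3 - 1) • f y = k := by
      rw [setIntegral_congr_fun measurableSet_Ioi (fun y hy => hIoo y hy)]
      rw [setIntegral_indicator measurableSet_Ioo]
      have h3 : Ioi (0 : ℝ) ∩ Ioo 0 k = Ioo 0 k := by
        ext y; simp only [mem_inter_iff, mem_Ioi, mem_Ioo]; tauto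
      rw [h3]
      simp [hk.le]
    rw [h2]
    have h4 : (volume : Measure E).real (Metric.ball 0 1) = 4 * Real.pi / 3 := by
      rw [Measure.real, EuclideanSpace.volume_ball_fin_three]
      rw [ENNReal.toReal_mul]
      simp only [ENNReal.ofReal_one, one_pow, ENNReal.toReal_one, one_mul]
      rw [ENNReal.toReal_ofReal (by positivity)]
      ring
    rw [h4]
    simp only [nsmul_eq_mul, smul_eq_mul]
    push_cast
    ring
  rw [← hval, ofReal_integral_eq_lintegral_ofReal hint (Eventually.of_forall fun ξ => by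
    simp only [hf]
    exact indicator_nonneg (fun y _ => by positivity) _)]
  rw [← lintegral_indicator hms]
  refine lintegral_congr fun ξ => ?_
  simp only [hf]
  by_cases h : ‖ξ‖ < k
  · rw [indicator_of_mem (by exact h), indicator_of_mem (by exact h)]
  · rw [indicator_of_notMem (by exact h), indicator_of_notMem (by exact h), ENNReal.ofReal_zero]

theorem cs {f g : E → ENNReal} (hf : Measurable f) (hg : Measurable g) (s : Set E) :
    ∫⁻ ξ in s, f ξ * g ξ ≤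
      (∫⁻ ξ in s, f ξ ^ 2) ^ (1 / 2 : ℝ) * (∫⁻ ξ in s, g ξ ^ 2) ^ (1 / 2 : ℝ) := by
  have h := ENNReal.lintegral_mul_le_Lp_mul_Lq ((volume : Measure E).restrict s)
    (p := 2) (q := 2) (by constructor <;> norm_num) hf.aemeasurable hg.aemeasurable
  simpa using h

end LOW

theorem low_one {V : E → C3} (hV : Measurable V) {k : ℝ} (hk : 0 < k) :
    ∫⁻ ξ in {ξ : E | ‖ξ‖ < k}, ‖ξ‖ₑ * ‖V ξ‖ₑ ≤
      ENNReal.ofReal (Real.sqrt (4 * Real.pi / 3) * k ^ (3 / 2 : ℝ)) *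
        (∫⁻ ξ in {ξ : E | ‖ξ‖ < k}, ‖ξ‖ₑ ^ 2 * ‖V ξ‖ₑ ^ 2) ^ (1 / 2 : ℝ) := by
  have h := LOW.cs (f := fun _ => 1) (g := fun ξ : E => ‖ξ‖ₑ * ‖V ξ‖ₑ) measurable_const
    (by fun_prop) {ξ : E | ‖ξ‖ < k}
  simp only [one_mul, one_pow, mul_pow] at h
  refine h.trans (mul_le_mul_left (le_of_eq ?_) _)
  rw [lintegral_one, Measure.restrict_apply_univ]
  have hb : {ξ : E | ‖ξ‖ < k} = Metric.ball 0 k := by
    ext ξ; simp
  rw [hb, EuclideanSpace.volume_ball_fin_three, ← ENNReal.ofReal_pow hk.le,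
    ← ENNReal.ofReal_mul (by positivity), ENNReal.ofReal_rpow_of_nonneg (by positivity)
      (by norm_num)]
  congr 1
  rw [Real.mul_rpow (by positivity) (by positivity), Real.sqrt_eq_rpow, ← Real.rpow_natCast,
    ← Real.rpow_mul hk.le, mul_comm]
  congr 2
  · ring
  · norm_num

theorem low_two {V : E → C3} (hV : Measurable V) {k : ℝ} (hk : 0 < k) :
    ∫⁻ ξ in {ξ : E | ‖ξ‖ < k}, ‖V ξ‖ₑ ≤
      ENNReal.ofReal (Real.sqrt (4 * Real.pi) * k ^ (1 / 2 : ℝ)) *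
        (∫⁻ ξ in {ξ : E | ‖ξ‖ < k}, ‖ξ‖ₑ ^ 2 * ‖V ξ‖ₑ ^ 2) ^ (1 / 2 : ℝ) := by
  have h := LOW.cs (f := fun ξ : E => ENNReal.ofReal (‖ξ‖⁻¹)) (g := fun ξ : E => ‖ξ‖ₑ * ‖V ξ‖ₑ)
    (by fun_prop) (by fun_prop) {ξ : E | ‖ξ‖ < k}
  have e1 : ∫⁻ ξ in {ξ : E | ‖ξ‖ < k}, ‖V ξ‖ₑ =
      ∫⁻ ξ in {ξ : E | ‖ξ‖ < k}, ENNReal.ofReal (‖ξ‖⁻¹) * (‖ξ‖ₑ * ‖V ξ‖ₑ) := by
    refine lintegral_congr_ae (ae_restrict_of_ae ?_)
    have h0 : ∀ᵐ ξ : E, ξ ≠ 0 := by
      exact (ae_iff).2 (by simp)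
    filter_upwards [h0] with ξ hξ
    rw [← mul_assoc, ← ofReal_norm (x := ξ), ← ENNReal.ofReal_mul (by positivity),
      inv_mul_cancel₀ (norm_ne_zero_iff.2 hξ), ENNReal.ofReal_one, one_mul]
  rw [e1]
  refine h.trans ?_
  simp only [mul_pow]
  refine mul_le_mul_left (le_of_eq ?_) _
  have e2 : ∫⁻ ξ in {ξ : E | ‖ξ‖ < k}, ENNReal.ofReal (‖ξ‖⁻¹) ^ 2 =
      ∫⁻ ξ in {ξ : E | ‖ξ‖ < k}, ENNReal.ofReal ((‖ξ‖ ^ 2)⁻¹) := by
    refine lintegral_congr fun ξ => ?_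
    rw [← ENNReal.ofReal_pow (by positivity), inv_pow]
  rw [e2, LOW.lint_inv_sq hk, ENNReal.ofReal_rpow_of_nonneg (by positivity) (by norm_num)]
  congr 1
  rw [Real.mul_rpow (by positivity) hk.le, Real.sqrt_eq_rpow]

end SNS
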