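import Pool.Agent.SNS.PIN

/-! SPG-PRO: the Fourier transform of a product. -/

open MeasureTheory Filter Topology Set
open scoped FourierTransform SchwartzMap ContDiff ComplexConjugate RealInnerProductSpace

namespace SNS

namespace PRO

/-- translation of a Schwartz function -/
noncomputable def tr (ψ : 𝓢(E, ℂ)) (η : E) : 𝓢(E, ℂ) := ψ.compSubConstCLM ℂ (-η)

theorem tr_apply (ψ : 𝓢(E, ℂ)) (η x : E) : tr ψ η x = ψ (η + x) := by
  unfold tr
  rw [SchwartzMap.compSubConstCLM_apply, sub_neg_eq_add, add_comm]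

theorem fourier_tr (ψ : 𝓢(E, ℂ)) (η x : E) :
    (𝓕 (tr ψ η) : 𝓢(E, ℂ)) x = (Real.fourierChar ⟪η, x⟫ : ℂ) * (𝓕 ψ : 𝓢(E, ℂ)) x := by
  rw [SchwartzMap.fourier_coe, SchwartzMap.fourier_coe, Real.fourier_eq, Real.fourier_eq]
  have h1 : ∫ v : E, Real.fourierChar (-⟪v, x⟫) • (tr ψ η) v =
      ∫ v : E, (fun w : E => Real.fourierChar (-⟪w - η, x⟫) • ψ w) (η + v) := by
    refine integral_congr_ae (Eventually.of_forall fun v => ?_)
    simp only [tr_apply]
    congr 3
    rw [add_sub_cancel_left]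
  rw [h1, integral_add_left_eq_self (fun w : E => Real.fourierChar (-⟪w - η, x⟫) • ψ w) η,
    ← integral_const_mul]
  refine integral_congr_ae (Eventually.of_forall fun v => ?_)
  simp only [Circle.smul_def, smul_eq_mul]
  rw [← mul_assoc, ← Circle.coe_mul, ← AddChar.map_add_eq_mul]
  congr 3
  rw [inner_sub_left]
  ring

theorem fourierInv_bdd {W : E → ℂ} (x : E) : ‖𝓕⁻ W x‖ ≤ ∫ η, ‖W η‖ := by
  rw [Real.fourierInv_eq]
  refine (norm_integral_le_integral_norm _).trans (le_of_eq ?_)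
  refine integral_congr_ae (Eventually.of_forall fun v => ?_)
  simp only [Circle.norm_smul]

theorem single {W g h : E → ℂ} {w : E → ℂ} (hW : Integrable W (volume : Measure E))
    (hw : ∀ x, w x = 𝓕⁻ W x) (H : IsFT g h) (ψ : 𝓢(E, ℂ)) :
    ∫ x : E, w x * g x * (𝓕 ψ : 𝓢(E, ℂ)) x = ∫ η : E, ∫ ζ : E, W η * h ζ * ψ (η + ζ) := by
  set G : E → ℂ := fun x => g x * (𝓕 ψ : 𝓢(E, ℂ)) x with hG
  have hGi : Integrable G (volume : Measure E) :=
    H.memg.integrable_mul ((𝓕 ψ : 𝓢(E, ℂ)).memLp 2 volume)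
  have hK : Integrable (fun q : E × E => (Real.fourierChar ⟪q.2, q.1⟫ : ℂ) * (G q.1 * W q.2))
      ((volume : Measure E).prod (volume : Measure E)) := by
    have h0 : Integrable (fun q : E × E => G q.1 * W q.2)
      ((volume : Measure E).prod (volume : Measure E)) := hGi.mul_prod hW
    refine h0.mono ?_ (Eventually.of_forall fun q => ?_)
    · refine AEStronglyMeasurable.mul ?_ h0.1
      refine Continuous.aestronglyMeasurable ?_
      have : Continuous (fun q : E × E => Real.fourierChar ⟪q.2, q.1⟫) :=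
        Real.continuous_fourierChar.comp (by fun_prop)
      exact continuous_subtype_val.comp this
    · rw [norm_mul, Circle.norm_coe, one_mul]
  calc ∫ x : E, w x * g x * (𝓕 ψ : 𝓢(E, ℂ)) x
      = ∫ x : E, ∫ η : E, (Real.fourierChar ⟪η, x⟫ : ℂ) * (G x * W η) := by
        refine integral_congr_ae (Eventually.of_forall fun x => ?_)
        simp only
        rw [hw x, Real.fourierInv_eq, mul_assoc, ← integral_mul_const]
        refine integral_congr_ae (Eventually.of_forall fun η => ?_)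
        simp only [Circle.smul_def, smul_eq_mul, hG]
        ring
    _ = ∫ η : E, ∫ x : E, (Real.fourierChar ⟪η, x⟫ : ℂ) * (G x * W η) :=
        integral_integral_swap hK
    _ = ∫ η : E, ∫ ζ : E, W η * h ζ * ψ (η + ζ) := by
        refine integral_congr_ae (Eventually.of_forall fun η => ?_)
        simp only
        have e1 : ∫ x : E, (Real.fourierChar ⟪η, x⟫ : ℂ) * (G x * W η) =
            W η * ∫ x : E, g x * (𝓕 (tr ψ η) : 𝓢(E, ℂ)) x := by
          rw [← integral_const_mul]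
          refine integral_congr_ae (Eventually.of_forall fun x => ?_)
          simp only [hG]
          rw [fourier_tr]
          ring
        rw [e1, ← H.test (tr ψ η), ← integral_const_mul]
        refine integral_congr_ae (Eventually.of_forall fun ζ => ?_)
        simp only [tr_apply]
        ring

theorem holder {f φ : E → ℂ} (hf : MemLp f 2 (volume : Measure E))
    (hφ : MemLp φ 2 (volume : Measure E)) :
    ‖∫ τ : E, f τ * φ τ‖ ≤ (eLpNorm f 2 volume).toReal * (eLpNorm φ 2 volume).toReal := by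
  have h1 : ‖∫ τ : E, f τ * φ τ‖ₑ ≤ eLpNorm f 2 volume * eLpNorm φ 2 volume := by
    refine (enorm_integral_le_lintegral_enorm _).trans ?_
    have h := PIN.conv_le hf.1 hφ.1 0
    simp only [zero_add] at h
    simpa only [enorm_mul] using h
  have h2 := ENNReal.toReal_mono (ENNReal.mul_ne_top hf.2.ne hφ.2.ne) h1
  rwa [toReal_enorm, ENNReal.toReal_mul] at h2

end PRO

open PRO in
theorem product {w : Fin 3 → E → ℝ} {W g h : Fin 3 → E → ℂ} {f : E → ℂ}
    (hW : ∀ i, Integrable (W i) (volume : Measure E))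
    (hw : ∀ i x, (w i x : ℂ) = 𝓕⁻ (W i) x) (H : ∀ i, IsFT (g i) (h i))
    (H' : IsFT (fun x => ∑ i, (w i x : ℂ) * g i x) f) (φ : E → ℂ)
    (hφ : MemLp φ 2 (volume : Measure E)) :
    ∫ τ : E, f τ * φ τ = ∑ i, ∫ η : E, ∫ ζ : E, W i η * h i ζ * φ (η + ζ) := by
  -- Schwartz functions
  have hS : ∀ ψ : 𝓢(E, ℂ), ∫ τ : E, f τ * ψ τ =
      ∑ i, ∫ η : E, ∫ ζ : E, W i η * h i ζ * ψ (η + ζ) := by
    intro ψ
    rw [H'.test ψ]
    have hwm : ∀ i, AEStronglyMeasurable (fun x => (w i x : ℂ)) (volume : Measure E) := by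
      intro i
      have h1 : (fun x => (w i x : ℂ)) = 𝓕⁻ (W i) := funext (hw i)
      rw [h1]
      have h2 : Continuous (𝓕⁻ (W i)) := by
        refine VectorFourier.fourierIntegral_continuous Real.continuous_fourierChar
          ?_ (hW i)
        have e0 : (fun p : E × E => ((-innerₗ E) p.1) p.2) = fun p => -⟪p.1, p.2⟫ := by
          ext p; simp
        rw [e0]
        fun_prop
      exact h2.aestronglyMeasurable
    have hi : ∀ i, Integrable (fun x : E => (w i x : ℂ) * g i x * (𝓕 ψ : 𝓢(E, ℂ)) x)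
        (volume : Measure E) := by
      intro i
      have h3 : Integrable (fun x : E => g i x * (𝓕 ψ : 𝓢(E, ℂ)) x) (volume : Measure E) :=
        (H i).memg.integrable_mul ((𝓕 ψ : 𝓢(E, ℂ)).memLp 2 volume)
      have h4 := h3.bdd_mul (c := ∫ η, ‖W i η‖) (hwm i) (Eventually.of_forall fun x => by
        rw [hw i x]; exact fourierInv_bdd x)
      refine h4.congr (Eventually.of_forall fun x => ?_)
      simp only
      ring
    calc ∫ x : E, (∑ i, (w i x : ℂ) * g i x) * (𝓕 ψ : 𝓢(E, ℂ)) x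
        = ∫ x : E, ∑ i, (w i x : ℂ) * g i x * (𝓕 ψ : 𝓢(E, ℂ)) x := by
          simp_rw [Finset.sum_mul]
      _ = ∑ i, ∫ x : E, (w i x : ℂ) * g i x * (𝓕 ψ : 𝓢(E, ℂ)) x :=
          integral_finsetSum _ fun i _ => hi i
      _ = _ := Finset.sum_congr rfl fun i _ => single (hW i) (hw i) (H i) ψ
  -- general
  set C : ℝ := (eLpNorm f 2 volume).toReal +
    ∑ i, (∫ η, ‖W i η‖) * (eLpNorm (h i) 2 volume).toReal with hC
  have hC0 : 0 ≤ C := by
    refine add_nonneg ENNReal.toReal_nonneg (Finset.sum_nonneg fun i _ => ?_)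
    exact mul_nonneg (integral_nonneg fun _ => norm_nonneg _) ENNReal.toReal_nonneg
  have key : ∀ ε : ℝ, 0 < ε → ‖(∫ τ : E, f τ * φ τ) -
      ∑ i, ∫ η : E, ∫ ζ : E, W i η * h i ζ * φ (η + ζ)‖ ≤ C * ε := by
    intro ε hε
    obtain ⟨θ, hθ1, hθ2, hθ3⟩ := hφ.exist_eLpNorm_sub_le (by norm_num) (by norm_num) hε
    set ψ : 𝓢(E, ℂ) := hθ1.toSchwartzMap hθ2 with hψ
    have hψθ : ∀ x, ψ x = θ x := fun x => rfl
    have hψm : MemLp (fun x => ψ x) 2 (volume : Measure E) := ψ.memLp 2 volume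
    have hd : MemLp (fun x => φ x - ψ x) 2 (volume : Measure E) := hφ.sub hψm
    have hdn : (eLpNorm (fun x => φ x - ψ x) 2 volume).toReal ≤ ε := by
      refine ENNReal.toReal_le_of_le_ofReal hε.le ?_
      exact hθ3
    have e1 : ∫ τ : E, f τ * φ τ = (∫ τ : E, f τ * (φ τ - ψ τ)) + ∫ τ : E, f τ * ψ τ := by
      have i1 : Integrable (fun τ : E => f τ * (φ τ - ψ τ)) := H'.memh.integrable_mul hd
      have i2 : Integrable (fun τ : E => f τ * ψ τ) := H'.memh.integrable_mul hψm
      rw [← integral_add i1 i2]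
      refine integral_congr_ae (Eventually.of_forall fun τ => ?_)
      simp only
      ring
    have e2 : ∀ i, ∫ η : E, ∫ ζ : E, W i η * h i ζ * φ (η + ζ) =
        (∫ η : E, ∫ ζ : E, W i η * h i ζ * (φ (η + ζ) - ψ (η + ζ))) +
          ∫ η : E, ∫ ζ : E, W i η * h i ζ * ψ (η + ζ) := by
      intro i
      have i1 := product_integrable (hW i) (H i).memh hd
      have i2 := product_integrable (hW i) (H i).memh hψm
      have i3 := product_integrable (hW i) (H i).memh hφ
      have j1 := integral_prod _ i1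
      have j2 := integral_prod _ i2
      have j3 := integral_prod _ i3
      simp only at j1 j2 j3
      rw [← j1, ← j2, ← j3, ← integral_add i1 i2]
      refine integral_congr_ae (Eventually.of_forall fun q => ?_)
      simp only
      ring
    have e3 : (∫ τ : E, f τ * φ τ) - ∑ i, ∫ η : E, ∫ ζ : E, W i η * h i ζ * φ (η + ζ) =
        (∫ τ : E, f τ * (φ τ - ψ τ)) -
          ∑ i, ∫ η : E, ∫ ζ : E, W i η * h i ζ * (φ (η + ζ) - ψ (η + ζ)) := by
      simp_rw [e2]
      rw [e1, hS ψ, Finset.sum_add_distrib]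
      ring
    rw [e3]
    have b1 := holder H'.memh hd
    have b2 : ∀ i, ‖∫ η : E, ∫ ζ : E, W i η * h i ζ * (φ (η + ζ) - ψ (η + ζ))‖ ≤
        (∫ η, ‖W i η‖) * (eLpNorm (h i) 2 volume).toReal * ε := fun i =>
      (product_bound (hW i) (H i).memh hd).trans (mul_le_mul_of_nonneg_left hdn
        (mul_nonneg (integral_nonneg fun _ => norm_nonneg _) ENNReal.toReal_nonneg))
    calc ‖(∫ τ : E, f τ * (φ τ - ψ τ)) -
          ∑ i, ∫ η : E, ∫ ζ : E, W i η * h i ζ * (φ (η + ζ) - ψ (η + ζ))‖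
        ≤ ‖∫ τ : E, f τ * (φ τ - ψ τ)‖ +
          ‖∑ i, ∫ η : E, ∫ ζ : E, W i η * h i ζ * (φ (η + ζ) - ψ (η + ζ))‖ := norm_sub_le _ _
      _ ≤ (eLpNorm f 2 volume).toReal * ε +
          ∑ i, (∫ η, ‖W i η‖) * (eLpNorm (h i) 2 volume).toReal * ε := by
          refine add_le_add (b1.trans (mul_le_mul_of_nonneg_left hdn ENNReal.toReal_nonneg)) ?_
          exact (norm_sum_le _ _).trans (Finset.sum_le_sum fun i _ => b2 i)
      _ = C * ε := by rw [hC, add_mul, Finset.sum_mul]
  have hz : ‖(∫ τ : E, f τ * φ τ) -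
      ∑ i, ∫ η : E, ∫ ζ : E, W i η * h i ζ * φ (η + ζ)‖ ≤ 0 := by
    refine le_of_forall_pos_le_add fun δ hδ => ?_
    have h1 := key (δ / (C + 1)) (by positivity)
    refine h1.trans ?_
    rw [zero_add, mul_div_assoc', div_le_iff₀ (by positivity)]
    nlinarith
  exact sub_eq_zero.1 (norm_le_zero_iff.1 hz)

end SNS
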