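import Pool.Agent.SNS.REL
import Pool.Agent.SNS.IBP
import Pool.Agent.SNS.CHO
import Pool.Agent.SNS.INV
import Pool.Agent.SNS.FTL
import Pool.Agent.SNS.PRO
import Pool.Agent.SNS.FLX
import Pool.Agent.SNS.EST
import Pool.Agent.SNS.COR

/-! SNS: assembly. -/

open MeasureTheory Filter Topology Set
open scoped FourierTransform SchwartzMap ContDiff ComplexConjugate RealInnerProductSpace

namespace SNS

/-- `∂_i v_j` as a complex function -/
noncomputable def G (v : E → E) (i j : Fin 3) : E → ℂ :=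
  fun x => ((pd i (fun y => v y j) x : ℝ) : ℂ)

/-- the `L²` Fourier transform of `∂_i v_j` -/
noncomputable def Gh (v : E → E) (h2 : ∀ i j, MemLp (G v i j) 2 (volume : Measure E))
    (i j : Fin 3) : Lp ℂ 2 (volume : Measure E) := 𝓕 ((h2 i j).toLp (G v i j))

/-- spectral density of the Dirichlet integral -/
noncomputable def dens (v : E → E) (h2 : ∀ i j, MemLp (G v i j) 2 (volume : Measure E))
    (ξ : E) : ℝ := ∑ i, ∑ j, ‖Gh v h2 i j ξ‖ ^ 2

namespace MAIN

variable {ν : ℝ} {v : E → E} {p : E → ℝ}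

theorem inner_bb (k : Fin 3) (ξ : E) : ⟪bb k, ξ⟫ = ξ k := by
  unfold bb
  rw [EuclideanSpace.inner_single_left]
  simp

theorem comp_contDiff {n : WithTop ℕ∞} (hv : ContDiff ℝ n v) (j : Fin 3) :
    ContDiff ℝ n (fun y => v y j) := by
  fun_prop

theorem pd_cont {w : E → ℝ} (hw : ContDiff ℝ 1 w) (i : Fin 3) : Continuous (pd i w) := by
  unfold pd
  exact (hw.continuous_fderiv (by norm_num)).clm_apply continuous_const

theorem G_cont (hv : ContDiff ℝ 2 v) (i j : Fin 3) : Continuous (G v i j) :=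
  Complex.continuous_ofReal.comp (pd_cont ((comp_contDiff hv j).of_le (by norm_num)) i)

theorem isFT_G (h2 : ∀ i j, MemLp (G v i j) 2 (volume : Measure E)) (i j : Fin 3) :
    IsFT (G v i j) (Gh v h2 i j) :=
  (isFT_Lp ((h2 i j).toLp (G v i j))).congr (h2 i j).coeFn_toLp EventuallyEq.rfl

theorem bdd (hv : ContDiff ℝ 2 v) (h0 : Tendsto v (cocompact E) (𝓝 0)) :
    ∃ M : ℝ, 0 ≤ M ∧ ∀ x, ‖v x‖ ≤ M := by
  have h1 : ∀ᶠ x in cocompact E, ‖v x‖ < 1 := by
    have := (tendsto_zero_iff_norm_tendsto_zero.1 h0).eventually (gt_mem_nhds one_pos)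
    exact this
  obtain ⟨K, hK, hKs⟩ := mem_cocompact.1 h1
  obtain ⟨M, hM⟩ := hK.exists_bound_of_continuousOn hv.continuous.continuousOn
  refine ⟨max M 1, le_max_of_le_right zero_le_one, fun x => ?_⟩
  by_cases hx : x ∈ K
  · exact (hM x hx).trans (le_max_left _ _)
  · exact (le_of_lt (hKs hx)).trans (le_max_right _ _)

/-- `((v · ∇) v)_j` -/
noncomputable def Nl (v : E → E) (j : Fin 3) : E → ℂ :=
  fun x => ((∑ i, v x i * pd i (fun y => v y j) x : ℝ) : ℂ)

theorem Nl_eq (v : E → E) (j : Fin 3) (x : E) : Nl v j x = ∑ i, (v x i : ℂ) * G v i j x := by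
  unfold Nl G
  push_cast
  rfl

theorem Nl_mem (hv : ContDiff ℝ 2 v) (h0 : Tendsto v (cocompact E) (𝓝 0))
    (h2 : ∀ i j, MemLp (G v i j) 2 (volume : Measure E)) (j : Fin 3) :
    MemLp (Nl v j) 2 (volume : Measure E) := by
  obtain ⟨M, hM0, hM⟩ := bdd hv h0
  have h1 : Nl v j = fun x => ∑ i, (v x i : ℂ) * G v i j x := funext (Nl_eq v j)
  rw [h1]
  refine memLp_finsetSum _ fun i _ => ?_
  refine MemLp.of_le_mul (c := M) (h2 i j) ?_ (Eventually.of_forall fun x => ?_)
  · exact ((Complex.continuous_ofReal.comp (comp_contDiff hv i).continuous).mul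
      (G_cont hv i j)).aestronglyMeasurable
  · rw [norm_mul, Complex.norm_real]
    gcongr
    exact (PiLp.norm_apply_le (v x) i).trans (hM x)

/-- the Fourier transform of `(v · ∇) v` -/
noncomputable def F (hN : ∀ j, MemLp (Nl v j) 2 (volume : Measure E)) (j : Fin 3) :
    Lp ℂ 2 (volume : Measure E) := 𝓕 ((hN j).toLp (Nl v j))

theorem isFT_F (hN : ∀ j, MemLp (Nl v j) 2 (volume : Measure E)) (j : Fin 3) :
    IsFT (Nl v j) (F hN j) :=
  (isFT_Lp ((hN j).toLp (Nl v j))).congr (hN j).coeFn_toLp EventuallyEq.rfl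

theorem c_ne : (-(2 * Real.pi * Complex.I) : ℂ) ≠ 0 := by
  simp [Real.pi_ne_zero]

theorem curl_ae (hv : ContDiff ℝ 2 v) (h2 : ∀ i j, MemLp (G v i j) 2 (volume : Measure E))
    (i j k : Fin 3) : ∀ᵐ ξ : E, (ξ k : ℂ) * Gh v h2 i j ξ = (ξ i : ℂ) * Gh v h2 k j ξ := by
  have h := ae_rel (ι := Fin 0) (κ := Fin 2) (fun i => i.elim0) (fun i => i.elim0)
    (fun i => i.elim0) (fun i => i.elim0) (fun i => i.elim0) (fun i => i.elim0)
    ![G v i j, G v k j] ![(Gh v h2 i j : E → ℂ), (Gh v h2 k j : E → ℂ)]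
    (by
      intro a
      fin_cases a
      · exact isFT_G h2 i j
      · exact isFT_G h2 k j)
    ![bb k, bb i] ![1, -1]
    (by
      intro φ hφ hc
      have h3 := curl_test (comp_contDiff hv j) i k φ hφ hc
      simp only [Finset.univ_eq_empty, Finset.sum_empty, Fin.sum_univ_two, zero_add,
        Matrix.cons_val_zero, Matrix.cons_val_one]
      have h4 : (∫ x : E, G v i j x * Dc (bb k) φ x) = ∫ x : E, G v k j x * Dc (bb i) φ x := h3
      rw [h4]
      ring)
  filter_upwards [h] with ξ hξ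
  simp only [Finset.univ_eq_empty, Finset.sum_empty, Fin.sum_univ_two, zero_add,
    Matrix.cons_val_zero, Matrix.cons_val_one, inner_bb] at hξ
  have h5 : -(2 * Real.pi * Complex.I) *
      ((ξ k : ℂ) * Gh v h2 i j ξ - (ξ i : ℂ) * Gh v h2 k j ξ) = 0 := by
    rw [← hξ]; ring
  exact sub_eq_zero.1 ((mul_eq_zero.1 h5).resolve_left c_ne)

theorem Dc_cont {φ : E → ℂ} (hφ : ContDiff ℝ ∞ φ) (a : E) : ContDiff ℝ ∞ (Dc a φ) := by
  unfold Dc
  exact (hφ.fderiv_right (by norm_cast)).clm_apply contDiff_const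

theorem Dc_supp {φ : E → ℂ} (hφ : HasCompactSupport φ) (a : E) : HasCompactSupport (Dc a φ) :=
  hφ.fderiv_apply ℝ a

theorem int_mul {g φ : E → ℂ} (hg : Continuous g) (hφ : ContDiff ℝ ∞ φ)
    (hc : HasCompactSupport φ) : Integrable (fun x : E => g x * φ x) (volume : Measure E) :=
  (hg.mul hφ.continuous).integrable_of_hasCompactSupport hc.mul_left

theorem div_ae (hv : ContDiff ℝ 2 v) (hNS : SteadyNS ν v p)
    (h2 : ∀ i j, MemLp (G v i j) 2 (volume : Measure E)) :
    ∀ᵐ ξ : E, ∑ i, (Gh v h2 i i : E → ℂ) ξ = 0 := by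
  have h : ∀ k : Fin 3, ∀ᵐ ξ : E, (ξ k : ℂ) * ∑ i, (Gh v h2 i i : E → ℂ) ξ = 0 := by
    intro k
    have h := ae_rel (ι := Fin 0) (κ := Fin 3) (fun i => i.elim0) (fun i => i.elim0)
      (fun i => i.elim0) (fun i => i.elim0) (fun i => i.elim0) (fun i => i.elim0)
      (fun i => G v i i) (fun i => (Gh v h2 i i : E → ℂ)) (fun i => isFT_G h2 i i)
      (fun _ => bb k) (fun _ => 1)
      (by
        intro φ hφ hc
        simp only [Finset.univ_eq_empty, Finset.sum_empty, zero_add, one_mul]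
        rw [← integral_finsetSum _ fun i _ =>
          int_mul (G_cont hv i i) (Dc_cont hφ (bb k)) (Dc_supp hc (bb k))]
        refine integral_eq_zero_of_ae (Eventually.of_forall fun x => ?_)
        simp only [Pi.zero_apply]
        rw [← Finset.sum_mul]
        have h5 : ∑ i, G v i i x = 0 := by
          have := hNS.divFree x
          unfold G
          exact_mod_cast this
        rw [h5, zero_mul])
    filter_upwards [h] with ξ hξ
    simp only [Finset.univ_eq_empty, Finset.sum_empty, zero_add, one_mul, inner_bb] at hξ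
    rw [← Finset.mul_sum, mul_assoc] at hξ
    exact (mul_eq_zero.1 hξ).resolve_left c_ne
  have h0 : ∀ᵐ ξ : E, ξ ≠ 0 := (ae_iff).2 (by simp)
  filter_upwards [h 0, h 1, h 2, h0] with ξ a0 a1 a2 hξ
  by_contra hne
  apply hξ
  ext k
  have hk : ∀ k : Fin 3, ((ξ k : ℝ) : ℂ) = 0 := by
    intro k
    fin_cases k
    · exact (mul_eq_zero.1 a0).resolve_right hne
    · exact (mul_eq_zero.1 a1).resolve_right hne
    · exact (mul_eq_zero.1 a2).resolve_right hne
  simpa using hk k

theorem press_ae (hv : ContDiff ℝ 2 v) (hp : Differentiable ℝ p) (hNS : SteadyNS ν v p)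
    (h2 : ∀ i j, MemLp (G v i j) 2 (volume : Measure E))
    (hN : ∀ j, MemLp (Nl v j) 2 (volume : Measure E)) (j k : Fin 3) :
    ∀ᵐ ξ : E, (ξ k : ℂ) * ((F hN j : E → ℂ) ξ - 2 * Real.pi * Complex.I * ν *
        ∑ l, (ξ l : ℂ) * (Gh v h2 l j : E → ℂ) ξ) =
      (ξ j : ℂ) * ((F hN k : E → ℂ) ξ - 2 * Real.pi * Complex.I * ν *
        ∑ l, (ξ l : ℂ) * (Gh v h2 l k : E → ℂ) ξ) := by
  have h := ae_rel (ι := Fin 3 ⊕ Fin 3) (κ := Fin 2)
    (Sum.elim (fun l => G v l j) (fun l => G v l k))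
    (Sum.elim (fun l => (Gh v h2 l j : E → ℂ)) (fun l => (Gh v h2 l k : E → ℂ)))
    (by
      rintro (l | l)
      · exact isFT_G h2 l j
      · exact isFT_G h2 l k)
    (Sum.elim (fun l => bb l) (fun l => bb l)) (Sum.elim (fun _ => bb k) (fun _ => bb j))
    (Sum.elim (fun _ => (ν : ℂ)) (fun _ => -(ν : ℂ)))
    ![Nl v j, Nl v k] ![(F hN j : E → ℂ), (F hN k : E → ℂ)]
    (by
      intro a
      fin_cases a
      · exact isFT_F hN j
      · exact isFT_F hN k)
    ![bb k, bb j] ![1, -1]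
    (by
      intro φ hφ hc
      have h3 := press_test hv hp hNS j k φ hφ hc
      simp only [Fintype.sum_sum_type, Sum.elim_inl, Sum.elim_inr, Fin.sum_univ_two,
        Matrix.cons_val_zero, Matrix.cons_val_one]
      rw [← Finset.mul_sum, ← Finset.mul_sum]
      have h4 : (ν : ℂ) * (∑ l, (∫ x : E, G v l j x * Dc (bb l) (Dc (bb k) φ) x)) +
          (∫ x : E, Nl v j x * Dc (bb k) φ x) =
        (ν : ℂ) * (∑ l, (∫ x : E, G v l k x * Dc (bb l) (Dc (bb j) φ) x)) +
          (∫ x : E, Nl v k x * Dc (bb j) φ x) := h3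
      linear_combination h4)
  filter_upwards [h] with ξ hξ
  simp only [Fintype.sum_sum_type, Sum.elim_inl, Sum.elim_inr, Fin.sum_univ_two,
    Matrix.cons_val_zero, Matrix.cons_val_one, inner_bb] at hξ
  have e1 : ∀ (j k : Fin 3) (c : ℂ), ∑ l, c * ((-(2 * Real.pi * Complex.I)) ^ 2 * (ξ l : ℂ) *
      (ξ k : ℂ) * (Gh v h2 l j : E → ℂ) ξ) = c * (-(2 * Real.pi * Complex.I)) ^ 2 * (ξ k : ℂ) *
        ∑ l, (ξ l : ℂ) * (Gh v h2 l j : E → ℂ) ξ := by
    intro j k c
    rw [Finset.mul_sum]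
    refine Finset.sum_congr rfl fun l _ => ?_
    ring
  rw [e1 j k, e1 k j] at hξ
  have h5 : -(2 * Real.pi * Complex.I) *
      ((ξ k : ℂ) * ((F hN j : E → ℂ) ξ - 2 * Real.pi * Complex.I * ν *
        ∑ l, (ξ l : ℂ) * (Gh v h2 l j : E → ℂ) ξ) -
      (ξ j : ℂ) * ((F hN k : E → ℂ) ξ - 2 * Real.pi * Complex.I * ν *
        ∑ l, (ξ l : ℂ) * (Gh v h2 l k : E → ℂ) ξ)) = 0 := by
    rw [← hξ]; ring
  exact sub_eq_zero.1 ((mul_eq_zero.1 h5).resolve_left c_ne)

theorem dens_nonneg (h2 : ∀ i j, MemLp (G v i j) 2 (volume : Measure E)) (ξ : E) :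
    0 ≤ dens v h2 ξ :=
  Finset.sum_nonneg fun i _ => Finset.sum_nonneg fun j _ => by positivity

theorem dens_integrable (h2 : ∀ i j, MemLp (G v i j) 2 (volume : Measure E)) :
    Integrable (dens v h2) (volume : Measure E) := by
  unfold dens
  refine integrable_finsetSum _ fun i _ => integrable_finsetSum _ fun j _ => ?_
  exact (Lp.memLp (Gh v h2 i j)).integrable_norm_pow (by norm_num)

theorem dens_eq (h2 : ∀ i j, MemLp (G v i j) 2 (volume : Measure E)) {V : E → C3}
    (hGV : ∀ i j, (Gh v h2 i j : E → ℂ) =ᵐ[volume]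
      fun ξ => 2 * Real.pi * Complex.I * (ξ i : ℂ) * V ξ j) :
    ∀ᵐ ξ : E, dens v h2 ξ = 4 * Real.pi ^ 2 * (‖ξ‖ ^ 2 * ‖V ξ‖ ^ 2) := by
  have h : ∀ᵐ ξ : E, ∀ i j, (Gh v h2 i j : E → ℂ) ξ =
      2 * Real.pi * Complex.I * (ξ i : ℂ) * V ξ j := by
    rw [ae_all_iff]; intro i
    rw [ae_all_iff]; intro j
    exact hGV i j
  filter_upwards [h] with ξ hξ
  unfold dens
  have e1 : ∀ i j, ‖(Gh v h2 i j : E → ℂ) ξ‖ ^ 2 =
      4 * Real.pi ^ 2 * (‖ξ i‖ ^ 2 * ‖V ξ j‖ ^ 2) := by
    intro i j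
    rw [hξ i j]
    simp only [norm_mul, Complex.norm_I, Complex.norm_real, RCLike.norm_ofNat, mul_one,
      Real.norm_of_nonneg Real.pi_pos.le]
    ring
  simp_rw [e1]
  rw [EuclideanSpace.norm_sq_eq ξ, EuclideanSpace.norm_sq_eq (V ξ), Finset.sum_mul_sum,
    Finset.mul_sum]
  refine Finset.sum_congr rfl fun i _ => ?_
  rw [Finset.mul_sum]

theorem comp_int {V : E → C3} (hV : Integrable V (volume : Measure E)) (j : Fin 3) :
    Integrable (fun ξ => V ξ j) (volume : Measure E) :=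
  (EuclideanSpace.proj j : C3 →L[ℂ] ℂ).integrable_comp hV

/-- the cut off test function -/
noncomputable def ph (V : E → C3) (k : ℝ) (j : Fin 3) (τ : E) : ℂ :=
  if k ≤ ‖τ‖ then conj (V τ j) else 0

theorem ph_mem {V : E → C3} (hV : Good V) {k : ℝ} (hk : 0 < k) (j : Fin 3) :
    MemLp (ph V k j) 2 (volume : Measure E) := by
  refine MemLp.of_le_mul (c := k⁻¹) hV.l2 ?_ (Eventually.of_forall fun τ => ?_)
  · have h1 : Measurable (fun τ => V τ j) :=
      (EuclideanSpace.proj j : C3 →L[ℂ] ℂ).measurable.comp hV.meas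
    exact (Measurable.ite (measurableSet_le measurable_const measurable_norm)
      (Complex.continuous_conj.measurable.comp h1) measurable_const).aestronglyMeasurable
  · unfold ph
    split_ifs with h
    · rw [RCLike.norm_conj, norm_mul, norm_norm, norm_norm, ← mul_assoc]
      have h1 : 1 ≤ k⁻¹ * ‖τ‖ := by
        rw [inv_mul_eq_div, le_div_iff₀ hk]; linarith
      have h2 := PiLp.norm_apply_le (V τ) j
      nlinarith [norm_nonneg (V τ)]
    · rw [norm_zero]; positivity

theorem energy (hv : ContDiff ℝ 2 v) (h0 : Tendsto v (cocompact E) (𝓝 0))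
    (h2 : ∀ i j, MemLp (G v i j) 2 (volume : Measure E))
    (hN : ∀ j, MemLp (Nl v j) 2 (volume : Measure E)) {V : E → C3} (hV : Good V)
    (hGV : ∀ i j, (Gh v h2 i j : E → ℂ) =ᵐ[volume]
      fun ξ => 2 * Real.pi * Complex.I * (ξ i : ℂ) * V ξ j)
    (hE : ∀ᵐ ξ : E, ∑ j, (F hN j : E → ℂ) ξ * conj (V ξ j) =
        ((-(4 * Real.pi ^ 2 * ν * ‖ξ‖ ^ 2 * ‖V ξ‖ ^ 2) : ℝ) : ℂ)) {k : ℝ} (hk : 0 < k) :
    ((-(ν * ∫ ξ in {ξ : E | k ≤ ‖ξ‖}, dens v h2 ξ) : ℝ) : ℂ) =
      2 * Real.pi * Complex.I * ∫ η : E, ∫ ζ : E,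
        (if k ≤ ‖η + ζ‖ then dot ζ (V η) * inner ℂ (V (η + ζ)) (V ζ) else 0) := by
  have hft : ∀ i j, IsFT (G v i j) (fun ξ => 2 * Real.pi * Complex.I * (ξ i : ℂ) * V ξ j) :=
    fun i j => (isFT_G h2 i j).congr EventuallyEq.rfl (hGV i j)
  have hinv : ∀ j x, (v x j : ℂ) = 𝓕⁻ (fun ξ => V ξ j) x := by
    intro j
    refine inversion (w := fun y => v y j) ((comp_contDiff hv j).of_le (by norm_num)) ?_
      (comp_int hV.int j) (fun i => hft i j)
    have h1 := ((EuclideanSpace.proj j : E →L[ℝ] ℝ).continuous.tendsto 0).comp h0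
    simpa [Function.comp_def] using h1
  have hprod : ∀ j, ∫ τ : E, (F hN j : E → ℂ) τ * ph V k j τ =
      ∑ i, ∫ η : E, ∫ ζ : E, V η i * (2 * Real.pi * Complex.I * (ζ i : ℂ) * V ζ j) *
        ph V k j (η + ζ) := by
    intro j
    refine product (w := fun i y => v y i) (W := fun i ξ => V ξ i) (g := fun i => G v i j)
      (h := fun i ξ => 2 * Real.pi * Complex.I * (ξ i : ℂ) * V ξ j) (f := F hN j)
      (fun i => comp_int hV.int i) (fun i x => hinv i x) (fun i => hft i j) ?_ _ (ph_mem hV hk j)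
    have h1 : (fun x => ∑ i, (v x i : ℂ) * G v i j x) = Nl v j := (funext (Nl_eq v j)).symm
    rw [h1]
    exact isFT_F hN j
  -- left side
  have hL : ∑ j, ∫ τ : E, (F hN j : E → ℂ) τ * ph V k j τ =
      ((-(ν * ∫ ξ in {ξ : E | k ≤ ‖ξ‖}, dens v h2 ξ) : ℝ) : ℂ) := by
    have hFi : ∀ j, Integrable (fun τ : E => (F hN j : E → ℂ) τ * ph V k j τ)
        (volume : Measure E) := fun j => (isFT_F hN j).memh.integrable_mul (ph_mem hV hk j)
    rw [← integral_finsetSum _ fun j _ => hFi j]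
    have hms : MeasurableSet {ξ : E | k ≤ ‖ξ‖} :=
      measurableSet_le measurable_const measurable_norm
    rw [← integral_const_mul, ← integral_neg, ← integral_indicator hms,
      ← integral_complex_ofReal]
    refine integral_congr_ae ?_
    filter_upwards [hE, dens_eq h2 hGV] with τ h3 h4
    by_cases h5 : k ≤ ‖τ‖
    · rw [indicator_of_mem (by exact h5), h4]
      have e1 : ∀ j, (F hN j : E → ℂ) τ * ph V k j τ = (F hN j : E → ℂ) τ * conj (V τ j) := by
        intro j
        unfold ph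
        rw [if_pos h5]
      simp_rw [e1]
      rw [h3]
      push_cast
      ring
    · rw [indicator_of_notMem (by exact h5)]
      have e1 : ∀ j, (F hN j : E → ℂ) τ * ph V k j τ = 0 := by
        intro j
        unfold ph
        rw [if_neg h5, mul_zero]
      simp_rw [e1]
      simp
  -- right side
  have hint : ∀ i j, Integrable (fun q : E × E => V q.1 i *
      (2 * Real.pi * Complex.I * (q.2 i : ℂ) * V q.2 j) * ph V k j (q.1 + q.2))
      ((volume : Measure E).prod (volume : Measure E)) := fun i j =>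
    product_integrable (W := fun ξ => V ξ i)
      (h := fun ξ => 2 * Real.pi * Complex.I * (ξ i : ℂ) * V ξ j)
      (comp_int hV.int i) (hft i j).memh (ph_mem hV hk j)
  have hR : ∑ j, ∑ i, ∫ η : E, ∫ ζ : E, V η i * (2 * Real.pi * Complex.I * (ζ i : ℂ) * V ζ j) *
        ph V k j (η + ζ) = 2 * Real.pi * Complex.I * ∫ η : E, ∫ ζ : E,
        (if k ≤ ‖η + ζ‖ then dot ζ (V η) * inner ℂ (V (η + ζ)) (V ζ) else 0) := by
    have e1 : ∀ i j, ∫ η : E, ∫ ζ : E, V η i * (2 * Real.pi * Complex.I * (ζ i : ℂ) * V ζ j) *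
        ph V k j (η + ζ) = ∫ q, V q.1 i *
      (2 * Real.pi * Complex.I * (q.2 i : ℂ) * V q.2 j) * ph V k j (q.1 + q.2)
      ∂((volume : Measure E).prod (volume : Measure E)) := by
      intro i j
      rw [integral_prod _ (hint i j)]
    simp_rw [e1]
    have e2 : ∀ j, ∑ i, ∫ q, V q.1 i *
      (2 * Real.pi * Complex.I * (q.2 i : ℂ) * V q.2 j) * ph V k j (q.1 + q.2)
      ∂((volume : Measure E).prod (volume : Measure E)) = ∫ q, ∑ i, V q.1 i *
      (2 * Real.pi * Complex.I * (q.2 i : ℂ) * V q.2 j) * ph V k j (q.1 + q.2)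
      ∂((volume : Measure E).prod (volume : Measure E)) := fun j =>
      (integral_finsetSum _ fun i _ => hint i j).symm
    simp_rw [e2]
    rw [← integral_finsetSum _ fun j _ => integrable_finsetSum _ fun i _ => hint i j]
    have hsum : Integrable (fun q : E × E => ∑ j, ∑ i, V q.1 i *
      (2 * Real.pi * Complex.I * (q.2 i : ℂ) * V q.2 j) * ph V k j (q.1 + q.2))
      ((volume : Measure E).prod (volume : Measure E)) :=
      integrable_finsetSum _ fun j _ => integrable_finsetSum _ fun i _ => hint i j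
    rw [integral_prod _ hsum, ← integral_const_mul]
    refine integral_congr_ae (Eventually.of_forall fun η => ?_)
    simp only
    rw [← integral_const_mul]
    refine integral_congr_ae (Eventually.of_forall fun ζ => ?_)
    simp only
    unfold ph
    split_ifs with h
    · rw [PiLp.inner_apply]
      unfold dot
      rw [Finset.sum_mul_sum, Finset.mul_sum, Finset.sum_comm]
      refine Finset.sum_congr rfl fun i _ => ?_
      rw [Finset.mul_sum]
      refine Finset.sum_congr rfl fun j _ => ?_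
      simp only [RCLike.inner_apply]
      ring
    · simp
  rw [← hL, ← hR]
  exact Finset.sum_congr rfl fun j _ => hprod j

/-- the spectral inequality -/
theorem ineq (hν : 0 < ν) (hv : ContDiff ℝ 2 v) (hp : Differentiable ℝ p)
    (hNS : SteadyNS ν v p) (h0 : Tendsto v (cocompact E) (𝓝 0))
    (h2 : ∀ i j, MemLp (G v i j) 2 (volume : Measure E)) :
    COR.Ineq (2 * Real.pi * ν) (dens v h2) := by
  have hN := Nl_mem hv h0 h2
  obtain ⟨V, hV, hGV, hE⟩ := choice hν (fun i j => (Gh v h2 i j : E → ℂ))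
    (fun j => (F hN j : E → ℂ)) (fun i j => Lp.memLp _) (fun j => Lp.memLp _)
    (curl_ae hv h2) (div_ae hv hNS h2)
    (fun i j => IsFT.real (g := pd i (fun y => v y j)) (isFT_G h2 i j))
    (press_ae hv hp hNS h2 hN)
  have hdens := dens_eq h2 hGV
  have hdi := dens_integrable h2
  intro k hk
  have hen := energy hv h0 h2 hN hV hGV hE hk
  set A : ℂ := ∫ η : E, ∫ ζ : E,
        (if k ≤ ‖η + ζ‖ then dot ζ (V η) * inner ℂ (V (η + ζ)) (V ζ) else 0) with hA
  set high := ∫ ξ in {ξ : E | k ≤ ‖ξ‖}, dens v h2 ξ with hhigh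
  set low := ∫ ξ in {ξ : E | ‖ξ‖ < k}, dens v h2 ξ with hlow
  set mass := ∫ ξ in {ξ : E | k / 2 ≤ ‖ξ‖}, dens v h2 ξ / ‖ξ‖ ^ 2 with hmass
  have hhigh0 : 0 ≤ high := integral_nonneg fun ξ => dens_nonneg h2 ξ
  have hlow0 : 0 ≤ low := integral_nonneg fun ξ => dens_nonneg h2 ξ
  have hmass0 : 0 ≤ mass := COR.mass_nonneg (dens_nonneg h2) _
  have h3 : ν * high = 2 * Real.pi * ‖A‖ := by
    have h4 := congrArg norm hen
    rw [Complex.norm_real, norm_neg, Real.norm_of_nonneg (by positivity)] at h4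
    rw [h4]
    simp only [norm_mul, Complex.norm_I, Complex.norm_real, RCLike.norm_ofNat, mul_one,
      Real.norm_of_nonneg Real.pi_pos.le]
  have hpi : 0 < Real.pi := Real.pi_pos
  -- L
  have hLe : ∫⁻ ξ in {ξ : E | ‖ξ‖ < k}, ‖ξ‖ₑ ^ 2 * ‖V ξ‖ₑ ^ 2 =
      ENNReal.ofReal (low / (4 * Real.pi ^ 2)) := by
    rw [hlow, ← integral_div, ofReal_integral_eq_lintegral_ofReal
      (hdi.integrableOn.div_const _) (Eventually.of_forall fun ξ =>
        div_nonneg (dens_nonneg h2 ξ) (by positivity))]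
    refine lintegral_congr_ae (ae_restrict_of_ae ?_)
    filter_upwards [hdens] with ξ hξ
    rw [hξ, ← ofReal_norm (x := ξ), ← ofReal_norm (x := V ξ), ← ENNReal.ofReal_pow (norm_nonneg _),
      ← ENNReal.ofReal_pow (norm_nonneg _), ← ENNReal.ofReal_mul (by positivity)]
    congr 1
    field_simp
  have hHe : ∫⁻ ξ in {ξ : E | k / 2 ≤ ‖ξ‖}, ‖V ξ‖ₑ ^ 2 =
      ENNReal.ofReal (mass / (4 * Real.pi ^ 2)) := by
    rw [hmass, ← integral_div, ofReal_integral_eq_lintegral_ofReal
      ((COR.mass_integrable hdi (by positivity)).div_const _) (Eventually.of_forall fun ξ =>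
        div_nonneg (div_nonneg (dens_nonneg h2 ξ) (by positivity)) (by positivity))]
    refine lintegral_congr_ae ?_
    refine (ae_restrict_iff' (COR.ms_high _)).2 ?_
    filter_upwards [hdens] with ξ hξ hξk
    have hξ0 : 0 < ‖ξ‖ := lt_of_lt_of_le (by positivity) (hξk : k / 2 ≤ ‖ξ‖)
    rw [hξ, ← ofReal_norm (x := V ξ), ← ENNReal.ofReal_pow (norm_nonneg _)]
    congr 1
    field_simp
  have h5 := (flux hV hk).trans (estimate hV.meas hk)
  rw [hLe, hHe, ENNReal.ofReal_rpow_of_nonneg (by positivity) (by norm_num),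
    ← ENNReal.ofReal_mul (by positivity), ← ENNReal.ofReal_mul (by positivity),
    ENNReal.ofReal_le_ofReal_iff (by positivity), ← hA, ← Real.sqrt_eq_rpow] at h5
  have h6 : Real.sqrt (low / (4 * Real.pi ^ 2)) = Real.sqrt low / (2 * Real.pi) := by
    rw [Real.sqrt_div hlow0]
    congr 1
    rw [show (4 : ℝ) * Real.pi ^ 2 = (2 * Real.pi) ^ 2 by ring]
    exact Real.sqrt_sq (by positivity)
  rw [h6] at h5
  calc 2 * Real.pi * ν * high = (2 * Real.pi) ^ 2 * ‖A‖ := by
        rw [mul_assoc, h3]; ring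
    _ ≤ (2 * Real.pi) ^ 2 * (2 * Real.pi * k ^ (3 / 2 : ℝ) * (Real.sqrt low / (2 * Real.pi)) *
          (mass / (4 * Real.pi ^ 2))) := by gcongr
    _ = k ^ (3 / 2 : ℝ) * Real.sqrt low * mass := by
        field_simp
        ring

/-- if the spectral density has integral zero, then `v = 0` -/
theorem zero_of_dens (hv : ContDiff ℝ 2 v) (h0 : Tendsto v (cocompact E) (𝓝 0))
    (h2 : ∀ i j, MemLp (G v i j) 2 (volume : Measure E))
    (hz : ∫ ξ : E, dens v h2 ξ = 0) : ∀ x, v x = 0 := by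
  have h1 : dens v h2 =ᵐ[volume] 0 :=
    (integral_eq_zero_iff_of_nonneg (dens_nonneg h2) (dens_integrable h2)).1 hz
  have h3 : ∀ i j, Gh v h2 i j = 0 := by
    intro i j
    rw [Lp.eq_zero_iff_ae_eq_zero]
    filter_upwards [h1] with ξ hξ
    have h4 : ∑ i, ∑ j, ‖(Gh v h2 i j : E → ℂ) ξ‖ ^ 2 = 0 := hξ
    have h5 := (Finset.sum_eq_zero_iff_of_nonneg (fun i _ =>
      Finset.sum_nonneg fun j _ => by positivity)).1 h4 i (Finset.mem_univ _)
    have h6 := (Finset.sum_eq_zero_iff_of_nonneg (fun j _ => by positivity)).1 h5 j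
      (Finset.mem_univ _)
    simpa using h6
  have h4 : ∀ i j x, pd i (fun y => v y j) x = 0 := by
    intro i j
    have h5 : (h2 i j).toLp (G v i j) = 0 := by
      have h6 := h3 i j
      unfold Gh at h6
      rw [← norm_eq_zero, ← Lp.norm_fourier_eq, h6, norm_zero]
    have h7 : G v i j =ᵐ[volume] fun _ => 0 := by
      have h8 := (h2 i j).coeFn_toLp
      rw [h5] at h8
      exact h8.symm.trans (Lp.coeFn_zero _ _ _)
    have h9 := (Continuous.ae_eq_iff_eq (volume : Measure E) (G_cont hv i j)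
      continuous_const).1 h7
    intro x
    have h10 := congrFun h9 x
    unfold G at h10
    exact_mod_cast h10
  intro x
  ext j
  have hd : Differentiable ℝ (fun y => v y j) :=
    (comp_contDiff hv j).differentiable (by norm_num)
  have hf : ∀ x, fderiv ℝ (fun y => v y j) x = 0 := by
    intro x
    ext w
    have hw : w = ∑ i, w i • bb i := by
      ext k
      simp [bb, Pi.single_apply]
    rw [hw, map_sum]
    simp only [map_smul, smul_eq_mul, _root_.zero_apply]
    refine Finset.sum_eq_zero fun i _ => ?_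
    have : fderiv ℝ (fun y => v y j) x (bb i) = 0 := h4 i j x
    rw [this, mul_zero]
  have hc : ∀ y, v y j = v x j := fun y => is_const_of_fderiv_eq_zero hd hf y x
  have h5 : Tendsto (fun y => v y j) (cocompact E) (𝓝 0) := by
    have h1 := ((EuclideanSpace.proj j : E →L[ℝ] ℝ).continuous.tendsto 0).comp h0
    simpa [Function.comp_def] using h1
  have h6 : Tendsto (fun _ : E => v x j) (cocompact E) (𝓝 0) := by
    refine h5.congr fun y => hc y
  have h7 := tendsto_nhds_unique h6 tendsto_const_nhds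
  simpa using h7.symm

end MAIN

end SNS
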