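import Pool.Agent.SNS.Defs

/-! SPG-PIN: integrability and a bound for the trilinear form. -/

open MeasureTheory Filter Topology Set
open scoped FourierTransform SchwartzMap ContDiff ComplexConjugate RealInnerProductSpace ENNReal

namespace SNS

namespace PIN

theorem conv_le {h φ : E → ℂ} (hh : AEStronglyMeasurable h (volume : Measure E))
    (hφ : AEStronglyMeasurable φ (volume : Measure E)) (η : E) :
    ∫⁻ ζ : E, ‖h ζ‖ₑ * ‖φ (η + ζ)‖ₑ ≤ eLpNorm h 2 volume * eLpNorm φ 2 volume := by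
  have hφ' : AEStronglyMeasurable (fun ζ => φ (η + ζ)) (volume : Measure E) :=
    hφ.comp_measurePreserving (measurePreserving_add_left (volume : Measure E) η)
  have h1 := ENNReal.lintegral_mul_le_Lp_mul_Lq (volume : Measure E)
    (p := 2) (q := 2) (by constructor <;> norm_num) hh.enorm hφ'.enorm
  have e1 : eLpNorm h 2 volume = (∫⁻ ζ : E, ‖h ζ‖ₑ ^ (2 : ℝ)) ^ (1 / 2 : ℝ) := by
    rw [eLpNorm_eq_lintegral_rpow_enorm_toReal (by norm_num) (by norm_num)]
    norm_num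
  have e2 : eLpNorm (fun ζ => φ (η + ζ)) 2 volume =
      (∫⁻ ζ : E, ‖φ (η + ζ)‖ₑ ^ (2 : ℝ)) ^ (1 / 2 : ℝ) := by
    rw [eLpNorm_eq_lintegral_rpow_enorm_toReal (by norm_num) (by norm_num)]
    norm_num
  have e3 : eLpNorm (fun ζ => φ (η + ζ)) 2 volume = eLpNorm φ 2 volume :=
    eLpNorm_comp_measurePreserving hφ (measurePreserving_add_left (volume : Measure E) η)
  rw [← e3, e1, e2]
  exact h1

end PIN

theorem product_integrable {W h φ : E → ℂ} (hW : Integrable W (volume : Measure E))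
    (hh : MemLp h 2 (volume : Measure E)) (hφ : MemLp φ 2 (volume : Measure E)) :
    Integrable (fun q : E × E => W q.1 * h q.2 * φ (q.1 + q.2))
      ((volume : Measure E).prod (volume : Measure E)) := by
  have hm : AEStronglyMeasurable (fun q : E × E => W q.1 * h q.2 * φ (q.1 + q.2))
      ((volume : Measure E).prod (volume : Measure E)) := by
    refine (hW.1.comp_fst.mul hh.1.comp_snd).mul ?_
    exact hφ.1.comp_quasiMeasurePreserving (quasiMeasurePreserving_add (volume : Measure E) volume)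
  refine ⟨hm, ?_⟩
  unfold HasFiniteIntegral
  rw [lintegral_prod _ hm.enorm]
  calc ∫⁻ η : E, ∫⁻ ζ : E, ‖W η * h ζ * φ (η + ζ)‖ₑ
      = ∫⁻ η : E, ‖W η‖ₑ * ∫⁻ ζ : E, ‖h ζ‖ₑ * ‖φ (η + ζ)‖ₑ := by
        refine lintegral_congr fun η => ?_
        rw [← lintegral_const_mul' _ _ (by simp)]
        refine lintegral_congr fun ζ => ?_
        rw [enorm_mul, enorm_mul, mul_assoc]
    _ ≤ ∫⁻ η : E, ‖W η‖ₑ * (eLpNorm h 2 volume * eLpNorm φ 2 volume) := by
        gcongr with η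
        exact PIN.conv_le hh.1 hφ.1 η
    _ = (∫⁻ η : E, ‖W η‖ₑ) * (eLpNorm h 2 volume * eLpNorm φ 2 volume) := by
        rw [lintegral_mul_const' _ _ (ENNReal.mul_ne_top hh.2.ne hφ.2.ne)]
    _ < ⊤ := ENNReal.mul_lt_top hW.2 (ENNReal.mul_lt_top hh.2 hφ.2)

theorem product_bound {W h φ : E → ℂ} (hW : Integrable W (volume : Measure E))
    (hh : MemLp h 2 (volume : Measure E)) (hφ : MemLp φ 2 (volume : Measure E)) :
    ‖∫ η : E, ∫ ζ : E, W η * h ζ * φ (η + ζ)‖ ≤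
      (∫ η, ‖W η‖) * (eLpNorm h 2 volume).toReal * (eLpNorm φ 2 volume).toReal := by
  have hfin : (∫⁻ η : E, ‖W η‖ₑ) * (eLpNorm h 2 volume * eLpNorm φ 2 volume) ≠ ⊤ :=
    (ENNReal.mul_lt_top hW.2 (ENNReal.mul_lt_top hh.2 hφ.2)).ne
  have h1 : ‖∫ η : E, ∫ ζ : E, W η * h ζ * φ (η + ζ)‖ₑ ≤
      (∫⁻ η : E, ‖W η‖ₑ) * (eLpNorm h 2 volume * eLpNorm φ 2 volume) := by
    calc ‖∫ η : E, ∫ ζ : E, W η * h ζ * φ (η + ζ)‖ₑ
        ≤ ∫⁻ η : E, ‖∫ ζ : E, W η * h ζ * φ (η + ζ)‖ₑ := enorm_integral_le_lintegral_enorm _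
      _ ≤ ∫⁻ η : E, ∫⁻ ζ : E, ‖W η * h ζ * φ (η + ζ)‖ₑ := by
          gcongr with η
          exact enorm_integral_le_lintegral_enorm _
      _ = ∫⁻ η : E, ‖W η‖ₑ * ∫⁻ ζ : E, ‖h ζ‖ₑ * ‖φ (η + ζ)‖ₑ := by
          refine lintegral_congr fun η => ?_
          rw [← lintegral_const_mul' _ _ (by simp)]
          refine lintegral_congr fun ζ => ?_
          rw [enorm_mul, enorm_mul, mul_assoc]
      _ ≤ ∫⁻ η : E, ‖W η‖ₑ * (eLpNorm h 2 volume * eLpNorm φ 2 volume) := by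
          gcongr with η
          exact PIN.conv_le hh.1 hφ.1 η
      _ = (∫⁻ η : E, ‖W η‖ₑ) * (eLpNorm h 2 volume * eLpNorm φ 2 volume) := by
          rw [lintegral_mul_const' _ _ (ENNReal.mul_ne_top hh.2.ne hφ.2.ne)]
  have h2 := ENNReal.toReal_mono hfin h1
  rw [toReal_enorm, ENNReal.toReal_mul, ENNReal.toReal_mul] at h2
  rw [mul_assoc]
  refine h2.trans (le_of_eq ?_)
  rw [integral_norm_eq_lintegral_enorm hW.1]

end SNS
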