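import Pool.Agent.SNS.CUT

/-! SPG-REL: a distributional relation between `L²` functions gives the a.e. relation of their
Fourier transforms. -/

open MeasureTheory Filter Topology Set
open scoped FourierTransform SchwartzMap ContDiff ComplexConjugate RealInnerProductSpace LineDeriv

namespace SNS

namespace REL

/-- multiplication of a Schwartz function by `-2πi ⟪a, ·⟫` -/
noncomputable def mul (a : E) (ψ : 𝓢(E, ℂ)) : 𝓢(E, ℂ) :=
  -(2 * Real.pi * Complex.I) • SchwartzMap.smulLeftCLM ℂ (inner ℝ · a) ψ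

theorem mul_apply (a : E) (ψ : 𝓢(E, ℂ)) (ξ : E) :
    mul a ψ ξ = -(2 * Real.pi * Complex.I) * (⟪a, ξ⟫ : ℂ) * ψ ξ := by
  have hg : (inner ℝ · a : E → ℝ).HasTemperateGrowth := by fun_prop
  have h : mul a ψ ξ = -(2 * Real.pi * Complex.I) •
    ((SchwartzMap.smulLeftCLM ℂ (inner ℝ · a : E → ℝ) ψ) ξ) := rfl
  rw [h, SchwartzMap.smulLeftCLM_apply_apply hg, real_inner_comm, smul_eq_mul,
    Complex.real_smul]
  ring

theorem Dc_fourier (a : E) (ψ : 𝓢(E, ℂ)) :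
    Dc a (𝓕 ψ : 𝓢(E, ℂ)) = (𝓕 (mul a ψ) : 𝓢(E, ℂ)) := by
  funext x
  have h := congrArg (fun f : 𝓢(E, ℂ) => f x) (SchwartzMap.lineDerivOp_fourier_eq ψ a)
  exact h

theorem Dc_eq (a : E) (φ : 𝓢(E, ℂ)) (x : E) : Dc a φ x = (∂_{a} φ : 𝓢(E, ℂ)) x := rfl

theorem tendsto_int {g : E → ℂ} (hg : MemLp g 2 (volume : Measure E)) {F : ℕ → E → ℂ}
    {f : E → ℂ} {B : E → ℝ} (hB : MemLp B 2 (volume : Measure E)) (C : ℝ)
    (hm : ∀ n, Continuous (F n)) (hb : ∀ n x, ‖F n x‖ ≤ C * B x)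
    (hl : ∀ x, ∀ᶠ n in atTop, F n x = f x) :
    Tendsto (fun n => ∫ x : E, g x * F n x) atTop (𝓝 (∫ x : E, g x * f x)) := by
  refine tendsto_integral_of_dominated_convergence (fun x => ‖g x‖ * (C * B x))
    (fun n => hg.1.mul (hm n).aestronglyMeasurable) ?_ (fun n => ?_) ?_
  · exact hg.norm.integrable_mul (hB.const_mul C)
  · refine Eventually.of_forall fun x => ?_
    rw [norm_mul]
    exact mul_le_mul_of_nonneg_left (hb n x) (norm_nonneg _)
  · refine Eventually.of_forall fun x => ?_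
    refine (tendsto_const_nhds (x := g x * f x)).congr' ?_
    filter_upwards [hl x] with n hn
    rw [hn]

theorem Dc_contDiff {a : E} {φ : E → ℂ} (h : ContDiff ℝ ∞ φ) : ContDiff ℝ ∞ (Dc a φ) := by
  unfold Dc
  exact (h.fderiv_right (m := ∞) (by norm_num)).clm_apply contDiff_const

theorem Dc_eventuallyEq {a : E} {φ ψ : E → ℂ} {x : E} (h : φ =ᶠ[𝓝 x] ψ) :
    Dc a φ =ᶠ[𝓝 x] Dc a ψ := by
  filter_upwards [h.fderiv (𝕜 := ℝ)] with y hy
  unfold Dc
  rw [hy]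

/-- the statement of `exists_cutoff` for one Schwartz function -/
def Cut (φ : 𝓢(E, ℂ)) : Prop :=
  ∃ φn : ℕ → E → ℂ, ∃ B : E → ℝ,
    (∀ n, ContDiff ℝ ∞ (φn n)) ∧ (∀ n, HasCompactSupport (φn n)) ∧
    MemLp B 2 (volume : Measure E) ∧
    (∀ n x, ‖φn n x‖ ≤ B x) ∧ (∀ n x a, ‖Dc a (φn n) x‖ ≤ ‖a‖ * B x) ∧
    (∀ n x a b, ‖Dc a (Dc b (φn n)) x‖ ≤ ‖a‖ * ‖b‖ * B x) ∧
    (∀ x, ∀ᶠ n in atTop, φn n =ᶠ[𝓝 x] φ)

theorem schwartz_rel {ι κ : Type} [Fintype ι] [Fintype κ] {g : ι → E → ℂ}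
    (hg : ∀ i, MemLp (g i) 2 (volume : Measure E)) (a b : ι → E) (c : ι → ℂ)
    {g' : κ → E → ℂ} (hg' : ∀ i, MemLp (g' i) 2 (volume : Measure E)) (a' : κ → E) (c' : κ → ℂ)
    (hz : ∀ φ : E → ℂ, ContDiff ℝ ∞ φ → HasCompactSupport φ →
      (∑ i, c i * (∫ x : E, g i x * Dc (a i) (Dc (b i) φ) x)) +
        (∑ i, c' i * (∫ x : E, g' i x * Dc (a' i) φ x)) = 0) (φ : 𝓢(E, ℂ)) (hcut : Cut φ) :
    (∑ i, c i * (∫ x : E, g i x * Dc (a i) (Dc (b i) φ) x)) +
        (∑ i, c' i * (∫ x : E, g' i x * Dc (a' i) φ x)) = 0 := by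
  obtain ⟨φn, B, h1, h2, hB, -, hb1, hb2, hl⟩ := hcut
  have t1 : Tendsto (fun n => (∑ i, c i * (∫ x : E, g i x * Dc (a i) (Dc (b i) (φn n)) x)) +
        (∑ i, c' i * (∫ x : E, g' i x * Dc (a' i) (φn n) x))) atTop
      (𝓝 ((∑ i, c i * (∫ x : E, g i x * Dc (a i) (Dc (b i) φ) x)) +
        (∑ i, c' i * (∫ x : E, g' i x * Dc (a' i) φ x)))) := by
    refine Tendsto.add ?_ ?_
    · refine tendsto_finsetSum _ fun i _ => Tendsto.const_mul _ ?_
      refine tendsto_int (hg i) hB (‖a i‖ * ‖b i‖) (fun n => ?_) (fun n x => hb2 n x _ _) ?_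
      · exact (Dc_contDiff (Dc_contDiff (h1 n))).continuous
      · intro x
        filter_upwards [hl x] with n hn
        exact (Dc_eventuallyEq (Dc_eventuallyEq hn)).eq_of_nhds
    · refine tendsto_finsetSum _ fun i _ => Tendsto.const_mul _ ?_
      refine tendsto_int (hg' i) hB (‖a' i‖) (fun n => ?_) (fun n x => hb1 n x _) ?_
      · exact (Dc_contDiff (h1 n)).continuous
      · intro x
        filter_upwards [hl x] with n hn
        exact (Dc_eventuallyEq hn).eq_of_nhds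
  have t2 : Tendsto (fun n => (∑ i, c i * (∫ x : E, g i x * Dc (a i) (Dc (b i) (φn n)) x)) +
        (∑ i, c' i * (∫ x : E, g' i x * Dc (a' i) (φn n) x))) atTop (𝓝 0) := by
    have : (fun n => (∑ i, c i * (∫ x : E, g i x * Dc (a i) (Dc (b i) (φn n)) x)) +
        (∑ i, c' i * (∫ x : E, g' i x * Dc (a' i) (φn n) x))) = fun _ => (0 : ℂ) := by
      funext n
      exact hz (φn n) (h1 n) (h2 n)
    rw [this]
    exact tendsto_const_nhds
  exact tendsto_nhds_unique t1 t2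

/-- a real test function as a Schwartz function -/
noncomputable def ts (g : E → ℝ) (hg : ContDiff ℝ ∞ g) (hc : HasCompactSupport g) : 𝓢(E, ℂ) :=
  HasCompactSupport.toSchwartzMap (f := fun x => (g x : ℂ)) (hc.comp_left Complex.ofReal_zero)
    (Complex.ofRealCLM.contDiff.comp hg)

theorem ts_apply (g : E → ℝ) (hg : ContDiff ℝ ∞ g) (hc : HasCompactSupport g) (x : E) :
    ts g hg hc x = (g x : ℂ) := rfl

theorem main {ι κ : Type} [Fintype ι] [Fintype κ] (hcut : ∀ φ : 𝓢(E, ℂ), Cut φ)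
    (g h : ι → E → ℂ)
    (H : ∀ i, IsFT (g i) (h i)) (a b : ι → E) (c : ι → ℂ)
    (g' h' : κ → E → ℂ) (H' : ∀ i, IsFT (g' i) (h' i)) (a' : κ → E) (c' : κ → ℂ)
    (hz : ∀ φ : E → ℂ, ContDiff ℝ ∞ φ → HasCompactSupport φ →
      (∑ i, c i * (∫ x : E, g i x * Dc (a i) (Dc (b i) φ) x)) +
        (∑ i, c' i * (∫ x : E, g' i x * Dc (a' i) φ x)) = 0) :
    ∀ᵐ ξ : E, ∑ i, c i * ((-(2 * Real.pi * Complex.I)) ^ 2 * (⟪a i, ξ⟫ : ℂ) * (⟪b i, ξ⟫ : ℂ) *
        h i ξ) + ∑ i, c' i * (-(2 * Real.pi * Complex.I) * (⟪a' i, ξ⟫ : ℂ) * h' i ξ) = 0 := by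
  refine ae_eq_zero_of_integral_contDiff_smul_eq_zero ?_ fun θ hθ hc => ?_
  · -- local integrability
    have hi : ∀ i, LocallyIntegrable (h i) (volume : Measure E) := fun i =>
      (H i).memh.locallyIntegrable (by norm_num)
    have hi' : ∀ i, LocallyIntegrable (h' i) (volume : Measure E) := fun i =>
      (H' i).memh.locallyIntegrable (by norm_num)
    refine LocallyIntegrable.add ?_ ?_
    · refine locallyIntegrable_finsetSum _ fun i _ => ?_
      have : (fun ξ : E => c i * ((-(2 * Real.pi * Complex.I)) ^ 2 * (⟪a i, ξ⟫ : ℂ) *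
        (⟪b i, ξ⟫ : ℂ) * h i ξ)) = fun ξ : E => (c i * ((-(2 * Real.pi * Complex.I)) ^ 2 *
          (⟪a i, ξ⟫ : ℂ) * (⟪b i, ξ⟫ : ℂ))) * h i ξ := by
        funext ξ; ring
      rw [this]
      exact LocallyIntegrable.continuous_mul (by fun_prop) (hi i)
    · refine locallyIntegrable_finsetSum _ fun i _ => ?_
      have : (fun ξ : E => c' i * (-(2 * Real.pi * Complex.I) * (⟪a' i, ξ⟫ : ℂ) * h' i ξ)) =
          fun ξ : E => (c' i * (-(2 * Real.pi * Complex.I) * (⟪a' i, ξ⟫ : ℂ))) * h' i ξ := by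
        funext ξ; ring
      rw [this]
      exact LocallyIntegrable.continuous_mul (by fun_prop) (hi' i)
  · -- test
    have key := schwartz_rel (fun i => (H i).memg) a b c (fun i => (H' i).memg) a' c' hz
      (𝓕 (ts θ hθ hc) : 𝓢(E, ℂ)) (hcut _)
    have e1 : ∀ i, ∫ x : E, g i x * Dc (a i) (Dc (b i) (𝓕 (ts θ hθ hc) : 𝓢(E, ℂ))) x =
        ∫ ξ : E, h i ξ * mul (a i) (mul (b i) (ts θ hθ hc)) ξ := by
      intro i
      rw [Dc_fourier, Dc_fourier, (H i).test]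
    have e2 : ∀ i, ∫ x : E, g' i x * Dc (a' i) (𝓕 (ts θ hθ hc) : 𝓢(E, ℂ)) x =
        ∫ ξ : E, h' i ξ * mul (a' i) (ts θ hθ hc) ξ := by
      intro i
      rw [Dc_fourier, (H' i).test]
    simp only [e1, e2] at key
    rw [← key]
    have hint : ∀ i, Integrable (fun ξ : E => c i * (h i ξ * mul (a i) (mul (b i) (ts θ hθ hc)) ξ))
        (volume : Measure E) := fun i =>
      ((H i).memh.integrable_mul ((mul (a i) (mul (b i) (ts θ hθ hc))).memLp 2 volume)).const_mul _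
    have hint' : ∀ i, Integrable (fun ξ : E => c' i * (h' i ξ * mul (a' i) (ts θ hθ hc) ξ))
        (volume : Measure E) := fun i =>
      ((H' i).memh.integrable_mul ((mul (a' i) (ts θ hθ hc)).memLp 2 volume)).const_mul _
    calc ∫ ξ : E, θ ξ • (∑ i, c i * ((-(2 * Real.pi * Complex.I)) ^ 2 * (⟪a i, ξ⟫ : ℂ) *
          (⟪b i, ξ⟫ : ℂ) * h i ξ) +
          ∑ i, c' i * (-(2 * Real.pi * Complex.I) * (⟪a' i, ξ⟫ : ℂ) * h' i ξ))
        = ∫ ξ : E, (∑ i, c i * (h i ξ * mul (a i) (mul (b i) (ts θ hθ hc)) ξ) +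
            ∑ i, c' i * (h' i ξ * mul (a' i) (ts θ hθ hc) ξ)) := by
          refine integral_congr_ae (Eventually.of_forall fun ξ => ?_)
          simp only [mul_apply, ts_apply, Complex.real_smul, mul_add, Finset.mul_sum]
          congr 1
          · refine Finset.sum_congr rfl fun i _ => ?_
            ring
          · refine Finset.sum_congr rfl fun i _ => ?_
            ring
      _ = _ := by
          rw [integral_add (integrable_finsetSum _ fun i _ => hint i)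
            (integrable_finsetSum _ fun i _ => hint' i),
            integral_finsetSum _ fun i _ => hint i, integral_finsetSum _ fun i _ => hint' i]
          congr 1
          · refine Finset.sum_congr rfl fun i _ => ?_
            rw [integral_const_mul]
          · refine Finset.sum_congr rfl fun i _ => ?_
            rw [integral_const_mul]

end REL

theorem ae_rel {ι κ : Type} [Fintype ι] [Fintype κ] (g h : ι → E → ℂ)
    (H : ∀ i, IsFT (g i) (h i)) (a b : ι → E) (c : ι → ℂ)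
    (g' h' : κ → E → ℂ) (H' : ∀ i, IsFT (g' i) (h' i)) (a' : κ → E) (c' : κ → ℂ)
    (hz : ∀ φ : E → ℂ, ContDiff ℝ ∞ φ → HasCompactSupport φ →
      (∑ i, c i * (∫ x : E, g i x * Dc (a i) (Dc (b i) φ) x)) +
        (∑ i, c' i * (∫ x : E, g' i x * Dc (a' i) φ x)) = 0) :
    ∀ᵐ ξ : E, ∑ i, c i * ((-(2 * Real.pi * Complex.I)) ^ 2 * (⟪a i, ξ⟫ : ℂ) * (⟪b i, ξ⟫ : ℂ) *
        h i ξ) + ∑ i, c' i * (-(2 * Real.pi * Complex.I) * (⟪a' i, ξ⟫ : ℂ) * h' i ξ) = 0 :=
  REL.main exists_cutoff g h H a b c g' h' H' a' c' hz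

end SNS
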