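import Pool.Agent.SNS.FLX
import Pool.Agent.SNS.LOW

/-! TRI: the flux through the sphere of radius `k`, with the sine of the angle kept. -/

open MeasureTheory Filter Topology Set
open scoped FourierTransform SchwartzMap ContDiff ComplexConjugate RealInnerProductSpace

namespace SNS

namespace TRI

open FLX

theorem flux2 {V : E → C3} (hV : Good V) {k : ℝ} (hk : 0 < k) :
    ENNReal.ofReal ‖∫ η : E, ∫ ζ : E,
      (if k ≤ ‖η + ζ‖ then dot ζ (V η) * inner ℂ (V (η + ζ)) (V ζ) else 0)‖ ≤
    ∫⁻ η : E, ∫⁻ ζ : E, (if k ≤ ‖η + ζ‖ ∧ ‖ζ‖ < k then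
      ‖T V (η, ζ)‖ₑ else 0) := by
  set P : E × E → ℂ := fun q => if k ≤ ‖q.1 + q.2‖ then T V q else 0 with hP
  set Q : E × E → ℂ := fun q => if k ≤ ‖q.2‖ then T V q else 0 with hQ
  set R : E × E → ENNReal := fun q => if k ≤ ‖q.1 + q.2‖ ∧ ‖q.2‖ < k then
      ‖T V q‖ₑ else 0 with hR
  set S : E × E → ENNReal := fun q => if k ≤ ‖q.2‖ ∧ ‖q.1 + q.2‖ < k then ‖T V q‖ₑ else 0 with hS
  have hVm := hV.meas
  have hTm := T_meas hVm
  have hs1 : MeasurableSet {q : E × E | k ≤ ‖q.1 + q.2‖} :=
    measurableSet_le measurable_const (measurable_fst.add measurable_snd).norm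
  have hs2 : MeasurableSet {q : E × E | k ≤ ‖q.2‖} :=
    measurableSet_le measurable_const measurable_snd.norm
  have hs3 : MeasurableSet {q : E × E | ‖q.2‖ < k} :=
    measurableSet_lt measurable_snd.norm measurable_const
  have hs4 : MeasurableSet {q : E × E | ‖q.1 + q.2‖ < k} :=
    measurableSet_lt (measurable_fst.add measurable_snd).norm measurable_const
  have hPm : Measurable P := Measurable.ite hs1 hTm measurable_const
  have hRm : Measurable R := by
    exact Measurable.ite (hs1.inter hs3) hTm.enorm measurable_const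
  have hSm : Measurable S := Measurable.ite (hs2.inter hs4) hTm.enorm measurable_const
  -- integrability of P
  have hint : Integrable P ((volume : Measure E).prod (volume : Measure E)) := by
    have h1 : Integrable (fun η : E => ((‖V η‖ : ℝ) : ℂ)) (volume : Measure E) :=
      hV.int.norm.ofReal
    have h2 : MemLp (fun ζ : E => ((‖ζ‖ * ‖V ζ‖ : ℝ) : ℂ)) 2 (volume : Measure E) := hV.l2.ofReal
    have h3 : MemLp (fun τ : E => ((if k ≤ ‖τ‖ then ‖V τ‖ else 0 : ℝ) : ℂ)) 2
        (volume : Measure E) := by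
      have h4 : MemLp (fun τ : E => (if k ≤ ‖τ‖ then ‖V τ‖ else 0 : ℝ)) 2 (volume : Measure E) := by
        refine MemLp.of_le_mul (c := k⁻¹) hV.l2 ?_ (Eventually.of_forall fun τ => ?_)
        · exact (Measurable.ite (measurableSet_le measurable_const measurable_norm)
            hVm.norm measurable_const).aestronglyMeasurable
        · split_ifs with h
          · rw [norm_norm, norm_mul, norm_norm, norm_norm, ← mul_assoc]
            have : 1 ≤ k⁻¹ * ‖τ‖ := by
              rw [inv_mul_eq_div, le_div_iff₀ hk]; linarith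
            nlinarith [norm_nonneg (V τ)]
          · rw [norm_zero]; positivity
      exact h4.ofReal
    refine (product_integrable h1 h2 h3).mono hPm.aestronglyMeasurable
      (Eventually.of_forall fun q => ?_)
    simp only [hP]
    split_ifs with h
    · refine (norm_T_le V q).trans (le_of_eq ?_)
      simp only [norm_mul, Complex.norm_real, norm_norm]
    · rw [norm_zero]; positivity
  have hPQ : ∀ q, P (Φ q) = - Q q := by
    intro q
    have e1 : (Φ q).1 + (Φ q).2 = -q.2 := by
      unfold Φ; simp only; abel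
    simp only [hP, hQ]
    rw [e1, norm_neg, T_symm hV]
    split_ifs <;> simp
  have hQi : Integrable Q ((volume : Measure E).prod (volume : Measure E)) := by
    have h := mpΦ.integrable_comp_of_integrable hint
    have h' : (P ∘ Φ) = fun q => - Q q := funext hPQ
    rw [h'] at h
    simpa using h.neg
  have hPval : ∫ q, Q q ∂((volume : Measure E).prod (volume : Measure E)) =
      - ∫ q, P q ∂((volume : Measure E).prod (volume : Measure E)) := by
    have h := mpΦ.integral_comp' (f := ⟨⟨Φ, Φ, fun q => by unfold Φ; ext <;> simp,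
      fun q => by unfold Φ; ext <;> simp⟩, mpΦ.measurable, mpΦ.measurable⟩) P
    have h2 : ∫ q, P (Φ q) ∂((volume : Measure E).prod (volume : Measure E)) =
      ∫ q, P q ∂((volume : Measure E).prod (volume : Measure E)) := h
    simp_rw [hPQ] at h2
    rw [integral_neg] at h2
    rw [← h2]; ring
  have hA : ∫ η : E, ∫ ζ : E,
      (if k ≤ ‖η + ζ‖ then dot ζ (V η) * inner ℂ (V (η + ζ)) (V ζ) else 0) =
      ∫ q, P q ∂((volume : Measure E).prod (volume : Measure E)) := by
    rw [integral_prod _ hint]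
    rfl
  set A := ∫ q, P q ∂((volume : Measure E).prod (volume : Measure E)) with hAdef
  have h2A : (2 : ℂ) * A = ∫ q, (P q - Q q) ∂((volume : Measure E).prod (volume : Measure E)) := by
    rw [integral_sub hint hQi, hPval]; ring
  have hpt : ∀ q, ‖P q - Q q‖ₑ ≤ R q + S q := by
    intro q
    simp only [hP, hQ, hR, hS]
    by_cases h1 : k ≤ ‖q.1 + q.2‖ <;> by_cases h2 : k ≤ ‖q.2‖
    · rw [if_pos h1, if_pos h2]; simp
    · rw [if_pos h1, if_neg h2, sub_zero, if_pos ⟨h1, not_le.1 h2⟩]
      refine le_trans ?_ le_self_add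
      exact le_rfl
    · rw [if_neg h1, if_pos h2, zero_sub, enorm_neg]
      refine le_trans ?_ le_add_self
      rw [if_pos ⟨h2, not_le.1 h1⟩]
    · rw [if_neg h1, if_neg h2]; simp
  have hSR : ∀ q, S (Φ q) ≤ R q := by
    intro q
    have e1 : (Φ q).1 + (Φ q).2 = -q.2 := by
      unfold Φ; simp only; abel
    have e2 : ‖(Φ q).2‖ = ‖q.1 + q.2‖ := by
      unfold Φ; simp only
      rw [← norm_neg]
      congr 1
      abel
    simp only [hS, hR]
    rw [e1, e2, norm_neg, T_symm hV, enorm_neg]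
  have hSint : ∫⁻ q, S q ∂((volume : Measure E).prod (volume : Measure E)) ≤
      ∫⁻ q, R q ∂((volume : Measure E).prod (volume : Measure E)) := by
    rw [← mpΦ.lintegral_comp hSm]
    exact lintegral_mono hSR
  have hmain : 2 * ‖A‖ₑ ≤ 2 * ∫⁻ q, R q ∂((volume : Measure E).prod (volume : Measure E)) := by
    calc 2 * ‖A‖ₑ = ‖(2 : ℂ) * A‖ₑ := by
          rw [enorm_mul]
          congr 1
          rw [← ofReal_norm]
          simp
      _ ≤ ∫⁻ q, ‖P q - Q q‖ₑ ∂((volume : Measure E).prod (volume : Measure E)) := by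
          rw [h2A]
          exact enorm_integral_le_lintegral_enorm _
      _ ≤ ∫⁻ q, (R q + S q) ∂((volume : Measure E).prod (volume : Measure E)) :=
          lintegral_mono hpt
      _ = (∫⁻ q, R q ∂((volume : Measure E).prod (volume : Measure E))) +
          ∫⁻ q, S q ∂((volume : Measure E).prod (volume : Measure E)) :=
          lintegral_add_left hRm _
      _ ≤ _ := by
          rw [two_mul]
          gcongr
  rw [hA, ofReal_norm]
  have h5 : ‖A‖ₑ ≤ ∫⁻ q, R q ∂((volume : Measure E).prod (volume : Measure E)) := by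
    exact (ENNReal.mul_le_mul_iff_right (by norm_num) (by norm_num)).1 hmain
  refine h5.trans (le_of_eq ?_)
  rw [lintegral_prod _ hRm.aemeasurable]


/-- `dot ζ w` for `w ⟂ η` is bounded with the sine of the angle between `ζ` and `η` -/
theorem norm_dot_sin {η ζ : E} {w : C3} (h : dot η w = 0) :
    ‖dot ζ w‖ ≤ Real.sin (InnerProductGeometry.angle ζ η) * ‖ζ‖ * ‖w‖ := by
  by_cases hη : η = 0
  · subst hη
    rw [InnerProductGeometry.angle_zero_right, Real.sin_pi_div_two, one_mul]
    exact norm_dot_le ζ w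
  have hη0 : 0 < ‖η‖ := norm_pos_iff.2 hη
  set c : ℝ := ⟪ζ, η⟫ / ‖η‖ ^ 2 with hc
  have h1 : dot ζ w = dot (ζ - c • η) w := by
    have h2 : dot (ζ - c • η) w = dot ζ w - (c : ℂ) * dot η w := by
      unfold dot
      rw [Finset.mul_sum, ← Finset.sum_sub_distrib]
      refine Finset.sum_congr rfl fun i _ => ?_
      simp only [PiLp.sub_apply, PiLp.smul_apply, smul_eq_mul]
      push_cast
      ring
    rw [h2, h]
    ring
  rw [h1]
  refine (norm_dot_le _ _).trans (le_of_eq ?_)
  congr 1
  have h3 : ‖ζ - c • η‖ ^ 2 * ‖η‖ ^ 2 = (Real.sin (InnerProductGeometry.angle ζ η) * ‖ζ‖) ^ 2 *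
      ‖η‖ ^ 2 := by
    have h4 := InnerProductGeometry.sin_angle_mul_norm_mul_norm ζ η
    have h5 : (Real.sin (InnerProductGeometry.angle ζ η) * (‖ζ‖ * ‖η‖)) ^ 2 =
        ⟪ζ, ζ⟫ * ⟪η, η⟫ - ⟪ζ, η⟫ * ⟪ζ, η⟫ := by
      rw [h4, Real.sq_sqrt]
      have := real_inner_mul_inner_self_le ζ η
      linarith
    have h6 : ‖ζ - c • η‖ ^ 2 = ‖ζ‖ ^ 2 - 2 * (c * ⟪ζ, η⟫) + c ^ 2 * ‖η‖ ^ 2 := by
      rw [norm_sub_sq_real, inner_smul_right, norm_smul, mul_pow, Real.norm_eq_abs, sq_abs]
    rw [mul_pow, mul_pow] at h5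
    rw [mul_pow, h6]
    rw [real_inner_self_eq_norm_sq, real_inner_self_eq_norm_sq] at h5
    rw [mul_assoc, h5, hc]
    field_simp
    ring
  have h7 : ‖ζ - c • η‖ ^ 2 = (Real.sin (InnerProductGeometry.angle ζ η) * ‖ζ‖) ^ 2 :=
    mul_right_cancel₀ (by positivity) h3
  have h8 : 0 ≤ Real.sin (InnerProductGeometry.angle ζ η) :=
    InnerProductGeometry.sin_angle_nonneg ζ η
  exact (pow_left_inj₀ (norm_nonneg _) (by positivity) two_ne_zero).1 h7

end TRI

end SNS
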