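import Pool.Agent.SNS.TRI1
import Pool.Agent.SNS.EST

/-! TRI: the estimate of the flux by the weight of the triads. -/

open MeasureTheory Filter Topology Set
open scoped FourierTransform SchwartzMap ContDiff ComplexConjugate RealInnerProductSpace

namespace SNS

namespace TRI

open FLX

/-- sine of the angle between `x` and `y` -/
noncomputable def sn (x y : E) : ℝ := Real.sin (InnerProductGeometry.angle x y)

theorem sn_nonneg (x y : E) : 0 ≤ sn x y := InnerProductGeometry.sin_angle_nonneg x y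

theorem sn_comm (x y : E) : sn x y = sn y x := by
  unfold sn; rw [InnerProductGeometry.angle_comm]

theorem sn_meas : Measurable (fun q : E × E => sn q.1 q.2) := by
  unfold sn InnerProductGeometry.angle
  have h1 : Measurable (fun q : E × E => ⟪q.1, q.2⟫ / (‖q.1‖ * ‖q.2‖)) :=
    (measurable_fst.inner measurable_snd).div (measurable_fst.norm.mul measurable_snd.norm)
  exact Real.continuous_sin.measurable.comp (Real.continuous_arccos.measurable.comp h1)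

theorem sn_meas' {α : Type*} [MeasurableSpace α] {f g : α → E} (hf : Measurable f)
    (hg : Measurable g) : Measurable (fun a => sn (f a) (g a)) := by
  have h1 : Measurable (fun a => (f a, g a)) := hf.prodMk hg
  have h2 := sn_meas.comp h1
  exact h2

attribute [irreducible] sn

/-- the amplitude `|ξ| |V(ξ)|` -/
noncomputable def am (V : E → C3) (ξ : E) : ENNReal := ENNReal.ofReal (‖ξ‖ * ‖V ξ‖)

/-- the amplitude cut off at `k` -/
noncomputable def ac (V : E → C3) (k : ℝ) (ξ : E) : ENNReal :=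
  {ξ : E | k ≤ ‖ξ‖}.indicator (am V) ξ

/-- the weighted product of the amplitudes in the triad `x, τ - x, τ` -/
noncomputable def Gt (V : E → C3) (k : ℝ) (τ x : E) : ENNReal :=
  {x : E | ‖x‖ < k}.indicator (fun x => ENNReal.ofReal (sn x (τ - x) / ‖x‖) *
    (am V x * ac V (k / 2) (τ - x))) x

/-- prefactor -/
noncomputable def Ct (V : E → C3) (k : ℝ) (τ : E) : ENNReal :=
  {τ : E | k ≤ ‖τ‖}.indicator (fun τ => ENNReal.ofReal (3 * k / ‖τ‖ ^ 2) * am V τ) τ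

theorem am_meas {V : E → C3} (hV : Measurable V) : Measurable (am V) := by
  unfold am
  exact ENNReal.measurable_ofReal.comp (measurable_norm.mul hV.norm)

theorem ac_meas {V : E → C3} (hV : Measurable V) (k : ℝ) : Measurable (ac V k) :=
  (am_meas hV).indicator (measurableSet_le measurable_const measurable_norm)

theorem ac_of_le (V : E → C3) {k : ℝ} {ξ : E} (h : k ≤ ‖ξ‖) : ac V k ξ = am V ξ := by
  unfold ac; rw [indicator_of_mem (by exact h)]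

theorem am_eq (V : E → C3) (ξ : E) : am V ξ = ENNReal.ofReal (‖ξ‖ * ‖V ξ‖) := rfl

theorem am_zero {V : E → C3} {ξ : E} (h : V ξ = 0) : am V ξ = 0 := by
  unfold am; rw [h]; simp

theorem ac_zero {V : E → C3} (k : ℝ) {ξ : E} (h : V ξ = 0) : ac V k ξ = 0 := by
  unfold ac
  by_cases h1 : k ≤ ‖ξ‖
  · rw [indicator_of_mem (by exact h1), am_zero h]
  · rw [indicator_of_notMem (by exact h1)]

theorem ac_sq (V : E → C3) (k : ℝ) : ∫⁻ ξ : E, ac V k ξ ^ 2 =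
    ∫⁻ ξ in {ξ : E | k ≤ ‖ξ‖}, am V ξ ^ 2 := by
  rw [← lintegral_indicator (measurableSet_le measurable_const measurable_norm)]
  refine lintegral_congr fun ξ => ?_
  unfold ac
  by_cases h1 : k ≤ ‖ξ‖
  · rw [indicator_of_mem (by exact h1), indicator_of_mem (by exact h1)]
  · rw [indicator_of_notMem (by exact h1), indicator_of_notMem (by exact h1)]
    simp

theorem am_sq (V : E → C3) (ξ : E) : am V ξ ^ 2 = ENNReal.ofReal (‖ξ‖ ^ 2 * ‖V ξ‖ ^ 2) := by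
  rw [am_eq, ← ENNReal.ofReal_pow (by positivity), mul_pow]

theorem Gt_of_lt (V : E → C3) {k : ℝ} (τ : E) {x : E} (h : ‖x‖ < k) :
    Gt V k τ x = ENNReal.ofReal (sn x (τ - x) / ‖x‖) * (am V x * ac V (k / 2) (τ - x)) := by
  unfold Gt; rw [indicator_of_mem (by exact h)]

theorem Gt_of_ge (V : E → C3) {k : ℝ} (τ : E) {x : E} (h : ¬ ‖x‖ < k) : Gt V k τ x = 0 := by
  unfold Gt; rw [indicator_of_notMem (by exact h)]

theorem Ct_of_le (V : E → C3) {k : ℝ} {τ : E} (h : k ≤ ‖τ‖) :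
    Ct V k τ = ENNReal.ofReal (3 * k / ‖τ‖ ^ 2) * am V τ := by
  unfold Ct; rw [indicator_of_mem (by exact h)]

theorem Ct_of_lt (V : E → C3) {k : ℝ} {τ : E} (h : ¬ k ≤ ‖τ‖) : Ct V k τ = 0 := by
  unfold Ct; rw [indicator_of_notMem (by exact h)]

theorem Gt_meas0 {V : E → C3} (hV : Measurable V) (k : ℝ) :
    Measurable (fun q : E × E => Gt V k q.1 q.2) := by
  have h1 : MeasurableSet {q : E × E | ‖q.2‖ < k} :=
    measurableSet_lt measurable_snd.norm measurable_const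
  have hs : Measurable (fun q : E × E => q.1 - q.2) := measurable_fst.sub measurable_snd
  have h2 : Measurable (fun q : E × E => ENNReal.ofReal (sn q.2 (q.1 - q.2) / ‖q.2‖) *
    (am V q.2 * ac V (k / 2) (q.1 - q.2))) := by
    have h3 : Measurable (fun q : E × E => ENNReal.ofReal (sn q.2 (q.1 - q.2) / ‖q.2‖)) :=
      ENNReal.measurable_ofReal.comp ((sn_meas' measurable_snd hs).div measurable_snd.norm)
    have h4 : Measurable (fun q : E × E => am V q.2) := (am_meas hV).comp measurable_snd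
    have h5 : Measurable (fun q : E × E => ac V (k / 2) (q.1 - q.2)) :=
      (ac_meas hV (k / 2)).comp hs
    exact h3.mul (h4.mul h5)
  have h3 := h2.indicator h1
  have h4 : (fun q : E × E => Gt V k q.1 q.2) = {q : E × E | ‖q.2‖ < k}.indicator
      (fun q : E × E => ENNReal.ofReal (sn q.2 (q.1 - q.2) / ‖q.2‖) *
        (am V q.2 * ac V (k / 2) (q.1 - q.2))) := by
    funext q
    by_cases h : ‖q.2‖ < k
    · rw [indicator_of_mem (by exact h), Gt_of_lt V q.1 h]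
    · rw [indicator_of_notMem (by exact h), Gt_of_ge V q.1 h]
  rw [h4]
  exact h3

theorem Gt_meas {V : E → C3} (hV : Measurable V) (k : ℝ) {α : Type*} [MeasurableSpace α]
    {f g : α → E} (hf : Measurable f) (hg : Measurable g) :
    Measurable (fun a => Gt V k (f a) (g a)) := by
  have h1 : Measurable (fun a => (f a, g a)) := hf.prodMk hg
  have h2 := (Gt_meas0 hV k).comp h1
  exact h2

theorem Ct_meas0 {V : E → C3} (hV : Measurable V) (k : ℝ) : Measurable (Ct V k) := by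
  have h1 : Measurable (fun τ : E => ENNReal.ofReal (3 * k / ‖τ‖ ^ 2)) :=
    ENNReal.measurable_ofReal.comp (measurable_const.div (measurable_norm.pow_const 2))
  exact (h1.mul (am_meas hV)).indicator (measurableSet_le measurable_const measurable_norm)

theorem Ct_meas {V : E → C3} (hV : Measurable V) (k : ℝ) {α : Type*} [MeasurableSpace α]
    {f : α → E} (hf : Measurable f) : Measurable (fun a => Ct V k (f a)) :=
  (Ct_meas0 hV k).comp hf

attribute [irreducible] Gt Ct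

/-- bound of the trilinear term -/
theorem norm_T_sin {V : E → C3} (hV : Good V) (η ζ : E) :
    ‖T V (η, ζ)‖ ≤ sn ζ η * ‖ζ‖ * ‖V η‖ * ‖V ζ‖ * ‖V (η + ζ)‖ := by
  unfold T
  rw [norm_mul]
  have h1 : ‖dot ζ (V η)‖ ≤ sn ζ η * ‖ζ‖ * ‖V η‖ := by
    have := norm_dot_sin (ζ := ζ) (hV.div η)
    unfold sn
    exact this
  have h2 : ‖inner ℂ (V (η + ζ)) (V ζ)‖ ≤ ‖V (η + ζ)‖ * ‖V ζ‖ := norm_inner_le_norm _ _
  calc ‖dot ζ (V η)‖ * ‖inner ℂ (V (η + ζ)) (V ζ)‖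
      ≤ (sn ζ η * ‖ζ‖ * ‖V η‖) * (‖V (η + ζ)‖ * ‖V ζ‖) :=
        mul_le_mul h1 h2 (norm_nonneg _) (le_trans (norm_nonneg _) h1)
    _ = _ := by ring

/-- pointwise bound -/
theorem pointwise {V : E → C3} (hV : Good V) {k : ℝ} (hk : 0 < k) {η ζ : E} (hη : η ≠ 0) :
    (if k ≤ ‖η + ζ‖ ∧ ‖ζ‖ < k then ‖T V (η, ζ)‖ₑ else 0) ≤
      Ct V k (η + ζ) * Gt V k (η + ζ) ζ + ENNReal.ofReal (1 / 2) *
        (Ct V k (η + ζ) * Gt V k (η + ζ) η) := by
  split_ifs with h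
  swap
  · exact zero_le
  obtain ⟨h1, h2⟩ := h
  have hτ0 : 0 < ‖η + ζ‖ := hk.trans_le h1
  have hη0 : 0 < ‖η‖ := norm_pos_iff.2 hη
  have hT := norm_T_sin hV η ζ
  have hTe : ‖T V (η, ζ)‖ₑ ≤
      ENNReal.ofReal (sn ζ η * ‖ζ‖ * ‖V η‖ * ‖V ζ‖ * ‖V (η + ζ)‖) := by
    rw [← ofReal_norm (x := T V (η, ζ))]
    exact ENNReal.ofReal_le_ofReal hT
  have hC : Ct V k (η + ζ) =
      ENNReal.ofReal (3 * k / ‖η + ζ‖ ^ 2 * (‖η + ζ‖ * ‖V (η + ζ)‖)) := by
    rw [Ct_of_le V h1, am_eq, ← ENNReal.ofReal_mul (by positivity)]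
  have hsn := sn_nonneg ζ η
  have htri : ‖η + ζ‖ ≤ ‖η‖ + ‖ζ‖ := norm_add_le _ _
  by_cases h3 : k / 2 ≤ ‖η‖
  · refine le_trans ?_ le_self_add
    by_cases hζ : ζ = 0
    · refine hTe.trans ?_
      rw [hζ, norm_zero]
      simp
    have hζ0 : 0 < ‖ζ‖ := norm_pos_iff.2 hζ
    have hG : Gt V k (η + ζ) ζ =
        ENNReal.ofReal (sn ζ η / ‖ζ‖ * (‖ζ‖ * ‖V ζ‖ * (‖η‖ * ‖V η‖))) := by
      have e1 : η + ζ - ζ = η := by abel
      rw [Gt_of_lt V _ h2, e1, ac_of_le V h3, am_eq, am_eq, ← ENNReal.ofReal_mul (by positivity),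
        ← ENNReal.ofReal_mul (by positivity)]
    rw [hC, hG, ← ENNReal.ofReal_mul (by positivity)]
    refine hTe.trans (ENNReal.ofReal_le_ofReal ?_)
    have e2 : 3 * k / ‖η + ζ‖ ^ 2 * (‖η + ζ‖ * ‖V (η + ζ)‖) *
        (sn ζ η / ‖ζ‖ * (‖ζ‖ * ‖V ζ‖ * (‖η‖ * ‖V η‖))) =
        (3 * k * ‖η‖ / ‖η + ζ‖) * (sn ζ η * ‖V η‖ * ‖V ζ‖ * ‖V (η + ζ)‖) := by
      field_simp
    rw [e2]
    have e3 : ‖ζ‖ ≤ 3 * k * ‖η‖ / ‖η + ζ‖ := by
      rw [le_div_iff₀ hτ0]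
      nlinarith
    calc sn ζ η * ‖ζ‖ * ‖V η‖ * ‖V ζ‖ * ‖V (η + ζ)‖
        = ‖ζ‖ * (sn ζ η * ‖V η‖ * ‖V ζ‖ * ‖V (η + ζ)‖) := by ring
      _ ≤ _ := by gcongr
  · refine le_trans ?_ le_add_self
    have h4 : ‖η‖ < k := by linarith [not_le.1 h3]
    have h5 : k / 2 ≤ ‖ζ‖ := by linarith [not_le.1 h3]
    have hG : Gt V k (η + ζ) η =
        ENNReal.ofReal (sn ζ η / ‖η‖ * (‖η‖ * ‖V η‖ * (‖ζ‖ * ‖V ζ‖))) := by
      have e1 : η + ζ - η = ζ := by abel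
      rw [Gt_of_lt V _ h4, e1, ac_of_le V h5, am_eq, am_eq, sn_comm η ζ,
        ← ENNReal.ofReal_mul (by positivity), ← ENNReal.ofReal_mul (by positivity)]
    rw [hC, hG, ← ENNReal.ofReal_mul (by positivity), ← ENNReal.ofReal_mul (by positivity)]
    refine hTe.trans (ENNReal.ofReal_le_ofReal ?_)
    have e2 : 1 / 2 * (3 * k / ‖η + ζ‖ ^ 2 * (‖η + ζ‖ * ‖V (η + ζ)‖) *
        (sn ζ η / ‖η‖ * (‖η‖ * ‖V η‖ * (‖ζ‖ * ‖V ζ‖)))) =
        (3 * k / (2 * ‖η + ζ‖)) * (sn ζ η * ‖ζ‖ * ‖V η‖ * ‖V ζ‖ * ‖V (η + ζ)‖) := by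
      field_simp
    rw [e2]
    have e3 : 1 ≤ 3 * k / (2 * ‖η + ζ‖) := by
      rw [le_div_iff₀ (by positivity)]
      linarith [not_le.1 h3]
    have e4 : 0 ≤ sn ζ η * ‖ζ‖ * ‖V η‖ * ‖V ζ‖ * ‖V (η + ζ)‖ := by positivity
    nlinarith

/-- the double integral of `Ct * Gt` -/
noncomputable def It (V : E → C3) (k : ℝ) : ENNReal := ∫⁻ τ : E, ∫⁻ x : E, Ct V k τ * Gt V k τ x

theorem CG_meas {V : E → C3} (hV : Measurable V) (k : ℝ) {α : Type*} [MeasurableSpace α]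
    {f g : α → E} (hf : Measurable f) (hg : Measurable g) :
    Measurable (fun a => Ct V k (f a) * Gt V k (f a) (g a)) :=
  (Ct_meas hV k hf).mul (Gt_meas hV k hf hg)

theorem int_one {V : E → C3} (hV : Measurable V) (k : ℝ) :
    ∫⁻ η : E, ∫⁻ ζ : E, Ct V k (η + ζ) * Gt V k (η + ζ) ζ = It V k := by
  have hm : Measurable (fun q : E × E => Ct V k (q.1 + q.2) * Gt V k (q.1 + q.2) q.2) :=
    CG_meas hV k (measurable_fst.add measurable_snd) measurable_snd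
  rw [lintegral_lintegral_swap hm.aemeasurable]
  have h1 : ∀ ζ : E, ∫⁻ η : E, Ct V k (η + ζ) * Gt V k (η + ζ) ζ =
      ∫⁻ τ : E, Ct V k τ * Gt V k τ ζ := fun ζ =>
    lintegral_add_right_eq_self (fun τ => Ct V k τ * Gt V k τ ζ) ζ
  simp_rw [h1]
  unfold It
  rw [lintegral_lintegral_swap]
  exact (CG_meas hV k measurable_snd measurable_fst).aemeasurable

theorem int_two {V : E → C3} (hV : Measurable V) (k : ℝ) :
    ∫⁻ η : E, ∫⁻ ζ : E, Ct V k (η + ζ) * Gt V k (η + ζ) η = It V k := by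
  have h1 : ∀ η : E, ∫⁻ ζ : E, Ct V k (η + ζ) * Gt V k (η + ζ) η =
      ∫⁻ τ : E, Ct V k τ * Gt V k τ η := fun η =>
    lintegral_add_left_eq_self (fun τ => Ct V k τ * Gt V k τ η) η
  simp_rw [h1]
  unfold It
  rw [lintegral_lintegral_swap]
  exact (CG_meas hV k measurable_snd measurable_fst).aemeasurable

theorem le_It {V : E → C3} (hV : Good V) {k : ℝ} (hk : 0 < k) :
    ∫⁻ η : E, ∫⁻ ζ : E, (if k ≤ ‖η + ζ‖ ∧ ‖ζ‖ < k then ‖T V (η, ζ)‖ₑ else 0) ≤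
      ENNReal.ofReal (3 / 2) * It V k := by
  have hVm := hV.meas
  have h0 : ∀ᵐ η : E, η ≠ 0 := (ae_iff).2 (by simp)
  have hm1 : Measurable (fun q : E × E => Ct V k (q.1 + q.2) * Gt V k (q.1 + q.2) q.2) :=
    CG_meas hVm k (measurable_fst.add measurable_snd) measurable_snd
  calc ∫⁻ η : E, ∫⁻ ζ : E, (if k ≤ ‖η + ζ‖ ∧ ‖ζ‖ < k then ‖T V (η, ζ)‖ₑ else 0)
      ≤ ∫⁻ η : E, ∫⁻ ζ : E, (Ct V k (η + ζ) * Gt V k (η + ζ) ζ + ENNReal.ofReal (1 / 2) *
        (Ct V k (η + ζ) * Gt V k (η + ζ) η)) := by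
        refine lintegral_mono_ae ?_
        filter_upwards [h0] with η hη
        exact lintegral_mono fun ζ => pointwise hV hk hη
    _ = ∫⁻ η : E, ((∫⁻ ζ : E, Ct V k (η + ζ) * Gt V k (η + ζ) ζ) + ENNReal.ofReal (1 / 2) *
        ∫⁻ ζ : E, Ct V k (η + ζ) * Gt V k (η + ζ) η) := by
        refine lintegral_congr fun η => ?_
        have hm : Measurable (fun ζ : E => Ct V k (η + ζ) * Gt V k (η + ζ) ζ) :=
          CG_meas hVm k (measurable_const.add measurable_id) measurable_id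
        rw [lintegral_add_left hm, lintegral_const_mul' _ _ ENNReal.ofReal_ne_top]
    _ = (∫⁻ η : E, ∫⁻ ζ : E, Ct V k (η + ζ) * Gt V k (η + ζ) ζ) + ENNReal.ofReal (1 / 2) *
        ∫⁻ η : E, ∫⁻ ζ : E, Ct V k (η + ζ) * Gt V k (η + ζ) η := by
        rw [lintegral_add_left, lintegral_const_mul' _ _ ENNReal.ofReal_ne_top]
        exact Measurable.lintegral_prod_right hm1
    _ = (ENNReal.ofReal 1 + ENNReal.ofReal (1 / 2)) * It V k := by
        rw [int_one hVm, int_two hVm, add_mul, ENNReal.ofReal_one, one_mul]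
    _ = _ := by
        rw [← ENNReal.ofReal_add (by norm_num) (by norm_num)]
        norm_num

/-- Cauchy-Schwarz in `x` for fixed `τ` -/
theorem cs_x {V : E → C3} (hV : Measurable V) {S : Set E} (hS : MeasurableSet S)
    (hVS : ∀ᵐ ξ : E, ξ ∉ S → V ξ = 0) (k : ℝ) (τ : E) :
    ∫⁻ x : E, Gt V k τ x ≤
      (∫⁻ x in {x : E | ‖x‖ < k ∧ x ∈ S ∧ τ - x ∈ S},
        ENNReal.ofReal (sn x (τ - x) ^ 2 / ‖x‖ ^ 2)) ^ (1 / 2 : ℝ) *
      (∫⁻ x in {x : E | ‖x‖ < k}, am V x ^ 2 * ac V (k / 2) (τ - x) ^ 2) ^ (1 / 2 : ℝ) := by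
  set P : Set E := {x : E | ‖x‖ < k ∧ x ∈ S ∧ τ - x ∈ S} with hP
  have hB : MeasurableSet {x : E | ‖x‖ < k} := measurableSet_lt measurable_norm measurable_const
  have hPm : MeasurableSet P := by
    refine hB.inter (hS.inter ?_)
    exact (measurable_const.sub measurable_id) hS
  have hVS' : ∀ᵐ x : E, τ - x ∉ S → V (τ - x) = 0 :=
    (Measure.measurePreserving_sub_left (volume : Measure E) τ).quasiMeasurePreserving.ae hVS
  set f : E → ENNReal := fun x => ENNReal.ofReal (sn x (τ - x) / ‖x‖) with hf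
  set g : E → ENNReal := fun x => am V x * ac V (k / 2) (τ - x) with hg
  have hfm : Measurable f := by
    exact ENNReal.measurable_ofReal.comp ((sn_meas' measurable_id
      (measurable_const.sub measurable_id)).div measurable_norm)
  have hgm : Measurable g :=
    (am_meas hV).mul ((ac_meas hV (k / 2)).comp (measurable_const.sub measurable_id))
  have h1 : ∫⁻ x : E, Gt V k τ x = ∫⁻ x in P, f x * g x := by
    rw [← lintegral_indicator hPm]
    refine lintegral_congr_ae ?_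
    filter_upwards [hVS, hVS'] with x h2 h3
    by_cases h4 : ‖x‖ < k
    · rw [Gt_of_lt V _ h4]
      by_cases h5 : x ∈ P
      · rw [indicator_of_mem h5]
      · rw [indicator_of_notMem h5]
        by_cases h6 : x ∈ S
        · have h7 : τ - x ∉ S := fun h => h5 ⟨h4, h6, h⟩
          have h8 : ac V (k / 2) (τ - x) = 0 := ac_zero _ (h3 h7)
          rw [h8]; simp
        · have h8 : am V x = 0 := am_zero (h2 h6)
          rw [h8]; simp
    · rw [Gt_of_ge V _ h4, indicator_of_notMem (fun h => h4 h.1)]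
  rw [h1]
  refine (LOW.cs hfm hgm P).trans ?_
  have h2 : ∫⁻ x in P, f x ^ 2 = ∫⁻ x in P, ENNReal.ofReal (sn x (τ - x) ^ 2 / ‖x‖ ^ 2) := by
    refine lintegral_congr fun x => ?_
    rw [hf]
    simp only
    rw [← ENNReal.ofReal_pow (div_nonneg (sn_nonneg _ _) (norm_nonneg _)), div_pow]
  have h3 : ∫⁻ x in P, g x ^ 2 ≤
      ∫⁻ x in {x : E | ‖x‖ < k}, am V x ^ 2 * ac V (k / 2) (τ - x) ^ 2 := by
    have e1 : ∀ x, g x ^ 2 = am V x ^ 2 * ac V (k / 2) (τ - x) ^ 2 := fun x => mul_pow _ _ _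
    simp_rw [e1]
    exact lintegral_mono_set fun x hx => hx.1
  rw [h2]
  gcongr

/-- the estimate -/
theorem It_le {V : E → C3} (hV : Measurable V) {k M : ℝ} (hk : 0 < k) (hM : 0 ≤ M)
    {S : Set E} (hS : MeasurableSet S) (hVS : ∀ᵐ ξ : E, ξ ∉ S → V ξ = 0)
    (hN : ∀ τ ∈ S, k ≤ ‖τ‖ → ∫⁻ x in {x : E | ‖x‖ < k ∧ x ∈ S ∧ τ - x ∈ S},
        ENNReal.ofReal (sn x (τ - x) ^ 2 / ‖x‖ ^ 2) ≤
        ENNReal.ofReal (M ^ 2 * ‖τ‖ ^ 4 / k ^ 2)) :
    It V k ≤ ENNReal.ofReal (3 * M) *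
      ((∫⁻ ξ in {ξ : E | k ≤ ‖ξ‖}, am V ξ ^ 2) ^ (1 / 2 : ℝ) *
      ((∫⁻ ξ in {ξ : E | ‖ξ‖ < k}, am V ξ ^ 2) ^ (1 / 2 : ℝ) *
      (∫⁻ ξ in {ξ : E | k / 2 ≤ ‖ξ‖}, am V ξ ^ 2) ^ (1 / 2 : ℝ))) := by
  set Q : E → ENNReal := fun τ =>
    ∫⁻ x in {x : E | ‖x‖ < k}, am V x ^ 2 * ac V (k / 2) (τ - x) ^ 2 with hQ
  set H : ENNReal := ∫⁻ ξ in {ξ : E | k ≤ ‖ξ‖}, am V ξ ^ 2 with hH
  set K : ENNReal := ∫⁻ ξ in {ξ : E | k / 2 ≤ ‖ξ‖}, am V ξ ^ 2 with hK
  set L : ENNReal := ∫⁻ ξ in {ξ : E | ‖ξ‖ < k}, am V ξ ^ 2 with hL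
  have ham := am_meas hV
  have hac := ac_meas hV (k / 2)
  have hqm : Measurable (fun q : E × E => am V q.2 ^ 2 * ac V (k / 2) (q.1 - q.2) ^ 2) :=
    ((ham.comp measurable_snd).pow_const 2).mul
      ((hac.comp (measurable_fst.sub measurable_snd)).pow_const 2)
  have hQm : Measurable Q := Measurable.lintegral_prod_right hqm
  have h1 : ∀ᵐ τ : E, ∫⁻ x : E, Ct V k τ * Gt V k τ x ≤
      ENNReal.ofReal (3 * M) * (ac V k τ * Q τ ^ (1 / 2 : ℝ)) := by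
    filter_upwards [hVS] with τ hτ
    have hGm : Measurable (fun x => Gt V k τ x) := Gt_meas hV k measurable_const measurable_id
    rw [lintegral_const_mul _ hGm]
    by_cases h2 : k ≤ ‖τ‖
    swap
    · rw [Ct_of_lt V h2, zero_mul]; exact zero_le
    by_cases h4 : τ ∈ S
    swap
    · rw [Ct_of_le V h2, am_zero (hτ h4), mul_zero, zero_mul]; exact zero_le
    have hτ0 : 0 < ‖τ‖ := hk.trans_le h2
    have h5 : Ct V k τ = ENNReal.ofReal (3 * k / ‖τ‖ ^ 2) * am V τ := Ct_of_le V h2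
    have h6 : (ENNReal.ofReal (M ^ 2 * ‖τ‖ ^ 4 / k ^ 2)) ^ (1 / 2 : ℝ) =
        ENNReal.ofReal (M * ‖τ‖ ^ 2 / k) := by
      rw [ENNReal.ofReal_rpow_of_nonneg (by positivity) (by norm_num)]
      congr 1
      rw [← Real.sqrt_eq_rpow, show M ^ 2 * ‖τ‖ ^ 4 / k ^ 2 = (M * ‖τ‖ ^ 2 / k) ^ 2 by ring]
      exact Real.sqrt_sq (by positivity)
    calc Ct V k τ * ∫⁻ x : E, Gt V k τ x
        ≤ (ENNReal.ofReal (3 * k / ‖τ‖ ^ 2) * am V τ) *
            (ENNReal.ofReal (M * ‖τ‖ ^ 2 / k) * Q τ ^ (1 / 2 : ℝ)) := by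
          rw [h5]
          gcongr
          refine (cs_x hV hS hVS k τ).trans ?_
          rw [← h6]
          gcongr
          exact hN τ h4 h2
      _ = (ENNReal.ofReal (3 * k / ‖τ‖ ^ 2) * ENNReal.ofReal (M * ‖τ‖ ^ 2 / k)) *
            (am V τ * Q τ ^ (1 / 2 : ℝ)) := by ring
      _ = _ := by
          rw [← ENNReal.ofReal_mul (by positivity), ac_of_le V h2]
          congr 2
          field_simp
  have h2 : ∫⁻ τ : E, Q τ = L * K := by
    rw [hQ]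
    rw [lintegral_lintegral_swap hqm.aemeasurable]
    have e1 : ∀ x : E, ∫⁻ τ : E, am V x ^ 2 * ac V (k / 2) (τ - x) ^ 2 = am V x ^ 2 * K := by
      intro x
      have hm : Measurable (fun τ : E => ac V (k / 2) (τ - x) ^ 2) := by
        have h7 : Measurable (fun τ : E => τ - x) := measurable_id.sub measurable_const
        have h8 := (hac.comp h7).pow_const 2
        exact h8
      rw [lintegral_const_mul _ hm]
      congr 1
      rw [hK, ← ac_sq V (k / 2)]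
      exact lintegral_sub_right_eq_self (fun τ => ac V (k / 2) τ ^ 2) x
    simp_rw [e1]
    rw [lintegral_mul_const _ (ham.pow_const 2)]
  have h3 := LOW.cs (ac_meas hV k) (hQm.pow_const (1 / 2 : ℝ)) univ
  simp only [Measure.restrict_univ] at h3
  have h4 : ∀ τ, (Q τ ^ (1 / 2 : ℝ)) ^ 2 = Q τ := by
    intro τ
    rw [← ENNReal.rpow_natCast, ← ENNReal.rpow_mul]
    norm_num
  simp_rw [h4] at h3
  rw [h2, ac_sq] at h3
  unfold It
  calc ∫⁻ τ : E, ∫⁻ x : E, Ct V k τ * Gt V k τ x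
      ≤ ∫⁻ τ : E, ENNReal.ofReal (3 * M) * (ac V k τ * Q τ ^ (1 / 2 : ℝ)) := lintegral_mono_ae h1
    _ = ENNReal.ofReal (3 * M) * ∫⁻ τ : E, ac V k τ * Q τ ^ (1 / 2 : ℝ) :=
        lintegral_const_mul' _ _ ENNReal.ofReal_ne_top
    _ ≤ ENNReal.ofReal (3 * M) * (H ^ (1 / 2 : ℝ) * (L * K) ^ (1 / 2 : ℝ)) := by gcongr
    _ = _ := by
        rw [ENNReal.mul_rpow_of_nonneg _ _ (by norm_num : (0 : ℝ) ≤ 1 / 2)]

/-- the flux estimate -/
theorem flux_le {V : E → C3} (hV : Good V) {k M : ℝ} (hk : 0 < k) (hM : 0 ≤ M)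
    {S : Set E} (hS : MeasurableSet S) (hVS : ∀ᵐ ξ : E, ξ ∉ S → V ξ = 0)
    (hN : ∀ τ ∈ S, k ≤ ‖τ‖ → ∫⁻ x in {x : E | ‖x‖ < k ∧ x ∈ S ∧ τ - x ∈ S},
        ENNReal.ofReal (sn x (τ - x) ^ 2 / ‖x‖ ^ 2) ≤
        ENNReal.ofReal (M ^ 2 * ‖τ‖ ^ 4 / k ^ 2)) :
    ENNReal.ofReal ‖∫ η : E, ∫ ζ : E,
      (if k ≤ ‖η + ζ‖ then dot ζ (V η) * inner ℂ (V (η + ζ)) (V ζ) else 0)‖ ≤
    ENNReal.ofReal (9 / 2 * M) *
      ((∫⁻ ξ in {ξ : E | k ≤ ‖ξ‖}, am V ξ ^ 2) ^ (1 / 2 : ℝ) *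
      ((∫⁻ ξ in {ξ : E | ‖ξ‖ < k}, am V ξ ^ 2) ^ (1 / 2 : ℝ) *
      (∫⁻ ξ in {ξ : E | k / 2 ≤ ‖ξ‖}, am V ξ ^ 2) ^ (1 / 2 : ℝ))) := by
  refine (flux2 hV hk).trans ((le_It hV hk).trans ?_)
  refine (mul_le_mul_right (It_le hV.meas hk hM hS hVS hN) _).trans (le_of_eq ?_)
  rw [← mul_assoc, ← ENNReal.ofReal_mul (by norm_num)]
  congr 2
  ring

end TRI

end SNS
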