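import Pool.Agent.SNS.TRI2
import Pool.Agent.SNS.Fin

/-! TRI: the inequality for D-solutions. -/

open MeasureTheory Filter Topology Set
open scoped FourierTransform SchwartzMap ContDiff ComplexConjugate RealInnerProductSpace

namespace SNS

namespace TRI

open FIN

variable {ν : ℝ} {v : E → E} {p : E → ℝ}

/-- the trilinear flux -/
noncomputable def fl (V : E → C3) (k : ℝ) : ℂ := ∫ η : E, ∫ ζ : E,
  (if k ≤ ‖η + ζ‖ then dot ζ (V η) * inner ℂ (V (η + ζ)) (V ζ) else 0)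

theorem core (hν : 0 < ν) (hv : ContDiff ℝ 2 v) (hp : Differentiable ℝ p)
    (hNS : SteadyNS ν v p) (h0 : Tendsto v (cocompact E) (𝓝 0))
    (h2 : ∀ i j, MemLp (G v i j) 2 (volume : Measure E)) :
    ∃ V : E → C3, Good V ∧ (∀ j x, (v x j : ℂ) = 𝓕⁻ (fun ξ => V ξ j) x) ∧
      Integrable (en V) (volume : Measure E) ∧
      ∀ k : ℝ, 0 < k → 2 * Real.pi * ν * ∫ ξ in {ξ : E | k ≤ ‖ξ‖}, en V ξ = ‖fl V k‖ := by
  have hN := MAIN.Nl_mem hv h0 h2
  obtain ⟨V, hV, hGV, hE⟩ := choice hν (fun i j => (Gh v h2 i j : E → ℂ))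
    (fun j => (MAIN.F hN j : E → ℂ)) (fun i j => Lp.memLp _) (fun j => Lp.memLp _)
    (MAIN.curl_ae hv h2) (MAIN.div_ae hv hNS h2)
    (fun i j => IsFT.real (g := pd i (fun y => v y j)) (MAIN.isFT_G h2 i j))
    (MAIN.press_ae hv hp hNS h2 hN)
  have hd : dens v h2 =ᵐ[volume] fun ξ => 4 * Real.pi ^ 2 * en V ξ := MAIN.dens_eq h2 hGV
  refine ⟨V, hV, fun j => ?_, en_integrable h2 hd, fun k hk => ?_⟩
  · have hft : ∀ i j, IsFT (G v i j) (fun ξ => 2 * Real.pi * Complex.I * (ξ i : ℂ) * V ξ j) :=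
      fun i j => (MAIN.isFT_G h2 i j).congr EventuallyEq.rfl (hGV i j)
    refine inversion (w := fun y => v y j) ((MAIN.comp_contDiff hv j).of_le (by norm_num)) ?_
      (MAIN.comp_int hV.int j) (fun i => hft i j)
    have h1 := ((EuclideanSpace.proj j : E →L[ℝ] ℝ).continuous.tendsto 0).comp h0
    simpa [Function.comp_def] using h1
  · have hen := MAIN.energy hv h0 h2 hN hV hGV hE hk
    have h4 := congrArg norm hen
    have hh : ∫ ξ in {ξ : E | k ≤ ‖ξ‖}, dens v h2 ξ =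
        4 * Real.pi ^ 2 * ∫ ξ in {ξ : E | k ≤ ‖ξ‖}, en V ξ := by
      rw [← integral_const_mul]
      exact integral_congr_ae (ae_restrict_of_ae hd)
    have hhigh0 : 0 ≤ ∫ ξ in {ξ : E | k ≤ ‖ξ‖}, en V ξ := integral_nonneg fun ξ => en_nonneg V ξ
    rw [hh, Complex.norm_real, norm_neg, Real.norm_of_nonneg (by positivity)] at h4
    have h5 : ‖(2 * Real.pi * Complex.I * fl V k : ℂ)‖ = 2 * Real.pi * ‖fl V k‖ := by
      simp only [norm_mul, Complex.norm_I, Complex.norm_real, RCLike.norm_ofNat, mul_one,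
        Real.norm_of_nonneg Real.pi_pos.le]
    have h6 : ν * (4 * Real.pi ^ 2 * ∫ ξ in {ξ : E | k ≤ ‖ξ‖}, en V ξ) =
        2 * Real.pi * ‖fl V k‖ := by
      rw [← h5]; exact h4
    have h7 : 2 * Real.pi * (2 * Real.pi * ν * ∫ ξ in {ξ : E | k ≤ ‖ξ‖}, en V ξ) =
        2 * Real.pi * ‖fl V k‖ := by
      rw [← h6]; ring
    exact mul_left_cancel₀ (by positivity) h7

/-! ### the weight of the triads as a real number -/

/-- the integrand -/
noncomputable def wt (τ x : E) : ℝ := sn x (τ - x) ^ 2 / ‖x‖ ^ 2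

theorem wt_nonneg (τ x : E) : 0 ≤ wt τ x := by unfold wt; positivity

theorem sn_le_one (x y : E) : sn x y ≤ 1 := by
  unfold sn; exact Real.sin_le_one _

theorem wt_le (τ x : E) : wt τ x ≤ (‖x‖ ^ 2)⁻¹ := by
  unfold wt
  rw [div_eq_mul_inv]
  have h1 : sn x (τ - x) ^ 2 ≤ 1 := pow_le_one₀ (sn_nonneg _ _) (sn_le_one _ _)
  have h2 : 0 ≤ (‖x‖ ^ 2)⁻¹ := by positivity
  nlinarith

theorem wt_meas (τ : E) : Measurable (wt τ) := by
  have h1 : Measurable (fun x : E => sn x (τ - x)) :=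
    sn_meas' measurable_id (measurable_const.sub measurable_id)
  exact (h1.pow_const 2).div (measurable_norm.pow_const 2)

theorem inv_integrable {k : ℝ} (hk : 0 < k) :
    IntegrableOn (fun x : E => (‖x‖ ^ 2)⁻¹) {x : E | ‖x‖ < k} := by
  refine ⟨(measurable_norm.pow_const 2).inv.aestronglyMeasurable, ?_⟩
  rw [hasFiniteIntegral_iff_ofReal (Eventually.of_forall fun x => by positivity),
    LOW.lint_inv_sq hk]
  exact ENNReal.ofReal_lt_top

theorem inv_integral {k : ℝ} (hk : 0 < k) :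
    ∫ x in {x : E | ‖x‖ < k}, (‖x‖ ^ 2)⁻¹ = 4 * Real.pi * k := by
  have hm : Measurable (fun x : E => (‖x‖ ^ 2)⁻¹) := (measurable_norm.pow_const 2).inv
  rw [integral_eq_lintegral_of_nonneg_ae (Eventually.of_forall fun x => by positivity)
    hm.aestronglyMeasurable, LOW.lint_inv_sq hk, ENNReal.toReal_ofReal (by positivity)]

theorem wt_integrable {k : ℝ} (hk : 0 < k) (τ : E) {P : Set E} (hP : P ⊆ {x : E | ‖x‖ < k}) :
    IntegrableOn (wt τ) P := by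
  refine IntegrableOn.mono_set ?_ hP
  refine (inv_integrable hk).mono' (wt_meas τ).aestronglyMeasurable
    (Eventually.of_forall fun x => ?_)
  rw [Real.norm_of_nonneg (wt_nonneg τ x)]
  exact wt_le τ x

/-- the weight of the triads -/
noncomputable def tw (S : Set E) (k : ℝ) (τ : E) : ℝ :=
  ∫ x in {x : E | ‖x‖ < k ∧ x ∈ S ∧ τ - x ∈ S}, wt τ x

theorem tw_nonneg (S : Set E) (k : ℝ) (τ : E) : 0 ≤ tw S k τ :=
  integral_nonneg fun x => wt_nonneg τ x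

theorem tw_le {k : ℝ} (hk : 0 < k) (S : Set E) (τ : E) : tw S k τ ≤ 4 * Real.pi * k := by
  rw [← inv_integral hk]
  unfold tw
  have h1 : ∫ x in {x : E | ‖x‖ < k ∧ x ∈ S ∧ τ - x ∈ S}, wt τ x ≤
      ∫ x in {x : E | ‖x‖ < k}, wt τ x := by
    refine setIntegral_mono_set (wt_integrable hk τ Subset.rfl)
      (Eventually.of_forall fun x => wt_nonneg τ x) ?_
    exact Eventually.of_forall fun x hx => hx.1
  refine h1.trans ?_
  exact integral_mono (wt_integrable hk τ Subset.rfl) (inv_integrable hk) fun x => wt_le τ x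

theorem tw_lint {k : ℝ} (hk : 0 < k) (S : Set E) (τ : E) :
    ∫⁻ x in {x : E | ‖x‖ < k ∧ x ∈ S ∧ τ - x ∈ S},
      ENNReal.ofReal (sn x (τ - x) ^ 2 / ‖x‖ ^ 2) = ENNReal.ofReal (tw S k τ) := by
  unfold tw
  rw [ofReal_integral_eq_lintegral_ofReal (wt_integrable hk τ fun x hx => hx.1)
    (Eventually.of_forall fun x => wt_nonneg τ x)]
  rfl

/-- the bound of the flux, real form -/
theorem fl_le {V : E → C3} (hV : Good V) (hi : Integrable (en V) (volume : Measure E))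
    {k M : ℝ} (hk : 0 < k) (hM : 0 ≤ M)
    {S : Set E} (hS : MeasurableSet S) (hVS : ∀ᵐ ξ : E, ξ ∉ S → V ξ = 0)
    (hN : ∀ τ ∈ S, k ≤ ‖τ‖ → k ^ 2 * tw S k τ ≤ M ^ 2 * ‖τ‖ ^ 4) :
    ‖fl V k‖ ≤ 9 / 2 * M * (Real.sqrt (∫ ξ in {ξ : E | k ≤ ‖ξ‖}, en V ξ) *
      (Real.sqrt (∫ ξ in {ξ : E | ‖ξ‖ < k}, en V ξ) *
      Real.sqrt (∫ ξ in {ξ : E | k / 2 ≤ ‖ξ‖}, en V ξ))) := by
  have h1 := flux_le hV hk hM hS hVS (fun τ hτ hkτ => by
    rw [tw_lint hk S τ]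
    refine ENNReal.ofReal_le_ofReal ?_
    rw [le_div_iff₀ (by positivity)]
    have := hN τ hτ hkτ
    linarith)
  have e2 : ∀ s : Set E, ∫⁻ ξ in s, am V ξ ^ 2 = ENNReal.ofReal (∫ ξ in s, en V ξ) := by
    intro s
    rw [ofReal_integral_eq_lintegral_ofReal hi.integrableOn
      (Eventually.of_forall fun ξ => en_nonneg V ξ)]
    exact lintegral_congr fun ξ => am_sq V ξ
  have hL : ∀ s : Set E, 0 ≤ ∫ ξ in s, en V ξ := fun s => integral_nonneg fun ξ => en_nonneg V ξ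
  have e3 : ∀ s : Set E, (ENNReal.ofReal (∫ ξ in s, en V ξ)) ^ (1 / 2 : ℝ) =
      ENNReal.ofReal (Real.sqrt (∫ ξ in s, en V ξ)) := by
    intro s
    rw [ENNReal.ofReal_rpow_of_nonneg (hL s) (by norm_num), ← Real.sqrt_eq_rpow]
  rw [e2, e2, e2, e3, e3, e3, ← ENNReal.ofReal_mul (by positivity),
    ← ENNReal.ofReal_mul (by positivity), ← ENNReal.ofReal_mul (by positivity),
    ENNReal.ofReal_le_ofReal_iff (by positivity)] at h1
  exact h1

/-- the inequality for every spectrum -/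
theorem bound (hν : 0 < ν) (hv : ContDiff ℝ 2 v) (hp : Differentiable ℝ p)
    (hNS : SteadyNS ν v p) (h0 : Tendsto v (cocompact E) (𝓝 0))
    (h2 : ∀ i j, MemLp (G v i j) 2 (volume : Measure E)) {V : E → C3}
    (hV : Integrable V (volume : Measure E))
    (hvV : ∀ j x, (v x j : ℂ) = 𝓕⁻ (fun ξ => V ξ j) x)
    {k M : ℝ} (hk : 0 < k) (hM : 0 ≤ M)
    {S : Set E} (hS : MeasurableSet S) (hVS : ∀ᵐ ξ : E, ξ ∉ S → V ξ = 0)
    (hN : ∀ τ ∈ S, k ≤ ‖τ‖ → k ^ 2 * tw S k τ ≤ M ^ 2 * ‖τ‖ ^ 4) :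
    ν ^ 2 * ∫ ξ in {ξ : E | k ≤ ‖ξ‖}, en V ξ ≤
      M ^ 2 * (∫ ξ in {ξ : E | ‖ξ‖ < k}, en V ξ) * ∫ ξ in {ξ : E | k / 2 ≤ ‖ξ‖}, en V ξ := by
  obtain ⟨V0, hV0, hinv, hi, hfl⟩ := core hν hv hp hNS h0 h2
  have h3 : V =ᵐ[volume] V0 := unique_vec hV hV0.int fun j x => by rw [← hvV, ← hinv]
  have h4 : en V =ᵐ[volume] en V0 := by
    filter_upwards [h3] with ξ h5
    unfold en; rw [h5]
  have hVS0 : ∀ᵐ ξ : E, ξ ∉ S → V0 ξ = 0 := by
    filter_upwards [h3, hVS] with ξ h5 h6 h7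
    rw [← h5]; exact h6 h7
  have e1 : ∀ s : Set E, ∫ ξ in s, en V ξ = ∫ ξ in s, en V0 ξ := fun s =>
    integral_congr_ae (ae_restrict_of_ae h4)
  rw [e1, e1, e1]
  have h5 := fl_le hV0 hi hk hM hS hVS0 hN
  rw [← hfl k hk] at h5
  have hn : ∀ s : Set E, 0 ≤ ∫ ξ in s, en V0 ξ := fun s =>
    integral_nonneg fun ξ => en_nonneg V0 ξ
  have hHn := hn {ξ : E | k ≤ ‖ξ‖}
  have hLn := hn {ξ : E | ‖ξ‖ < k}
  have hKn := hn {ξ : E | k / 2 ≤ ‖ξ‖}
  set H := ∫ ξ in {ξ : E | k ≤ ‖ξ‖}, en V0 ξ with hH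
  set L := ∫ ξ in {ξ : E | ‖ξ‖ < k}, en V0 ξ with hL
  set K := ∫ ξ in {ξ : E | k / 2 ≤ ‖ξ‖}, en V0 ξ with hK
  rcases hHn.eq_or_lt with h6 | h6
  · rw [← h6, mul_zero]; positivity
  set a := Real.sqrt H with ha
  set b := Real.sqrt L with hb
  set c := Real.sqrt K with hc
  have ha0 : 0 < a := Real.sqrt_pos.2 h6
  have hb0 : 0 ≤ b := Real.sqrt_nonneg _
  have hc0 : 0 ≤ c := Real.sqrt_nonneg _
  have ha2 : a ^ 2 = H := Real.sq_sqrt hHn
  have hb2 : b ^ 2 = L := Real.sq_sqrt hLn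
  have hc2 : c ^ 2 = K := Real.sq_sqrt hKn
  rw [← ha2] at h5 ⊢
  rw [← hb2, ← hc2]
  have h7 : 2 * Real.pi * a * (ν * a) ≤ 2 * Real.pi * a * (M * b * c) := by
    calc 2 * Real.pi * a * (ν * a) = 2 * Real.pi * ν * a ^ 2 := by ring
      _ ≤ 9 / 2 * M * (a * (b * c)) := h5
      _ = 9 / 2 * (a * (M * b * c)) := by ring
      _ ≤ 2 * Real.pi * (a * (M * b * c)) := by
          have h9 := Real.pi_gt_three
          gcongr
          linarith
      _ = _ := by ring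
  have h8 : ν * a ≤ M * b * c := le_of_mul_le_mul_left h7 (by positivity)
  calc ν ^ 2 * a ^ 2 = (ν * a) ^ 2 := by ring
    _ ≤ (M * b * c) ^ 2 := by gcongr
    _ = _ := by ring

end TRI

end SNS
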