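import Pool.Agent.SNS.TRI3

/-! TRI: consequences (measure theory only). -/

open MeasureTheory Filter Topology Set
open scoped ContDiff

namespace SNS

namespace TRI

/-- if `c high(k) ≤ C low(k) high(k/2)` frequently, then `∫ e = 0` -/
theorem zero_of_prod {e : E → ℝ} {c C : ℝ} (hc : 0 < c) (hC : 0 ≤ C) (h0 : ∀ ξ, 0 ≤ e ξ)
    (he : Integrable e (volume : Measure E))
    (hf : ∃ᶠ k : ℝ in 𝓝[>] 0, c * ∫ ξ in {ξ : E | k ≤ ‖ξ‖}, e ξ ≤
      C * (∫ ξ in {ξ : E | ‖ξ‖ < k}, e ξ) * ∫ ξ in {ξ : E | k / 2 ≤ ‖ξ‖}, e ξ) :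
    ∫ ξ : E, e ξ = 0 := by
  by_contra hne
  have hpos : 0 < ∫ ξ : E, e ξ := lt_of_le_of_ne (integral_nonneg fun ξ => h0 ξ) (Ne.symm hne)
  set D := ∫ ξ : E, e ξ with hD
  have h1 : ∀ᶠ k : ℝ in 𝓝[>] 0, D / 2 < ∫ ξ in {ξ : E | k ≤ ‖ξ‖}, e ξ :=
    (COR.high_tendsto he).eventually (lt_mem_nhds (by linarith))
  have h2 : Tendsto (fun k : ℝ => C * (∫ ξ in {ξ : E | ‖ξ‖ < k}, e ξ)) (𝓝[>] 0) (𝓝 0) := by
    have := (COR.low_tendsto he).const_mul C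
    rwa [mul_zero] at this
  have h3 : ∀ᶠ k : ℝ in 𝓝[>] 0, C * (∫ ξ in {ξ : E | ‖ξ‖ < k}, e ξ) < c / 4 :=
    h2.eventually (gt_mem_nhds (by positivity))
  obtain ⟨k, hk1, hk2, hk3⟩ := (hf.and_eventually (h1.and h3)).exists
  have h4 : c * (D / 2) < c * ∫ ξ in {ξ : E | k ≤ ‖ξ‖}, e ξ := by gcongr
  have h5 : ∫ ξ in {ξ : E | k / 2 ≤ ‖ξ‖}, e ξ ≤ D :=
    setIntegral_le_integral he (Eventually.of_forall h0)
  have h6 : 0 ≤ C * (∫ ξ in {ξ : E | ‖ξ‖ < k}, e ξ) :=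
    mul_nonneg hC (integral_nonneg fun ξ => h0 ξ)
  have h7 : C * (∫ ξ in {ξ : E | ‖ξ‖ < k}, e ξ) * (∫ ξ in {ξ : E | k / 2 ≤ ‖ξ‖}, e ξ) ≤
      c / 4 * D := by
    calc _ ≤ C * (∫ ξ in {ξ : E | ‖ξ‖ < k}, e ξ) * D := by gcongr
      _ ≤ _ := by gcongr
  nlinarith [mul_pos hc hpos]

/-- few low triads -/
def Few (S : Set E) : Prop :=
  ∃ C δ : ℝ, 0 < δ ∧ ∃ᶠ k : ℝ in 𝓝[>] 0, ∀ τ ∈ S, k ≤ ‖τ‖ → ‖τ‖ < δ →
    k ^ 2 * tw S k τ ≤ C * ‖τ‖ ^ 4

/-- adding the frequencies `≥ ε` does not matter -/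
theorem Few.weight {S : Set E} (hS : MeasurableSet S) (h : Few S) {ε : ℝ} (hε : 0 < ε) :
    ∃ M : ℝ, 0 ≤ M ∧ ∃ᶠ k : ℝ in 𝓝[>] 0, 0 < k ∧ ∀ τ ∈ S ∪ {ξ | ε ≤ ‖ξ‖}, k ≤ ‖τ‖ →
      k ^ 2 * tw (S ∪ {ξ | ε ≤ ‖ξ‖}) k τ ≤ M ^ 2 * ‖τ‖ ^ 4 := by
  obtain ⟨C, δ, hδ, hf⟩ := h
  set d := min δ (ε / 2) with hd
  have hd0 : 0 < d := lt_min hδ (by positivity)
  refine ⟨Real.sqrt (max C 1), Real.sqrt_nonneg _, ?_⟩
  have hM : Real.sqrt (max C 1) ^ 2 = max C 1 :=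
    Real.sq_sqrt (le_trans zero_le_one (le_max_right _ _))
  rw [hM]
  have h1 : ∀ᶠ k : ℝ in 𝓝[>] 0, k ^ 2 * (4 * Real.pi * k) < d ^ 4 := by
    have h2 : Tendsto (fun k : ℝ => k ^ 2 * (4 * Real.pi * k)) (𝓝 0) (𝓝 0) := by
      have : Tendsto (fun k : ℝ => k ^ 2 * (4 * Real.pi * k)) (𝓝 0)
          (𝓝 ((0 : ℝ) ^ 2 * (4 * Real.pi * 0))) := by
        apply Continuous.tendsto
        fun_prop
      simpa using this
    exact (h2.mono_left nhdsWithin_le_nhds).eventually (gt_mem_nhds (by positivity))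
  have h3 : ∀ᶠ k : ℝ in 𝓝[>] 0, k < ε / 2 :=
    (eventually_lt_nhds (by positivity : (0 : ℝ) < ε / 2)).filter_mono nhdsWithin_le_nhds
  refine (hf.and_eventually (h1.and (h3.and self_mem_nhdsWithin))).mono ?_
  rintro k ⟨h4, h5, h6, h7⟩
  have hk : (0 : ℝ) < k := h7
  refine ⟨hk, fun τ hτ hkτ => ?_⟩
  by_cases h8 : ‖τ‖ < d
  · have hτδ : ‖τ‖ < δ := h8.trans_le (min_le_left _ _)
    have hτε : ‖τ‖ < ε / 2 := h8.trans_le (min_le_right _ _)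
    have hτS : τ ∈ S := by
      rcases hτ with h | h
      · exact h
      · have h' : ε ≤ ‖τ‖ := h
        linarith
    have h9 : {x : E | ‖x‖ < k ∧ x ∈ S ∪ {ξ | ε ≤ ‖ξ‖} ∧ τ - x ∈ S ∪ {ξ | ε ≤ ‖ξ‖}} =
        {x : E | ‖x‖ < k ∧ x ∈ S ∧ τ - x ∈ S} := by
      ext x
      constructor
      · rintro ⟨a, b, c⟩
        refine ⟨a, ?_, ?_⟩
        · rcases b with h | h
          · exact h
          · have h' : ε ≤ ‖x‖ := h
            linarith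
        · rcases c with h | h
          · exact h
          · have h10 : ‖τ - x‖ ≤ ‖τ‖ + ‖x‖ := norm_sub_le _ _
            have h' : ε ≤ ‖τ - x‖ := h
            linarith
      · rintro ⟨a, b, c⟩
        exact ⟨a, Or.inl b, Or.inl c⟩
    have h10 : tw (S ∪ {ξ | ε ≤ ‖ξ‖}) k τ = tw S k τ := by unfold tw; rw [h9]
    rw [h10]
    refine (h4 τ hτS hkτ hτδ).trans ?_
    gcongr
    exact le_max_left _ _
  · have h11 : d ≤ ‖τ‖ := not_lt.1 h8
    calc k ^ 2 * tw (S ∪ {ξ | ε ≤ ‖ξ‖}) k τ ≤ k ^ 2 * (4 * Real.pi * k) := by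
          gcongr
          exact tw_le hk _ _
      _ ≤ 1 * d ^ 4 := by rw [one_mul]; exact h5.le
      _ ≤ max C 1 * ‖τ‖ ^ 4 := by
          gcongr
          exact le_max_right _ _

/-- the Liouville theorem -/
theorem liouville {ν : ℝ} {v : E → E} {p : E → ℝ} (hν : 0 < ν) (hv : ContDiff ℝ 2 v)
    (hp : Differentiable ℝ p) (hNS : SteadyNS ν v p) (h0 : Tendsto v (cocompact E) (𝓝 0))
    (h2 : ∀ i j, MemLp (G v i j) 2 (volume : Measure E)) {V : E → C3}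
    (hV : Integrable V (volume : Measure E))
    (hvV : ∀ j x, (v x j : ℂ) = FourierTransformInv.fourierInv (fun ξ => V ξ j) x)
    {S : Set E} (hS : MeasurableSet S) {ε : ℝ} (hε : 0 < ε)
    (hVS : ∀ᵐ ξ : E, ‖ξ‖ < ε → ξ ∉ S → V ξ = 0) (hF : Few S) :
    ∀ x, v x = 0 := by
  have hd := FIN.dens_ae hν hv hp hNS h0 h2 hV hvV
  have hi := FIN.en_integrable h2 hd
  obtain ⟨M, hM, hf⟩ := hF.weight hS hε
  have hS' : MeasurableSet (S ∪ {ξ : E | ε ≤ ‖ξ‖}) :=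
    hS.union (measurableSet_le measurable_const measurable_norm)
  have hVS' : ∀ᵐ ξ : E, ξ ∉ S ∪ {ξ : E | ε ≤ ‖ξ‖} → V ξ = 0 := by
    filter_upwards [hVS] with ξ h h'
    rw [mem_union, not_or] at h'
    exact h (not_le.1 h'.2) h'.1
  have hz : ∫ ξ : E, FIN.en V ξ = 0 := by
    refine zero_of_prod (c := ν ^ 2) (C := M ^ 2) (by positivity) (by positivity)
      (FIN.en_nonneg V) hi ?_
    refine hf.mono fun k hk => ?_
    exact bound hν hv hp hNS h0 h2 hV hvV hk.1 hM hS' hVS' hk.2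
  refine MAIN.zero_of_dens hv h0 h2 ?_
  rw [integral_congr_ae hd, integral_const_mul, hz, mul_zero]

/-! ### thin sets -/

/-- power bound of the weight integral: if `|S ∩ B_r| ≤ C r^m` with `m > 2`, then
`∫_{S ∩ B_k} |x|^{-2} ≤ C' k^{m-2}` -/
theorem inv_thin {S : Set E} (hS : MeasurableSet S) {C δ m : ℝ} (hC : 0 ≤ C) (hm : 2 < m)
    (h : ∀ r : ℝ, 0 < r → r < δ →
      volume (S ∩ Metric.ball (0 : E) r) ≤ ENNReal.ofReal (C * r ^ m)) :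
    ∃ C' : ℝ, 0 ≤ C' ∧ ∀ k : ℝ, 0 < k → 2 * k < δ →
      ∫ x in S ∩ {x : E | ‖x‖ < k}, (‖x‖ ^ 2)⁻¹ ≤ C' * k ^ (m - 2) := by
  set q : ℝ := (2 : ℝ) ^ (2 - m) with hq
  have hq0 : 0 < q := by positivity
  have hq1 : q < 1 := Real.rpow_lt_one_of_one_lt_of_neg (by norm_num) (by linarith)
  have hgs : Summable fun n : ℕ => q ^ n := summable_geometric_of_lt_one hq0.le hq1
  have hgn : 0 ≤ ∑' n : ℕ, q ^ n := tsum_nonneg fun n => by positivity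
  refine ⟨4 * C * 2 ^ m * ∑' n : ℕ, q ^ n, by positivity, fun k hk hkδ => ?_⟩
  have hSk : S ∩ {x : E | ‖x‖ < k} ⊆ {x : E | ‖x‖ < k} := inter_subset_right
  have hint : IntegrableOn (fun x : E => (‖x‖ ^ 2)⁻¹) (S ∩ {x : E | ‖x‖ < k}) :=
    (inv_integrable hk).mono_set hSk
  have hnn : 0 ≤ 4 * C * 2 ^ m * (∑' n : ℕ, q ^ n) * k ^ (m - 2) := by positivity
  rw [← ENNReal.ofReal_le_ofReal_iff hnn, ofReal_integral_eq_lintegral_ofReal hint
    (Eventually.of_forall fun x => by positivity)]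
  set A : ℕ → Set E := fun n => S ∩ {x : E | k / 2 ^ (n + 1) ≤ ‖x‖ ∧ ‖x‖ ≤ k / 2 ^ n} with hA
  have hcov : S ∩ {x : E | ‖x‖ < k} ⊆ {0} ∪ ⋃ n, A n := by
    rintro x ⟨hx, hxk⟩
    have hxk' : ‖x‖ < k := hxk
    by_cases hx0 : x = 0
    · left; exact hx0
    right
    have hxp : 0 < ‖x‖ := norm_pos_iff.2 hx0
    have h1 : 1 ≤ k / ‖x‖ := by rw [le_div_iff₀ hxp]; linarith
    obtain ⟨n, hn1, hn2⟩ := exists_nat_pow_near h1 (by norm_num : (1 : ℝ) < 2)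
    refine mem_iUnion.2 ⟨n, hx, ?_, ?_⟩
    · rw [div_le_iff₀ (by positivity)]
      rw [div_lt_iff₀ hxp] at hn2
      linarith
    · rw [le_div_iff₀ (by positivity)]
      rw [le_div_iff₀ hxp] at hn1
      linarith
  have hAm : ∀ n, MeasurableSet (A n) := fun n =>
    hS.inter ((measurableSet_le measurable_const measurable_norm).inter
      (measurableSet_le measurable_norm measurable_const))
  have hAn : ∀ n, ∫⁻ x in A n, ENNReal.ofReal ((‖x‖ ^ 2)⁻¹) ≤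
      ENNReal.ofReal (4 * C * 2 ^ m * k ^ (m - 2) * q ^ n) := by
    intro n
    set r : ℝ := k / 2 ^ n with hr
    have hr0 : 0 < r := by positivity
    have hrk : r ≤ k := div_le_self hk.le (one_le_pow₀ (by norm_num))
    have h1 : ∫⁻ x in A n, ENNReal.ofReal ((‖x‖ ^ 2)⁻¹) ≤
        ∫⁻ x in A n, ENNReal.ofReal (4 / r ^ 2) := by
      refine setLIntegral_mono measurable_const fun x hx => ENNReal.ofReal_le_ofReal ?_
      have h2 : r / 2 ≤ ‖x‖ := by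
        have : k / 2 ^ (n + 1) ≤ ‖x‖ := hx.2.1
        rw [hr]
        calc k / 2 ^ n / 2 = k / 2 ^ (n + 1) := by rw [pow_succ]; field_simp
          _ ≤ _ := this
      have h3 : (r / 2) ^ 2 ≤ ‖x‖ ^ 2 := by gcongr
      calc (‖x‖ ^ 2)⁻¹ ≤ ((r / 2) ^ 2)⁻¹ := by gcongr
        _ = 4 / r ^ 2 := by field_simp; norm_num
    refine h1.trans ?_
    rw [setLIntegral_const]
    have h4 : volume (A n) ≤ ENNReal.ofReal (C * (2 * r) ^ m) := by
      refine le_trans (measure_mono ?_) (h (2 * r) (by positivity) (by linarith))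
      rintro x ⟨hx, hx1, hx2⟩
      refine ⟨hx, ?_⟩
      rw [mem_ball_zero_iff]
      linarith
    calc ENNReal.ofReal (4 / r ^ 2) * volume (A n)
        ≤ ENNReal.ofReal (4 / r ^ 2) * ENNReal.ofReal (C * (2 * r) ^ m) := by gcongr
      _ = ENNReal.ofReal (4 * C * 2 ^ m * k ^ (m - 2) * q ^ n) := by
          rw [← ENNReal.ofReal_mul (by positivity)]
          congr 1
          have e1 : (2 * r) ^ m = 2 ^ m * r ^ m := Real.mul_rpow (by norm_num) hr0.le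
          have e2 : r ^ m = r ^ (m - 2) * r ^ 2 := by
            rw [← Real.rpow_natCast r 2, ← Real.rpow_add hr0]
            congr 1
            push_cast
            ring
          have e3 : r ^ (m - 2) = k ^ (m - 2) * q ^ n := by
            rw [hr, Real.div_rpow hk.le (by positivity), hq, ← Real.rpow_natCast 2 n,
              ← Real.rpow_mul (by norm_num), ← Real.rpow_natCast (2 ^ (2 - m)) n,
              ← Real.rpow_mul (by norm_num), div_eq_mul_inv, ← Real.rpow_neg (by norm_num)]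
            congr 2
            ring
          rw [e1, e2, e3]
          field_simp
  calc ∫⁻ x in S ∩ {x : E | ‖x‖ < k}, ENNReal.ofReal ((‖x‖ ^ 2)⁻¹)
      ≤ ∫⁻ x in {0} ∪ ⋃ n, A n, ENNReal.ofReal ((‖x‖ ^ 2)⁻¹) := lintegral_mono_set hcov
    _ ≤ (∫⁻ x in {0}, ENNReal.ofReal ((‖x‖ ^ 2)⁻¹)) +
        ∫⁻ x in ⋃ n, A n, ENNReal.ofReal ((‖x‖ ^ 2)⁻¹) := lintegral_union_le _ _ _
    _ = ∫⁻ x in ⋃ n, A n, ENNReal.ofReal ((‖x‖ ^ 2)⁻¹) := by
        rw [setLIntegral_measure_zero _ _ (by simp), zero_add]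
    _ ≤ ∑' n, ∫⁻ x in A n, ENNReal.ofReal ((‖x‖ ^ 2)⁻¹) := lintegral_iUnion_le _ _
    _ ≤ ∑' n, ENNReal.ofReal (4 * C * 2 ^ m * k ^ (m - 2) * q ^ n) := ENNReal.tsum_le_tsum hAn
    _ = ENNReal.ofReal (∑' n, 4 * C * 2 ^ m * k ^ (m - 2) * q ^ n) :=
        (ENNReal.ofReal_tsum_of_nonneg (fun n => by positivity) (hgs.mul_left _)).symm
    _ = _ := by
        rw [tsum_mul_left]
        congr 1
        ring

/-- volume `O(r^4)` -/
def Thin (S : Set E) : Prop :=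
  ∃ C δ : ℝ, 0 < δ ∧ ∀ r : ℝ, 0 < r → r < δ →
    volume (S ∩ Metric.ball (0 : E) r) ≤ ENNReal.ofReal (C * r ^ 4)

theorem tw_le_inv {S : Set E} {k : ℝ} (hk : 0 < k) (τ : E) :
    tw S k τ ≤ ∫ x in S ∩ {x : E | ‖x‖ < k}, (‖x‖ ^ 2)⁻¹ := by
  unfold tw
  have h0 : S ∩ {x : E | ‖x‖ < k} ⊆ {x : E | ‖x‖ < k} := inter_subset_right
  have h1 : ∫ x in {x : E | ‖x‖ < k ∧ x ∈ S ∧ τ - x ∈ S}, wt τ x ≤
      ∫ x in S ∩ {x : E | ‖x‖ < k}, wt τ x := by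
    refine setIntegral_mono_set (wt_integrable hk τ h0)
      (Eventually.of_forall fun x => wt_nonneg τ x) ?_
    exact Eventually.of_forall fun x hx => ⟨hx.2.1, hx.1⟩
  refine h1.trans ?_
  exact integral_mono (wt_integrable hk τ h0) ((inv_integrable hk).mono_set h0)
    fun x => wt_le τ x

theorem Thin.few {S : Set E} (hS : MeasurableSet S) (h : Thin S) : Few S := by
  obtain ⟨C, δ, hδ, h1⟩ := h
  obtain ⟨C', hC', h2⟩ := inv_thin (C := |C|) (δ := δ) (m := 4) hS (abs_nonneg C) (by norm_num)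
    (fun r hr hrδ => by
      refine (h1 r hr hrδ).trans (ENNReal.ofReal_le_ofReal ?_)
      have e : r ^ (4 : ℝ) = r ^ 4 := by
        rw [← Real.rpow_natCast]; norm_num
      rw [e]
      gcongr
      exact le_abs_self C)
  refine ⟨C', 1, one_pos, Filter.Eventually.frequently ?_⟩
  have h3 : ∀ᶠ k : ℝ in 𝓝[>] 0, k < δ / 2 :=
    (eventually_lt_nhds (by positivity : (0 : ℝ) < δ / 2)).filter_mono nhdsWithin_le_nhds
  filter_upwards [h3, self_mem_nhdsWithin] with k h4 h5 τ _ hkτ _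
  have hk : (0 : ℝ) < k := h5
  have h6 := (tw_le_inv (S := S) hk τ).trans (h2 k hk (by linarith))
  have e : k ^ ((4 : ℝ) - 2) = k ^ 2 := by
    rw [← Real.rpow_natCast]; norm_num
  rw [e] at h6
  calc k ^ 2 * tw S k τ ≤ k ^ 2 * (C' * k ^ 2) := by gcongr
    _ = C' * k ^ 4 := by ring
    _ ≤ C' * ‖τ‖ ^ 4 := by gcongr

end TRI

end SNS
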