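import Pool.Agent.SNS.TRI4

/-! TRI: spectra in a cusp around a line. -/

open MeasureTheory Filter Topology Set
open scoped ContDiff RealInnerProductSpace

namespace SNS

namespace TRI

/-- `t` realising the distance of `x` to the line through `y` -/
theorem exists_foot (x : E) {y : E} (hy : y ≠ 0) :
    ∃ t : ℝ, ‖x - t • y‖ = sn x y * ‖x‖ ∧ ‖t • y‖ ≤ ‖x‖ ∧ ⟪y, x - t • y⟫ = 0 := by
  have hy0 : 0 < ‖y‖ := norm_pos_iff.2 hy
  refine ⟨⟪x, y⟫ / ‖y‖ ^ 2, ?_, ?_, ?_⟩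
  · set c : ℝ := ⟪x, y⟫ / ‖y‖ ^ 2 with hc
    have h3 : ‖x - c • y‖ ^ 2 * ‖y‖ ^ 2 = (sn x y * ‖x‖) ^ 2 * ‖y‖ ^ 2 := by
      have h4 := InnerProductGeometry.sin_angle_mul_norm_mul_norm x y
      have h5 : (sn x y * (‖x‖ * ‖y‖)) ^ 2 = ⟪x, x⟫ * ⟪y, y⟫ - ⟪x, y⟫ * ⟪x, y⟫ := by
        unfold sn
        rw [h4, Real.sq_sqrt]
        have := real_inner_mul_inner_self_le x y
        linarith
      have h6 : ‖x - c • y‖ ^ 2 = ‖x‖ ^ 2 - 2 * (c * ⟪x, y⟫) + c ^ 2 * ‖y‖ ^ 2 := by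
        rw [norm_sub_sq_real, inner_smul_right, norm_smul, mul_pow, Real.norm_eq_abs, sq_abs]
      rw [mul_pow, mul_pow] at h5
      rw [mul_pow, h6]
      rw [real_inner_self_eq_norm_sq, real_inner_self_eq_norm_sq] at h5
      rw [mul_assoc, h5, hc]
      field_simp
      ring
    have h7 : ‖x - c • y‖ ^ 2 = (sn x y * ‖x‖) ^ 2 := mul_right_cancel₀ (by positivity) h3
    have h8 := sn_nonneg x y
    exact (pow_left_inj₀ (norm_nonneg _) (by positivity) two_ne_zero).1 h7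
  · rw [norm_smul, norm_div, norm_pow, norm_norm, div_mul_eq_mul_div,
      div_le_iff₀ (by positivity), Real.norm_eq_abs]
    have := abs_real_inner_le_norm x y
    nlinarith
  · rw [inner_sub_right, inner_smul_right, real_inner_self_eq_norm_sq, real_inner_comm]
    field_simp
    ring

/-- the sine is at most the relative distance to any point of the line -/
theorem sn_le (x y : E) (t : ℝ) : sn x y * ‖x‖ ≤ ‖x - t • y‖ := by
  by_cases hy : y = 0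
  · subst hy
    rw [smul_zero, sub_zero]
    have := sn_le_one x (0 : E)
    nlinarith [norm_nonneg x]
  obtain ⟨s, h1, -, h3⟩ := exists_foot x hy
  rw [← h1]
  have h4 : x - t • y = (x - s • y) + (s - t) • y := by module
  have h5 : ‖x - t • y‖ ^ 2 = ‖x - s • y‖ ^ 2 + ‖(s - t) • y‖ ^ 2 := by
    rw [h4, norm_add_sq_real, inner_smul_right, real_inner_comm, h3]
    ring
  have h6 : ‖x - s • y‖ ^ 2 ≤ ‖x - t • y‖ ^ 2 := by
    rw [h5]; nlinarith [sq_nonneg ‖(s - t) • y‖]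
  exact (pow_le_pow_iff_left₀ (norm_nonneg _) (norm_nonneg _) two_ne_zero).1 h6

theorem sn_zero_right (x : E) : sn x 0 = 1 := by
  unfold sn
  rw [InnerProductGeometry.angle_zero_right, Real.sin_pi_div_two]

theorem sn_zero_left (x : E) : sn 0 x = 1 := by
  rw [sn_comm, sn_zero_right]

/-- triangle inequality -/
theorem sn_tri (x y e : E) : sn x y ≤ sn x e + sn y e := by
  have h1 := sn_le_one x y
  have h2 := sn_nonneg x e
  have h3 := sn_nonneg y e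
  by_cases he : e = 0
  · subst he
    rw [sn_zero_right, sn_zero_right]; linarith
  by_cases hy : y = 0
  · subst hy
    rw [sn_zero_left]; linarith
  by_cases hx : x = 0
  · subst hx
    rw [sn_zero_left e]; linarith
  obtain ⟨t, ht1, ht2, -⟩ := exists_foot x he
  obtain ⟨s, hs1, -, -⟩ := exists_foot e hy
  have h4 := sn_le x y (t * s)
  have h5 : x - (t * s) • y = (x - t • e) + t • (e - s • y) := by module
  have h6 : ‖x - (t * s) • y‖ ≤ sn x e * ‖x‖ + |t| * (sn e y * ‖e‖) := by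
    rw [h5]
    refine (norm_add_le _ _).trans ?_
    rw [ht1, norm_smul, hs1, Real.norm_eq_abs]
  have h7 : |t| * ‖e‖ ≤ ‖x‖ := by
    rw [norm_smul, Real.norm_eq_abs] at ht2
    exact ht2
  have h8 := sn_nonneg e y
  have h9 : sn x y * ‖x‖ ≤ (sn x e + sn y e) * ‖x‖ := by
    rw [sn_comm y e]
    calc sn x y * ‖x‖ ≤ sn x e * ‖x‖ + |t| * (sn e y * ‖e‖) := h4.trans h6
      _ = sn x e * ‖x‖ + sn e y * (|t| * ‖e‖) := by ring
      _ ≤ sn x e * ‖x‖ + sn e y * ‖x‖ := by gcongr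
      _ = _ := by ring
  exact le_of_mul_le_mul_right h9 (norm_pos_iff.2 hx)

/-- volume of boxes -/
theorem box_volume (a : Fin 3 → ℝ) :
    volume {y : E | ∀ i, |y i| ≤ a i} = ∏ i, ENNReal.ofReal (2 * a i) := by
  have h1 : {y : E | ∀ i, |y i| ≤ a i} =
      (fun y : E => (WithLp.ofLp y : Fin 3 → ℝ)) ⁻¹' (Icc (fun i => - a i) a) := by
    ext y
    simp only [mem_ofPred_eq, mem_preimage, mem_Icc, Pi.le_def, abs_le]
    constructor
    · exact fun h => ⟨fun i => (h i).1, fun i => (h i).2⟩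
    · exact fun h i => ⟨h.1 i, h.2 i⟩
  rw [h1, (PiLp.volume_preserving_ofLp (Fin 3)).measure_preimage measurableSet_Icc.nullMeasurableSet,
    Real.volume_Icc_pi]
  refine Finset.prod_congr rfl fun i _ => ?_
  congr 1
  ring

/-- volume of a tube around a line -/
theorem tube_volume {e : E} (he : e ≠ 0) {r s : ℝ} (hr : 0 ≤ r) (hs : 0 ≤ s) :
    volume {x : E | ‖x‖ ≤ r ∧ sn x e * ‖x‖ ≤ s} ≤ ENNReal.ofReal (8 * r * s ^ 2) := by
  have he0 : 0 < ‖e‖ := norm_pos_iff.2 he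
  set u : E := ‖e‖⁻¹ • e with hu
  have hu1 : ‖u‖ = 1 := by
    rw [hu, norm_smul, norm_inv, norm_norm]
    exact inv_mul_cancel₀ he0.ne'
  have hort : Orthonormal ℝ (({0} : Set (Fin 3)).domRestrict (fun _ : Fin 3 => u)) := by
    refine ⟨fun i => hu1, fun i j hij => ?_⟩
    exact absurd (Subsingleton.elim i j) hij
  obtain ⟨b, hb⟩ := hort.exists_orthonormalBasis_extension_of_card_eq (by simp)
  have hb0 : b 0 = u := hb 0 rfl
  have hsub : {x : E | ‖x‖ ≤ r ∧ sn x e * ‖x‖ ≤ s} ⊆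
      b.repr ⁻¹' {y : E | ∀ i, |y i| ≤ (![r, s, s] : Fin 3 → ℝ) i} := by
    rintro x ⟨hx1, hx2⟩
    obtain ⟨t, ht1, -, -⟩ := exists_foot x he
    have hc : ∀ i : Fin 3, i ≠ 0 → |b.repr x i| ≤ s := by
      intro i hi
      rw [b.repr_apply_apply]
      have h1 : ⟪b i, x⟫ = ⟪b i, x - t • e⟫ := by
        have h2 : e = ‖e‖ • b 0 := by
          rw [hb0, hu, smul_smul, mul_inv_cancel₀ he0.ne', one_smul]
        rw [inner_sub_right, h2, inner_smul_right, inner_smul_right,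
          b.orthonormal.2 hi]
        ring
      rw [h1]
      refine (abs_real_inner_le_norm _ _).trans ?_
      rw [b.orthonormal.1 i, one_mul, ht1]
      exact hx2
    have h0 : |b.repr x 0| ≤ r := by
      rw [b.repr_apply_apply]
      refine (abs_real_inner_le_norm _ _).trans ?_
      rw [b.orthonormal.1 0, one_mul]
      exact hx1
    intro i
    fin_cases i
    · exact h0
    · exact hc 1 (by decide)
    · exact hc 2 (by decide)
  refine (measure_mono hsub).trans ?_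
  have hm : MeasurableSet {y : E | ∀ i, |y i| ≤ (![r, s, s] : Fin 3 → ℝ) i} := by
    rw [ofPred_forall]
    refine MeasurableSet.iInter fun i => ?_
    have h1 : Measurable (fun y : E => |y i|) :=
      ((EuclideanSpace.proj i : E →L[ℝ] ℝ).continuous.abs).measurable
    exact measurableSet_le h1 measurable_const
  rw [b.measurePreserving_repr.measure_preimage hm.nullMeasurableSet, box_volume,
    Fin.prod_univ_three]
  simp only [Matrix.cons_val_zero, Matrix.cons_val_one, Matrix.cons_val]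
  rw [← ENNReal.ofReal_mul (by positivity), ← ENNReal.ofReal_mul (by positivity)]
  refine ENNReal.ofReal_le_ofReal (le_of_eq ?_)
  ring

/-- `S` lies near zero in a cusp of order `5/4` around a line -/
def Cusp (S : Set E) : Prop :=
  ∃ e : E, e ≠ 0 ∧ ∃ C δ : ℝ, 0 < δ ∧ ∀ x ∈ S, ‖x‖ < δ → sn x e ≤ C * ‖x‖ ^ (1 / 4 : ℝ)

theorem Cusp.few {S : Set E} (hS : MeasurableSet S) (h : Cusp S) : Few S := by
  obtain ⟨e, he, C0, δ, hδ, h0⟩ := h
  set C := |C0| with hCdef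
  have hC : 0 ≤ C := abs_nonneg _
  have h1 : ∀ x ∈ S, ‖x‖ < δ → sn x e ≤ C * ‖x‖ ^ (1 / 4 : ℝ) := fun x hx hxδ =>
    (h0 x hx hxδ).trans (by gcongr; exact le_abs_self C0)
  obtain ⟨C', hC', h2⟩ := inv_thin (S := S) (C := 8 * C ^ 2) (δ := δ) (m := 7 / 2) hS
    (by positivity) (by norm_num)
    (fun r hr hrδ => by
      refine (measure_mono (t := {x : E | ‖x‖ ≤ r ∧ sn x e * ‖x‖ ≤ C * r ^ (5 / 4 : ℝ)})
        ?_).trans ?_
      · rintro x ⟨hx, hxr⟩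
        rw [mem_ball_zero_iff] at hxr
        refine ⟨hxr.le, ?_⟩
        have h3 := h1 x hx (hxr.trans hrδ)
        by_cases hx0 : x = 0
        · rw [hx0, norm_zero, mul_zero]; positivity
        have hxp : 0 < ‖x‖ := norm_pos_iff.2 hx0
        calc sn x e * ‖x‖ ≤ (C * ‖x‖ ^ (1 / 4 : ℝ)) * ‖x‖ := by gcongr
          _ = C * ‖x‖ ^ (5 / 4 : ℝ) := by
              rw [mul_assoc]
              congr 1
              nth_rewrite 2 [← Real.rpow_one ‖x‖]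
              rw [← Real.rpow_add hxp]
              norm_num
          _ ≤ _ := by gcongr
      · refine (tube_volume he hr.le (by positivity)).trans (ENNReal.ofReal_le_ofReal ?_)
        have e1 : (r ^ (5 / 4 : ℝ)) ^ 2 = r ^ (5 / 2 : ℝ) := by
          rw [← Real.rpow_natCast, ← Real.rpow_mul hr.le]; norm_num
        have e2 : r * r ^ (5 / 2 : ℝ) = r ^ (7 / 2 : ℝ) := by
          nth_rewrite 1 [← Real.rpow_one r]
          rw [← Real.rpow_add hr]; norm_num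
        calc 8 * r * (C * r ^ (5 / 4 : ℝ)) ^ 2 = 8 * C ^ 2 * (r * (r ^ (5 / 4 : ℝ)) ^ 2) := by ring
          _ = 8 * C ^ 2 * r ^ (7 / 2 : ℝ) := by rw [e1, e2]
          _ ≤ _ := le_rfl)
  refine ⟨9 * C ^ 2 * C', δ / 2, by positivity, Filter.Eventually.frequently ?_⟩
  have h3 : ∀ᶠ k : ℝ in 𝓝[>] 0, k < δ / 2 :=
    (eventually_lt_nhds (by positivity : (0 : ℝ) < δ / 2)).filter_mono nhdsWithin_le_nhds
  filter_upwards [h3, self_mem_nhdsWithin] with k h4 h5 τ hτ hkτ hτδ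
  have hk : (0 : ℝ) < k := h5
  have hτ0 : 0 < ‖τ‖ := hk.trans_le hkτ
  have hI := h2 k hk (by linarith)
  set P : Set E := {x : E | ‖x‖ < k ∧ x ∈ S ∧ τ - x ∈ S} with hP
  have hPm : MeasurableSet P := by
    refine (measurableSet_lt measurable_norm measurable_const).inter (hS.inter ?_)
    exact (measurable_const.sub measurable_id) hS
  set B : ℝ := 9 * C ^ 2 * ‖τ‖ ^ (1 / 2 : ℝ) with hB
  have hB0 : 0 ≤ B := by positivity
  have hwt : ∀ x ∈ P, wt τ x ≤ B * (‖x‖ ^ 2)⁻¹ := by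
    rintro x ⟨hx1, hx2, hx3⟩
    have hxτ : ‖x‖ ≤ ‖τ‖ := hx1.le.trans hkτ
    have hyτ : ‖τ - x‖ ≤ 2 * ‖τ‖ := (norm_sub_le _ _).trans (by linarith)
    have a1 := h1 x hx2 (by linarith)
    have a2 := h1 (τ - x) hx3 (by linarith)
    have a3 := sn_tri x (τ - x) e
    have b1 : ‖x‖ ^ (1 / 4 : ℝ) ≤ ‖τ‖ ^ (1 / 4 : ℝ) := by gcongr
    have b2 : ‖τ - x‖ ^ (1 / 4 : ℝ) ≤ 2 * ‖τ‖ ^ (1 / 4 : ℝ) := by
      calc ‖τ - x‖ ^ (1 / 4 : ℝ) ≤ (2 * ‖τ‖) ^ (1 / 4 : ℝ) := by gcongr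
        _ = 2 ^ (1 / 4 : ℝ) * ‖τ‖ ^ (1 / 4 : ℝ) := Real.mul_rpow (by norm_num) hτ0.le
        _ ≤ 2 ^ (1 : ℝ) * ‖τ‖ ^ (1 / 4 : ℝ) := by
            gcongr
            · norm_num
            · norm_num
        _ = _ := by rw [Real.rpow_one]
    have a4 : sn x (τ - x) ≤ 3 * C * ‖τ‖ ^ (1 / 4 : ℝ) := by
      calc sn x (τ - x) ≤ C * ‖x‖ ^ (1 / 4 : ℝ) + C * ‖τ - x‖ ^ (1 / 4 : ℝ) := by linarith
        _ ≤ C * ‖τ‖ ^ (1 / 4 : ℝ) + C * (2 * ‖τ‖ ^ (1 / 4 : ℝ)) := by gcongr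
        _ = _ := by ring
    have a5 : sn x (τ - x) ^ 2 ≤ B := by
      have a6 : sn x (τ - x) ^ 2 ≤ (3 * C * ‖τ‖ ^ (1 / 4 : ℝ)) ^ 2 :=
        pow_le_pow_left₀ (sn_nonneg _ _) a4 2
      refine a6.trans (le_of_eq ?_)
      have e1 : (‖τ‖ ^ (1 / 4 : ℝ)) ^ 2 = ‖τ‖ ^ (1 / 2 : ℝ) := by
        rw [← Real.rpow_natCast, ← Real.rpow_mul hτ0.le]; norm_num
      rw [mul_pow, e1, hB]; ring
    unfold wt
    rw [div_eq_mul_inv]
    gcongr
  have htw : tw S k τ ≤ B * ∫ x in S ∩ {x : E | ‖x‖ < k}, (‖x‖ ^ 2)⁻¹ := by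
    have hPk : P ⊆ {x : E | ‖x‖ < k} := fun x hx => hx.1
    have hSk : S ∩ {x : E | ‖x‖ < k} ⊆ {x : E | ‖x‖ < k} := inter_subset_right
    calc tw S k τ ≤ ∫ x in P, B * (‖x‖ ^ 2)⁻¹ := by
          refine setIntegral_mono_on (wt_integrable hk τ hPk)
            (((inv_integrable hk).mono_set hPk).const_mul B) hPm hwt
      _ = B * ∫ x in P, (‖x‖ ^ 2)⁻¹ := integral_const_mul _ _
      _ ≤ B * ∫ x in S ∩ {x : E | ‖x‖ < k}, (‖x‖ ^ 2)⁻¹ := by
          refine mul_le_mul_of_nonneg_left ?_ hB0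
          refine setIntegral_mono_set ((inv_integrable hk).mono_set hSk)
            (Eventually.of_forall fun x => by positivity) ?_
          exact Eventually.of_forall fun x hx => ⟨hx.2.1, hx.1⟩
  have e3 : k ^ ((7 / 2 : ℝ) - 2) = k ^ (3 / 2 : ℝ) := by norm_num
  rw [e3] at hI
  have e4 : k ^ 2 * k ^ (3 / 2 : ℝ) = k ^ (7 / 2 : ℝ) := by
    rw [← Real.rpow_natCast k 2, ← Real.rpow_add hk]; norm_num
  have e5 : ‖τ‖ ^ (1 / 2 : ℝ) * ‖τ‖ ^ (7 / 2 : ℝ) = ‖τ‖ ^ 4 := by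
    rw [← Real.rpow_add hτ0, ← Real.rpow_natCast]; norm_num
  calc k ^ 2 * tw S k τ ≤ k ^ 2 * (B * (C' * k ^ (3 / 2 : ℝ))) := by
        gcongr
        exact htw.trans (by gcongr)
    _ = 9 * C ^ 2 * C' * (‖τ‖ ^ (1 / 2 : ℝ) * (k ^ 2 * k ^ (3 / 2 : ℝ))) := by rw [hB]; ring
    _ = 9 * C ^ 2 * C' * (‖τ‖ ^ (1 / 2 : ℝ) * k ^ (7 / 2 : ℝ)) := by rw [e4]
    _ ≤ 9 * C ^ 2 * C' * (‖τ‖ ^ (1 / 2 : ℝ) * ‖τ‖ ^ (7 / 2 : ℝ)) := by gcongr
    _ = 9 * C ^ 2 * C' * ‖τ‖ ^ 4 := by rw [e5]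

end TRI

end SNS
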