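import Pool.Agent.SNS.TRI5

/-! TRI: spectra in parabolic layers around planes. -/

open MeasureTheory Filter Topology Set
open scoped ContDiff RealInnerProductSpace

namespace SNS

namespace TRI

/-- volume of a slab in a ball -/
theorem slab_volume {e : E} (he : e ≠ 0) {r s : ℝ} (hr : 0 ≤ r) (hs : 0 ≤ s) :
    volume {x : E | ‖x‖ ≤ r ∧ |⟪e, x⟫| ≤ s} ≤ ENNReal.ofReal (8 * ‖e‖⁻¹ * s * r ^ 2) := by
  have he0 : 0 < ‖e‖ := norm_pos_iff.2 he
  set u : E := ‖e‖⁻¹ • e with hu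
  have hu1 : ‖u‖ = 1 := by
    rw [hu, norm_smul, norm_inv, norm_norm]
    exact inv_mul_cancel₀ he0.ne'
  have hort : Orthonormal ℝ (({0} : Set (Fin 3)).domRestrict (fun _ : Fin 3 => u)) := by
    refine ⟨fun i => hu1, fun i j hij => ?_⟩
    exact absurd (Subsingleton.elim i j) hij
  obtain ⟨b, hb⟩ := hort.exists_orthonormalBasis_extension_of_card_eq (by simp)
  have hb0 : b 0 = u := hb 0 rfl
  have hsub : {x : E | ‖x‖ ≤ r ∧ |⟪e, x⟫| ≤ s} ⊆
      b.repr ⁻¹' {y : E | ∀ i, |y i| ≤ (![‖e‖⁻¹ * s, r, r] : Fin 3 → ℝ) i} := by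
    rintro x ⟨hx1, hx2⟩
    have hc : ∀ i : Fin 3, |b.repr x i| ≤ r := by
      intro i
      rw [b.repr_apply_apply]
      refine (abs_real_inner_le_norm _ _).trans ?_
      rw [b.orthonormal.1 i, one_mul]
      exact hx1
    have h0 : |b.repr x 0| ≤ ‖e‖⁻¹ * s := by
      rw [b.repr_apply_apply, hb0, hu, real_inner_smul_left, abs_mul, abs_inv, abs_norm]
      gcongr
    intro i
    fin_cases i
    · exact h0
    · exact hc 1
    · exact hc 2
  refine (measure_mono hsub).trans ?_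
  have hm : MeasurableSet {y : E | ∀ i, |y i| ≤ (![‖e‖⁻¹ * s, r, r] : Fin 3 → ℝ) i} := by
    rw [ofPred_forall]
    refine MeasurableSet.iInter fun i => ?_
    have h1 : Measurable (fun y : E => |y i|) :=
      ((EuclideanSpace.proj i : E →L[ℝ] ℝ).continuous.abs).measurable
    exact measurableSet_le h1 measurable_const
  rw [b.measurePreserving_repr.measure_preimage hm.nullMeasurableSet, box_volume,
    Fin.prod_univ_three]
  simp only [Matrix.cons_val_zero, Matrix.cons_val_one, Matrix.cons_val]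
  rw [← ENNReal.ofReal_mul (by positivity), ← ENNReal.ofReal_mul (by positivity)]
  refine ENNReal.ofReal_le_ofReal (le_of_eq ?_)
  ring

/-- near zero `S` lies in finitely many parabolic layers around planes -/
def Layers (S : Set E) : Prop :=
  ∃ (n : ℕ) (e : Fin n → E) (C δ : ℝ), (∀ i, e i ≠ 0) ∧ 0 < δ ∧
    ∀ x ∈ S, ‖x‖ < δ → ∃ i, |⟪e i, x⟫| ≤ C * ‖x‖ ^ 2

theorem Layers.thin {S : Set E} (h : Layers S) : Thin S := by
  obtain ⟨n, e, C, δ, he, hδ, h1⟩ := h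
  refine ⟨∑ i, 8 * ‖e i‖⁻¹ * |C|, δ, hδ, fun r hr hrδ => ?_⟩
  have hsub : S ∩ Metric.ball (0 : E) r ⊆
      ⋃ i ∈ (Finset.univ : Finset (Fin n)), {x : E | ‖x‖ ≤ r ∧ |⟪e i, x⟫| ≤ |C| * r ^ 2} := by
    rintro x ⟨hx, hxr⟩
    rw [mem_ball_zero_iff] at hxr
    obtain ⟨i, hi⟩ := h1 x hx (hxr.trans hrδ)
    refine mem_iUnion₂.2 ⟨i, Finset.mem_univ i, hxr.le, hi.trans ?_⟩
    calc C * ‖x‖ ^ 2 ≤ |C| * ‖x‖ ^ 2 := by gcongr; exact le_abs_self C
      _ ≤ |C| * r ^ 2 := by gcongr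
  calc volume (S ∩ Metric.ball (0 : E) r)
      ≤ volume (⋃ i ∈ (Finset.univ : Finset (Fin n)),
          {x : E | ‖x‖ ≤ r ∧ |⟪e i, x⟫| ≤ |C| * r ^ 2}) := measure_mono hsub
    _ ≤ ∑ i, volume {x : E | ‖x‖ ≤ r ∧ |⟪e i, x⟫| ≤ |C| * r ^ 2} :=
        measure_biUnion_finset_le _ _
    _ ≤ ∑ i, ENNReal.ofReal (8 * ‖e i‖⁻¹ * |C| * r ^ 4) := by
        refine Finset.sum_le_sum fun i _ => ?_
        refine (slab_volume (he i) hr.le (by positivity)).trans (ENNReal.ofReal_le_ofReal ?_)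
        exact le_of_eq (by ring)
    _ = ENNReal.ofReal ((∑ i, 8 * ‖e i‖⁻¹ * |C|) * r ^ 4) := by
        rw [← ENNReal.ofReal_sum_of_nonneg fun i _ => by positivity, Finset.sum_mul]

end TRI

end SNS
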